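import Pool.Agent.Lib.MP_d01072_ag.Tf.Spec

/-!
MP_d01072_ag, package Tf: the Steinitz bound.
-/

set_option autoImplicit false

namespace Pool.Agent.Lib.MP_d01072_ag.Tf

open MvPolynomial

private theorem stzMem {k K : Type} [Field k] [Field K] [Algebra k K] {S : Set K} {x : K}
    (h : x ∈ Cl k S) : x ∈ (AlgebraicIndependent.matroid k K).closure S := by
  rw [AlgebraicIndependent.matroid_closure_eq]
  have h1 : IsIntegral (IntermediateField.adjoin k S) x := h
  have h2 : IsAlgebraic (IntermediateField.adjoin k S) x := h1.isAlgebraic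
  exact (IntermediateField.isAlgebraic_adjoin_iff).1 h2

theorem t_Stz : S_Stz := by
  intro k K _ _ _ m v F hv hF
  let M := AlgebraicIndependent.matroid k K
  have h1 : M.Indep (Set.range v) := by
    rw [AlgebraicIndependent.matroid_indep_iff]
    exact hv.coe_range
  have h2 : Set.range v ⊆ M.closure (F : Set K) := by
    rintro _ ⟨i, rfl⟩
    exact stzMem (hF i)
  have h3 : M.eRk (Set.range v) ≤ M.eRk (F : Set K) := by
    rw [← M.eRk_closure_eq (F : Set K)]
    exact M.eRk_mono h2
  rw [h1.eRk_eq_encard] at h3
  have h4 : (Set.range v).encard = m := by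
    rw [← Set.image_univ, hv.injective.encard_image, Set.encard_univ]
    simp
  have h5 := h3.trans (M.eRk_le_encard (F : Set K))
  rw [h4, Set.encard_coe_eq_coe_finsetCard] at h5
  exact_mod_cast h5

end Pool.Agent.Lib.MP_d01072_ag.Tf
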