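import Pool.Agent.Lib.MP_d01072_ag.Tf.Spec

/-! MP_d01072_ag, package Tf: the plane version of the theorem of Alexander and Hirschowitz. -/

set_option autoImplicit false

namespace Pool.Agent.Lib.MP_d01072_ag.Tf

open MvPolynomial

/-- the number of slots with value `x` -/
private def cn {d : ℕ} (i : Fin d → Fin 3) (x : Fin 3) : ℕ :=
  (Finset.univ.filter fun t => i t = x).card

private theorem cn_sum {d : ℕ} (i : Fin d → Fin 3) : cn i 0 + cn i 1 + cn i 2 = d := by
  have h := Finset.card_eq_sum_card_fiberwise (f := i) (s := Finset.univ) (t := Finset.univ)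
    (fun _ _ => Finset.mem_coe.2 (Finset.mem_univ _))
  rw [Finset.card_univ, Fintype.card_fin, Fin.sum_univ_three] at h
  exact h.symm

private def ct {d : ℕ} (i : Fin d → Fin 3) : ℤ × ℤ := ((cn i 0 : ℤ), (cn i 1 : ℤ))

private theorem ct_mem {d : ℕ} (i : Fin d → Fin 3) : ct i ∈ Td d := by
  rw [mem_Td]
  have := cn_sum i
  simp only [ct]
  omega

private theorem par_eq {d h : ℕ} (i : Fin d → Fin 3) : par 2 d h i = pw d h (ct i) := by
  have hs := cn_sum i
  unfold par pw
  refine Finset.sum_congr rfl fun j _ => ?_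
  have e2 : ((d : ℤ) - (ct i).1 - (ct i).2).toNat = cn i 2 := by
    simp only [ct]
    omega
  have e0 : (ct i).1.toNat = cn i 0 := Int.toNat_natCast _
  have e1 : (ct i).2.toNat = cn i 1 := Int.toNat_natCast _
  rw [e0, e1, e2]
  have := Finset.prod_fiberwise' (Finset.univ : Finset (Fin d)) i
    (fun x => (X (j, x) : MvPolynomial (Fin h × Fin 3) ℂ))
  rw [Fin.prod_univ_three] at this
  simp only [Finset.prod_const] at this
  exact this.symm

private theorem ct_ex {d : ℕ} {p : ℤ × ℤ} (hp : p ∈ Td d) : ∃ i : Fin d → Fin 3, ct i = p := by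
  rw [mem_Td] at hp
  obtain ⟨a, ha⟩ := Int.eq_ofNat_of_zero_le hp.1
  obtain ⟨b, hb⟩ := Int.eq_ofNat_of_zero_le hp.2.1
  have hab : a + b ≤ d := by omega
  set i : Fin d → Fin 3 := fun t => if t.1 < a then 0 else if t.1 < a + b then 1 else 2 with hi
  have c0 : cn i 0 = a := by
    have e : (Finset.univ.filter fun t => i t = 0) =
        Finset.univ.filter fun t : Fin d => t.1 < a := by
      ext t
      simp only [Finset.mem_filter, Finset.mem_univ, true_and, hi]
      by_cases h1 : t.1 < a
      · simp [h1]
      · by_cases h2 : t.1 < a + b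
        · simp [h1, h2]
        · simp [h1, h2]
    unfold cn
    rw [e, Fin.card_filter_val_lt]
    omega
  have c2 : cn i 2 + (a + b) = d := by
    have e : (Finset.univ.filter fun t => i t = 2) =
        Finset.univ.filter fun t : Fin d => ¬ t.1 < a + b := by
      ext t
      simp only [Finset.mem_filter, Finset.mem_univ, true_and, hi]
      by_cases h1 : t.1 < a
      · have h2 : t.1 < a + b := by omega
        simp [h1, h2]
      · by_cases h2 : t.1 < a + b
        · simp [h1, h2]
        · simp [h1, h2]
    have h3 := Finset.card_filter_add_card_filter_not (s := (Finset.univ : Finset (Fin d)))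
      (fun t : Fin d => t.1 < a + b)
    rw [Fin.card_filter_val_lt, Finset.card_univ, Fintype.card_fin] at h3
    unfold cn
    rw [e]
    omega
  have c1 : cn i 1 = b := by
    have := cn_sum i
    omega
  refine ⟨i, ?_⟩
  ext
  · simp only [ct]
    omega
  · simp only [ct]
    omega

private theorem ct_perm {d : ℕ} (i i' : Fin d → Fin 3) (h : ct i = ct i') :
    ∃ σ : Equiv.Perm (Fin d), ∀ t, i' (σ t) = i t := by
  have h0 : cn i 0 = cn i' 0 := by
    have := congrArg Prod.fst h
    simp only [ct] at this
    omega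
  have h1 : cn i 1 = cn i' 1 := by
    have := congrArg Prod.snd h
    simp only [ct] at this
    omega
  have h2 : cn i 2 = cn i' 2 := by
    have := cn_sum i
    have := cn_sum i'
    omega
  have hc : ∀ x, cn i x = cn i' x := by
    intro x
    fin_cases x
    · exact h0
    · exact h1
    · exact h2
  have he : ∀ x, Nonempty ({t // i t = x} ≃ {t // i' t = x}) := fun x => by
    refine ⟨Fintype.equivOfCardEq ?_⟩
    rw [Fintype.card_subtype, Fintype.card_subtype]
    exact hc x
  exact ⟨Equiv.ofFiberEquiv fun x => (he x).some, fun t => Equiv.ofFiberEquiv_map _ t⟩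

theorem t_AH (h1 : S_BAdm) (h2 : S_AdmI) (h3 : S_Sub) (h4 : S_Tri) : S_AH := by
  classical
  intro d h hd hh hlt
  obtain ⟨hcard, n, s, hB, hns, hs⟩ := h4 d hd
  have hex : ∀ p : {p // p ∈ Td d}, ∃ i : Fin d → Fin 3, ct i = p.1 := fun p => ct_ex p.2
  choose ip hip using hex
  have gen : ∀ A : Finset (ℤ × ℤ), A ⊆ Td d → Adm A h → 3 * (h - 1) < A.card →
      ∃ (m : ℕ) (J : Fin m → (Fin d → Fin 3)), 3 * (h - 1) < m ∧
        AlgebraicIndependent ℂ (fun j => par 2 d h (J j)) := by
    intro A hA hAdm hc
    have hI := h2 d h A (by omega) hA hAdm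
    let e := A.equivFin
    refine ⟨A.card, fun j => ip ⟨(e.symm j).1, hA (e.symm j).2⟩, hc, ?_⟩
    have h5 := hI.comp e.symm e.symm.injective
    have heq : (fun j => par 2 d h (ip ⟨(e.symm j).1, hA (e.symm j).2⟩)) =
        (fun p : {p // p ∈ A} => pw d h p.1) ∘ e.symm := by
      funext j
      rw [par_eq, hip]
      rfl
    rw [heq]
    exact h5
  refine ⟨?_, fun hle P hP T hT => ?_⟩
  · by_cases hn : h ≤ n
    · obtain ⟨B, hBs, hBc, hBB⟩ := h3 (Td d) n s h hB hn
      exact gen B hBs (h1 B h 0 hBB) (by omega)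
    · have hh' : h = n + s := by omega
      have hA : Adm (Td d) h := by
        rw [hh']
        exact h1 _ _ _ hB
      exact gen (Td d) (Finset.Subset.refl _) hA (by rw [hcard]; exact hlt)
  · have hh' : h = n + s := by omega
    have hA : Adm (Td d) h := by
      rw [hh']
      exact h1 _ _ _ hB
    have hI := h2 d h (Td d) (by omega) (Finset.Subset.refl _) hA
    set cP : (Fin d → Fin 3) → {p // p ∈ Td d} := fun i => ⟨ct i, ct_mem i⟩ with hcP
    have e1 : aeval (fun p : {p // p ∈ Td d} => pw d h p.1) (rename cP P) = 0 := by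
      rw [aeval_rename]
      have : (fun p : {p // p ∈ Td d} => pw d h p.1) ∘ cP = par 2 d h := by
        funext i
        exact (par_eq i).symm
      rw [this]
      exact hP
    have e2 : rename cP P = 0 := algebraicIndependent_iff.1 hI _ e1
    have e3 : T = (fun p => T (ip p)) ∘ cP := by
      funext i
      obtain ⟨σ, hσ⟩ := ct_perm i (ip (cP i)) (hip (cP i)).symm
      have h5 := hT σ (ip (cP i))
      have h6 : (fun t => ip (cP i) (σ t)) = i := funext hσ
      rw [h6] at h5
      exact h5
    rw [e3, ← eval_rename, e2, map_zero]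

end Pool.Agent.Lib.MP_d01072_ag.Tf
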