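import Pool.Agent.Lib.MP_d01072_ag.Tf.Spec

/-!
MP_d01072_ag, package Tf: relative algebraic closures.
-/

set_option autoImplicit false

namespace Pool.Agent.Lib.MP_d01072_ag.Tf

open MvPolynomial

private theorem aclMem {k K : Type} [Field k] [Field K] [Algebra k K] {S : Set K} {x : K} :
    x ∈ Cl k S ↔ IsIntegral (IntermediateField.adjoin k S) x := Iff.rfl

private theorem aclAdj {k K : Type} [Field k] [Field K] [Algebra k K] {S : Set K} {x : K}
    (h : x ∈ IntermediateField.adjoin k S) : x ∈ Cl k S :=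
  aclMem.2 (isIntegral_algebraMap (x := (⟨x, h⟩ : IntermediateField.adjoin k S)))

private theorem aclRoot {k K : Type} [Field k] [Field K] [Algebra k K] {S : Set K}
    (f : Polynomial K) (x : K) (hf : f ≠ 0) (hc : ∀ i, f.coeff i ∈ Cl k S) (hx : f.eval x = 0) :
    x ∈ Cl k S := by
  let E := IntermediateField.adjoin k S
  let L := algebraicClosure E K
  have h1 : f ∈ Polynomial.lifts (algebraMap L K) := by
    rw [Polynomial.lifts_iff_coeff_lifts]
    intro i
    exact ⟨⟨f.coeff i, hc i⟩, rfl⟩
  obtain ⟨g, hg⟩ := (Polynomial.mem_lifts f).1 h1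
  have h2 : IsAlgebraic L x := by
    refine ⟨g, ?_, ?_⟩
    · rintro rfl
      apply hf
      rw [← hg, Polynomial.map_zero]
    · rw [← Polynomial.eval_map_algebraMap, hg, hx]
  exact aclMem.2 (isIntegral_trans (R := E) (A := L) x h2.isIntegral)

theorem t_Acl : S_Acl := by
  intro k K _ _ _ S T
  refine ⟨fun x hx => aclAdj (IntermediateField.subset_adjoin k S hx), ?_,
    fun z => aclAdj (IntermediateField.algebraMap_mem _ z), aclRoot⟩
  intro hST x hx
  let M : IntermediateField k K :=
    (Cl k T).toIntermediateField fun z => aclAdj (IntermediateField.algebraMap_mem _ z)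
  have h1 : IntermediateField.adjoin k S ≤ M := IntermediateField.adjoin_le_iff.2 hST
  obtain ⟨p, hp, hpx⟩ := aclMem.1 hx
  refine aclRoot (p.map (algebraMap _ K)) x (hp.map _).ne_zero (fun i => ?_) ?_
  · rw [Polynomial.coeff_map]
    exact h1 (p.coeff i).2
  · rw [Polynomial.eval_map]
    exact hpx

end Pool.Agent.Lib.MP_d01072_ag.Tf
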