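import Pool.Agent.Lib.MP_d01072_ag.Tf.Spec

/-!
MP_d01072_ag, package Tf, module AdmI: algebraic independence from weights.
-/

set_option autoImplicit false

namespace Pool.Agent.Lib.MP_d01072_ag.Tf

open MvPolynomial

/-- `F` has the monomial `g` of weight `v` with coefficient `1`; the others have larger weights -/
private structure LeadAt {σ : Type} (wt : (σ →₀ ℕ) →+ ℤ) (F : MvPolynomial σ ℂ) (v : ℤ)
    (g : σ →₀ ℕ) : Prop where
  c : coeff g F = 1
  w : wt g = v
  o : ∀ s, coeff s F ≠ 0 → s = g ∨ v < wt s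

private theorem leadMul {σ : Type} {wt : (σ →₀ ℕ) →+ ℤ} {F F' : MvPolynomial σ ℂ} {v v' : ℤ}
    {g g' : σ →₀ ℕ} (h : LeadAt wt F v g) (h' : LeadAt wt F' v' g') :
    LeadAt wt (F * F') (v + v') (g + g') := by
  classical
  refine ⟨?_, ?_, ?_⟩
  · rw [coeff_mul, Finset.sum_eq_single (g, g')]
    · rw [h.c, h'.c, mul_one]
    · rintro ⟨a, b⟩ hab hne
      rw [Finset.HasAntidiagonal.mem_antidiagonal] at hab
      by_contra hc
      have ha : coeff a F ≠ 0 := left_ne_zero_of_mul hc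
      have hb : coeff b F' ≠ 0 := right_ne_zero_of_mul hc
      have hw : wt a + wt b = v + v' := by
        rw [← map_add]
        simp only at hab
        rw [hab, map_add, h.w, h'.w]
      rcases h.o a ha with h1 | h1
      · rcases h'.o b hb with h2 | h2
        · exact hne (by rw [h1, h2])
        · rw [h1, h.w] at hw
          linarith
      · rcases h'.o b hb with h2 | h2
        · rw [h2, h'.w] at hw
          linarith
        · linarith
    · intro hn
      exfalso
      apply hn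
      rw [Finset.HasAntidiagonal.mem_antidiagonal]
  · rw [map_add, h.w, h'.w]
  · intro s hs
    rw [coeff_mul] at hs
    obtain ⟨⟨a, b⟩, hab, hne⟩ := Finset.exists_ne_zero_of_sum_ne_zero hs
    rw [Finset.HasAntidiagonal.mem_antidiagonal] at hab
    simp only at hab
    have ha := left_ne_zero_of_mul hne
    have hb := right_ne_zero_of_mul hne
    have hw : wt s = wt a + wt b := by rw [← map_add, hab]
    rcases h.o a ha with h1 | h1
    · rcases h'.o b hb with h2 | h2
      · left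
        rw [← hab, h1, h2]
      · right
        rw [hw, h1, h.w]
        linarith
    · rcases h'.o b hb with h2 | h2
      · right
        rw [hw, h2, h'.w]
        linarith
      · right
        rw [hw]
        linarith

private theorem leadOne {σ : Type} (wt : (σ →₀ ℕ) →+ ℤ) : LeadAt wt 1 0 0 := by
  classical
  refine ⟨coeff_zero_one, map_zero wt, ?_⟩
  intro s hs
  left
  by_contra h
  apply hs
  rw [coeff_one, if_neg (Ne.symm h)]

private theorem leadPow {σ : Type} {wt : (σ →₀ ℕ) →+ ℤ} {F : MvPolynomial σ ℂ} {v : ℤ}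
    {g : σ →₀ ℕ} (h : LeadAt wt F v g) (n : ℕ) : LeadAt wt (F ^ n) (n * v) (n • g) := by
  induction n with
  | zero =>
    have := leadOne wt
    simpa using this
  | succ n ih =>
    have h1 := leadMul ih h
    rw [← pow_succ, ← succ_nsmul] at h1
    have h2 : (n : ℤ) * v + v = ((n + 1 : ℕ) : ℤ) * v := by
      push_cast
      ring
    rw [h2] at h1
    exact h1

private theorem leadProd {σ ι : Type} {wt : (σ →₀ ℕ) →+ ℤ} (F : ι → MvPolynomial σ ℂ)
    (v : ι → ℤ) (g : ι → (σ →₀ ℕ)) (h : ∀ p, LeadAt wt (F p) (v p) (g p)) (S : Finset ι) :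
    LeadAt wt (∏ p ∈ S, F p) (∑ p ∈ S, v p) (∑ p ∈ S, g p) := by
  classical
  induction S using Finset.induction_on with
  | empty =>
    rw [Finset.prod_empty, Finset.sum_empty, Finset.sum_empty]
    exact leadOne wt
  | insert a S ha ih =>
    rw [Finset.prod_insert ha, Finset.sum_insert ha, Finset.sum_insert ha]
    exact leadMul (h a) ih

/-- independence of polynomials with leading monomials that are independent -/
private theorem leadIndep {σ ι : Type} [Fintype ι] {wt : (σ →₀ ℕ) →+ ℤ}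
    (F : ι → MvPolynomial σ ℂ) (v : ι → ℤ) (g : ι → (σ →₀ ℕ))
    (h : ∀ p, LeadAt wt (F p) (v p) (g p))
    (hg : ∀ m m' : ι →₀ ℕ, ∑ p, m p • g p = ∑ p, m' p • g p → m = m') :
    AlgebraicIndependent ℂ F := by
  classical
  rw [algebraicIndependent_iff]
  intro P hP
  by_contra hne
  have hL : ∀ m : ι →₀ ℕ, LeadAt wt (∏ p, F p ^ m p) (∑ p, (m p : ℤ) * v p) (∑ p, m p • g p) :=
    fun m => leadProd (fun p => F p ^ m p) _ _ (fun p => leadPow (h p) (m p)) Finset.univ
  have hs : P.support.Nonempty := by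
    rw [Finset.nonempty_iff_ne_empty]
    intro h0
    exact hne (support_eq_empty.1 h0)
  obtain ⟨m0, hm0, hmin⟩ := Finset.exists_min_image P.support
    (fun m : ι →₀ ℕ => ∑ p, (m p : ℤ) * v p) hs
  have h1 : coeff (∑ p, m0 p • g p) (aeval F P) = coeff m0 P := by
    rw [aeval_def, eval₂_eq', coeff_sum, Finset.sum_eq_single m0]
    · rw [algebraMap_eq, coeff_C_mul, (hL m0).c, mul_one]
    · intro m hm hmm
      rw [algebraMap_eq, coeff_C_mul]
      by_contra hc
      have hc' := right_ne_zero_of_mul hc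
      rcases (hL m).o _ hc' with h2 | h2
      · exact hmm (hg m m0 h2.symm)
      · rw [(hL m0).w] at h2
        exact absurd (hmin m hm) (not_le.2 h2)
    · intro hn
      exact absurd hm0 hn
  rw [hP, coeff_zero] at h1
  exact (mem_support_iff.1 hm0) h1.symm

/-- the exponent of the monomial of `p` in the variables `(j, .)` -/
private noncomputable def gx (d : ℕ) {N : ℕ} (j : Fin N) (p : ℤ × ℤ) : (Fin N × Fin 3) →₀ ℕ :=
  Finsupp.single (j, 0) p.1.toNat + Finsupp.single (j, 1) p.2.toNat +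
    Finsupp.single (j, 2) ((d : ℤ) - p.1 - p.2).toNat

private theorem pw_eq (d N : ℕ) (p : ℤ × ℤ) :
    pw d N p = ∑ j : Fin N, monomial (gx d j p) (1 : ℂ) := by
  unfold pw gx
  refine Finset.sum_congr rfl fun j _ => ?_
  rw [X_pow_eq_monomial, X_pow_eq_monomial, X_pow_eq_monomial, monomial_mul, monomial_mul,
    one_mul, one_mul]

/-- the weights -/
private def ug (d : ℕ) {N : ℕ} (w : Fin N → ℤ × ℤ × ℤ) (k : Fin N × Fin 3) : ℤ :=
  if k.2 = 0 then d * (w k.1).1 + (w k.1).2.2 else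
    if k.2 = 1 then d * (w k.1).2.1 + (w k.1).2.2 else (w k.1).2.2

/-- the weight of a monomial -/
private noncomputable def wg (d : ℕ) {N : ℕ} (w : Fin N → ℤ × ℤ × ℤ) :
    ((Fin N × Fin 3) →₀ ℕ) →+ ℤ :=
  Finsupp.liftAddHom fun k => (AddMonoidHom.mulRight (ug d w k)).comp (Nat.castAddMonoidHom ℤ)

private theorem wg_single (d : ℕ) {N : ℕ} (w : Fin N → ℤ × ℤ × ℤ) (k : Fin N × Fin 3) (n : ℕ) :
    wg d w (Finsupp.single k n) = n * ug d w k := by
  unfold wg
  rw [Finsupp.liftAddHom_apply_single]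
  rfl

private theorem wg_gx (d : ℕ) {N : ℕ} (w : Fin N → ℤ × ℤ × ℤ) (j : Fin N) {p : ℤ × ℤ}
    (hp : p ∈ Td d) : wg d w (gx d j p) = d * af (w j) p := by
  obtain ⟨h1, h2, h3⟩ := mem_Td.1 hp
  unfold gx
  rw [map_add, map_add, wg_single, wg_single, wg_single]
  rw [Int.toNat_of_nonneg h1, Int.toNat_of_nonneg h2, Int.toNat_of_nonneg (by omega)]
  have e0 : ug d w (j, 0) = d * (w j).1 + (w j).2.2 := if_pos rfl
  have e1 : ug d w (j, 1) = d * (w j).2.1 + (w j).2.2 := rfl
  have e2 : ug d w (j, 2) = (w j).2.2 := rfl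
  rw [e0, e1, e2]
  unfold af
  ring

private theorem leadPw (d : ℕ) {N : ℕ} (hd : 1 ≤ d) (w : Fin N → ℤ × ℤ × ℤ) (i : Fin N)
    {p : ℤ × ℤ} (hp : p ∈ Td d) (hw : ∀ j, i ≠ j → af (w i) p < af (w j) p) :
    LeadAt (wg d w) (pw d N p) (d * af (w i) p) (gx d i p) := by
  classical
  have hd' : (0 : ℤ) < d := by exact_mod_cast hd
  have hlt : ∀ j, i ≠ j → (d : ℤ) * af (w i) p < wg d w (gx d j p) := by
    intro j hj
    rw [wg_gx d w j hp]
    exact mul_lt_mul_of_pos_left (hw j hj) hd'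
  have hcf : ∀ s, coeff s (pw d N p) = ∑ j : Fin N, if gx d j p = s then (1 : ℂ) else 0 := by
    intro s
    rw [pw_eq, coeff_sum]
    exact Finset.sum_congr rfl fun j _ => coeff_monomial _ _ _
  refine ⟨?_, wg_gx d w i hp, ?_⟩
  · rw [hcf, Finset.sum_eq_single i]
    · rw [if_pos rfl]
    · intro j _ hj
      rw [if_neg]
      intro he
      have h1 := hlt j (Ne.symm hj)
      rw [he, wg_gx d w i hp] at h1
      exact lt_irrefl _ h1
    · intro hn
      exact absurd (Finset.mem_univ i) hn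
  · intro s hs
    rw [hcf] at hs
    obtain ⟨j, _, hj⟩ := Finset.exists_ne_zero_of_sum_ne_zero hs
    have he : gx d j p = s := by
      by_contra h
      rw [if_neg h] at hj
      exact hj rfl
    by_cases hij : i = j
    · left
      rw [hij, he]
    · right
      rw [← he]
      exact hlt j hij

private theorem gx_apply (d : ℕ) {N : ℕ} (j i : Fin N) (p : ℤ × ℤ) :
    gx d j p (i, 0) = (if j = i then p.1.toNat else 0) ∧
      gx d j p (i, 1) = (if j = i then p.2.toNat else 0) ∧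
      gx d j p (i, 2) = (if j = i then ((d : ℤ) - p.1 - p.2).toNat else 0) := by
  unfold gx
  simp only [Finsupp.add_apply, Finsupp.single_apply, Prod.mk.injEq]
  refine ⟨?_, ?_, ?_⟩
  · by_cases h : j = i <;> simp [h]
  · by_cases h : j = i <;> simp [h]
  · by_cases h : j = i <;> simp [h]

/-- the arithmetic of one cell -/
private theorem cellTriple (d : ℕ) (hd : 1 ≤ d) (x1 y1 x2 y2 x3 y3 n1 n2 n3 : ℤ)
    (hdt : dt (x1, y1) (x2, y2) (x3, y3) ≠ 0) (e0 : n1 * x1 + n2 * x2 + n3 * x3 = 0)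
    (e1 : n1 * y1 + n2 * y2 + n3 * y3 = 0)
    (e2 : n1 * (d - x1 - y1) + n2 * (d - x2 - y2) + n3 * (d - x3 - y3) = 0) :
    n1 = 0 ∧ n2 = 0 ∧ n3 = 0 := by
  have hd' : (d : ℤ) ≠ 0 := by
    have : (0 : ℤ) < d := by exact_mod_cast hd
    exact this.ne'
  have hs : n1 + n2 + n3 = 0 := by
    have h1 : (d : ℤ) * (n1 + n2 + n3) = 0 := by linear_combination e0 + e1 + e2
    exact (mul_eq_zero.1 h1).resolve_left hd'
  unfold dt at hdt
  simp only at hdt
  have h2 : n2 = 0 := by
    have h1 : n2 * ((x2 - x1) * (y3 - y1) - (x3 - x1) * (y2 - y1)) = 0 := by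
      linear_combination (y3 - y1) * (e0 - x1 * hs) - (x3 - x1) * (e1 - y1 * hs)
    exact (mul_eq_zero.1 h1).resolve_right hdt
  have h3 : n3 = 0 := by
    have h1 : n3 * ((x2 - x1) * (y3 - y1) - (x3 - x1) * (y2 - y1)) = 0 := by
      linear_combination (x2 - x1) * (e1 - y1 * hs) - (y2 - y1) * (e0 - x1 * hs)
    exact (mul_eq_zero.1 h1).resolve_right hdt
  refine ⟨?_, h2, h3⟩
  rw [h2, h3] at hs
  linarith

private theorem dt_ne {p q r : ℤ × ℤ} (h : dt p q r ≠ 0) : p ≠ q ∧ p ≠ r ∧ q ≠ r := by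
  refine ⟨?_, ?_, ?_⟩
  · rintro rfl
    apply h
    unfold dt
    ring
  · rintro rfl
    apply h
    unfold dt
    ring
  · rintro rfl
    apply h
    unfold dt
    ring

theorem t_AdmI : S_AdmI := by
  classical
  intro d N A hd hA hAdm
  obtain ⟨Z, w, hcell, hZ, hw⟩ := hAdm
  have hex : ∀ p : {p // p ∈ A}, ∃ i, p.1 ∈ Z i := fun p => (hZ p.1).1 p.2
  choose ix hix using hex
  have huniq : ∀ (p : {p // p ∈ A}) (j : Fin N), p.1 ∈ Z j → ix p = j := by
    intro p j hj
    by_contra hne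
    exact lt_asymm (hw (ix p) j hne p.1 (hix p)) (hw j (ix p) (Ne.symm hne) p.1 hj)
  refine leadIndep (wt := wg d w) (fun p : {p // p ∈ A} => pw d N p.1)
    (fun p => d * af (w (ix p)) p.1) (fun p => gx d (ix p) p.1)
    (fun p => leadPw d hd w (ix p) (hA p.2) fun j hj => hw (ix p) j hj p.1 (hix p)) ?_
  intro m m' hmm
  -- the equations of the cell `i`
  have hsum : ∀ (m : {p // p ∈ A} →₀ ℕ) (i : Fin N) (k : Fin 3) (c : ℤ × ℤ → ℕ),
      (∀ (j : Fin N) (p : ℤ × ℤ), gx d j p (i, k) = if j = i then c p else 0) →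
      (∑ p : {p // p ∈ A}, m p • gx d (ix p) p.1) (i, k) =
        ∑ p ∈ Finset.univ.filter (fun p => ix p = i), m p * c p.1 := by
    intro m i k c hc
    rw [Finsupp.finsetSum_apply, Finset.sum_filter]
    refine Finset.sum_congr rfl fun p _ => ?_
    rw [Finsupp.smul_apply, hc, smul_eq_mul]
    split_ifs with h
    · rfl
    · rw [mul_zero]
  have key : ∀ i : Fin N, ∀ p : {p // p ∈ A}, ix p = i → m p = m' p := by
    intro i
    have E0 := congrArg (fun f : (Fin N × Fin 3) →₀ ℕ => f (i, 0)) hmm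
    have E1 := congrArg (fun f : (Fin N × Fin 3) →₀ ℕ => f (i, 1)) hmm
    have E2 := congrArg (fun f : (Fin N × Fin 3) →₀ ℕ => f (i, 2)) hmm
    beta_reduce at E0 E1 E2
    rw [hsum m i 0 (fun p => p.1.toNat) (fun j p => (gx_apply d j i p).1),
      hsum m' i 0 (fun p => p.1.toNat) (fun j p => (gx_apply d j i p).1)] at E0
    rw [hsum m i 1 (fun p => p.2.toNat) (fun j p => (gx_apply d j i p).2.1),
      hsum m' i 1 (fun p => p.2.toNat) (fun j p => (gx_apply d j i p).2.1)] at E1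
    rw [hsum m i 2 (fun p => ((d : ℤ) - p.1 - p.2).toNat) (fun j p => (gx_apply d j i p).2.2),
      hsum m' i 2 (fun p => ((d : ℤ) - p.1 - p.2).toNat)
        (fun j p => (gx_apply d j i p).2.2)] at E2
    have hcoord : ∀ p : {p // p ∈ A}, ((p.1.1.toNat : ℕ) : ℤ) = p.1.1 ∧
        ((p.1.2.toNat : ℕ) : ℤ) = p.1.2 ∧
        ((((d : ℤ) - p.1.1 - p.1.2).toNat : ℕ) : ℤ) = (d : ℤ) - p.1.1 - p.1.2 := by
      intro p
      obtain ⟨h1, h2, h3⟩ := mem_Td.1 (hA p.2)
      exact ⟨Int.toNat_of_nonneg h1, Int.toNat_of_nonneg h2, Int.toNat_of_nonneg (by omega)⟩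
    rcases hcell i with ⟨a, ha⟩ | ⟨a, b, c, habc, ha⟩
    · -- a single point
      have hmem : a ∈ Z i := by rw [ha]; exact Finset.mem_singleton_self a
      have hAa : a ∈ A := (hZ a).2 ⟨i, hmem⟩
      have hf : Finset.univ.filter (fun p => ix p = i) = {(⟨a, hAa⟩ : {p // p ∈ A})} := by
        ext p
        rw [Finset.mem_filter, Finset.mem_singleton]
        constructor
        · rintro ⟨_, hp⟩
          have h1 := hix p
          rw [hp, ha, Finset.mem_singleton] at h1
          exact Subtype.ext h1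
        · rintro rfl
          exact ⟨Finset.mem_univ _, huniq _ i hmem⟩
      rw [hf, Finset.sum_singleton, Finset.sum_singleton] at E0 E1 E2
      have hm : m ⟨a, hAa⟩ = m' ⟨a, hAa⟩ := by
        obtain ⟨c0, c1, c2⟩ := hcoord ⟨a, hAa⟩
        simp only at c0 c1 c2
        have F0 : (m ⟨a, hAa⟩ : ℤ) * a.1 = m' ⟨a, hAa⟩ * a.1 := by
          rw [← c0]; exact_mod_cast E0
        have F1 : (m ⟨a, hAa⟩ : ℤ) * a.2 = m' ⟨a, hAa⟩ * a.2 := by
          rw [← c1]; exact_mod_cast E1
        have F2 : (m ⟨a, hAa⟩ : ℤ) * ((d : ℤ) - a.1 - a.2) =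
            m' ⟨a, hAa⟩ * ((d : ℤ) - a.1 - a.2) := by
          rw [← c2]; exact_mod_cast E2
        have hd' : (d : ℤ) ≠ 0 := by
          have : (0 : ℤ) < d := by exact_mod_cast hd
          exact this.ne'
        have h1 : (m ⟨a, hAa⟩ : ℤ) * d = m' ⟨a, hAa⟩ * d := by
          linear_combination F0 + F1 + F2
        exact_mod_cast mul_right_cancel₀ hd' h1
      intro p hp
      have hp' : p ∈ Finset.univ.filter (fun p => ix p = i) :=
        Finset.mem_filter.2 ⟨Finset.mem_univ _, hp⟩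
      rw [hf, Finset.mem_singleton] at hp'
      rw [hp', hm]
    · -- a triangle
      have hma : a ∈ Z i := by rw [ha]; simp
      have hmb : b ∈ Z i := by rw [ha]; simp
      have hmc : c ∈ Z i := by rw [ha]; simp
      have hAa : a ∈ A := (hZ a).2 ⟨i, hma⟩
      have hAb : b ∈ A := (hZ b).2 ⟨i, hmb⟩
      have hAc : c ∈ A := (hZ c).2 ⟨i, hmc⟩
      obtain ⟨nab, nac, nbc⟩ := dt_ne habc
      have hf : Finset.univ.filter (fun p => ix p = i) =
          {(⟨a, hAa⟩ : {p // p ∈ A}), ⟨b, hAb⟩, ⟨c, hAc⟩} := by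
        ext p
        rw [Finset.mem_filter, Finset.mem_insert, Finset.mem_insert, Finset.mem_singleton]
        constructor
        · rintro ⟨_, hp⟩
          have h1 := hix p
          rw [hp, ha, Finset.mem_insert, Finset.mem_insert, Finset.mem_singleton] at h1
          rcases h1 with h | h | h
          · exact Or.inl (Subtype.ext h)
          · exact Or.inr (Or.inl (Subtype.ext h))
          · exact Or.inr (Or.inr (Subtype.ext h))
        · rintro (rfl | rfl | rfl)
          · exact ⟨Finset.mem_univ _, huniq _ i hma⟩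
          · exact ⟨Finset.mem_univ _, huniq _ i hmb⟩
          · exact ⟨Finset.mem_univ _, huniq _ i hmc⟩
      have n1 : (⟨a, hAa⟩ : {p // p ∈ A}) ∉
          ({(⟨b, hAb⟩ : {p // p ∈ A}), ⟨c, hAc⟩} : Finset {p // p ∈ A}) := by
        rw [Finset.mem_insert, Finset.mem_singleton]
        rintro (h | h)
        · exact nab (congrArg Subtype.val h)
        · exact nac (congrArg Subtype.val h)
      have n2 : (⟨b, hAb⟩ : {p // p ∈ A}) ∉ ({(⟨c, hAc⟩ : {p // p ∈ A})} : Finset {p // p ∈ A}) := by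
        rw [Finset.mem_singleton]
        intro h
        exact nbc (congrArg Subtype.val h)
      rw [hf, Finset.sum_insert n1, Finset.sum_insert n2, Finset.sum_singleton,
        Finset.sum_insert n1, Finset.sum_insert n2, Finset.sum_singleton] at E0 E1 E2
      obtain ⟨a0, a1, a2⟩ := hcoord ⟨a, hAa⟩
      obtain ⟨b0, b1, b2⟩ := hcoord ⟨b, hAb⟩
      obtain ⟨c0, c1, c2⟩ := hcoord ⟨c, hAc⟩
      simp only at a0 a1 a2 b0 b1 b2 c0 c1 c2
      have F0 : (m ⟨a, hAa⟩ : ℤ) * a.1 + (m ⟨b, hAb⟩ * b.1 + m ⟨c, hAc⟩ * c.1) =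
          m' ⟨a, hAa⟩ * a.1 + (m' ⟨b, hAb⟩ * b.1 + m' ⟨c, hAc⟩ * c.1) := by
        rw [← a0, ← b0, ← c0]; exact_mod_cast E0
      have F1 : (m ⟨a, hAa⟩ : ℤ) * a.2 + (m ⟨b, hAb⟩ * b.2 + m ⟨c, hAc⟩ * c.2) =
          m' ⟨a, hAa⟩ * a.2 + (m' ⟨b, hAb⟩ * b.2 + m' ⟨c, hAc⟩ * c.2) := by
        rw [← a1, ← b1, ← c1]; exact_mod_cast E1
      have F2 : (m ⟨a, hAa⟩ : ℤ) * ((d : ℤ) - a.1 - a.2) + (m ⟨b, hAb⟩ * ((d : ℤ) - b.1 - b.2) +
          m ⟨c, hAc⟩ * ((d : ℤ) - c.1 - c.2)) =
          m' ⟨a, hAa⟩ * ((d : ℤ) - a.1 - a.2) + (m' ⟨b, hAb⟩ * ((d : ℤ) - b.1 - b.2) +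
            m' ⟨c, hAc⟩ * ((d : ℤ) - c.1 - c.2)) := by
        rw [← a2, ← b2, ← c2]; exact_mod_cast E2
      obtain ⟨k1, k2, k3⟩ := cellTriple d hd a.1 a.2 b.1 b.2 c.1 c.2
        ((m ⟨a, hAa⟩ : ℤ) - m' ⟨a, hAa⟩) ((m ⟨b, hAb⟩ : ℤ) - m' ⟨b, hAb⟩)
        ((m ⟨c, hAc⟩ : ℤ) - m' ⟨c, hAc⟩) habc (by linear_combination F0)
        (by linear_combination F1) (by linear_combination F2)
      intro p hp
      have hp' : p ∈ Finset.univ.filter (fun p => ix p = i) :=
        Finset.mem_filter.2 ⟨Finset.mem_univ _, hp⟩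
      rw [hf, Finset.mem_insert, Finset.mem_insert, Finset.mem_singleton] at hp'
      rcases hp' with h | h | h
      · rw [h]
        exact_mod_cast sub_eq_zero.1 k1
      · rw [h]
        exact_mod_cast sub_eq_zero.1 k2
      · rw [h]
        exact_mod_cast sub_eq_zero.1 k3
  exact Finsupp.ext fun p => key (ix p) p rfl

end Pool.Agent.Lib.MP_d01072_ag.Tf
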