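import Pool.Agent.Lib.MP_d01072_ag.Tf.Spec

/-!
MP_d01072_ag, package Tf: three explicit partitions.
-/

set_option autoImplicit false
set_option maxRecDepth 100000

namespace Pool.Agent.Lib.MP_d01072_ag.Tf

open MvPolynomial

private theorem cutTri (p q r : ℤ × ℤ) (w : ℤ × ℤ × ℤ) {B : Finset (ℤ × ℤ)} {n s : ℕ}
    (hd : dt p q r ≠ 0) (hA : af w p < 0 ∧ af w q < 0 ∧ af w r < 0) (hB : ∀ x ∈ B, 0 < af w x)
    (h : Bsp B n s) : Bsp (insert p (insert q (insert r B))) (n + 1) s := by
  have h1 := Bsp.cut {p, q, r} B 1 0 n s w (by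
    intro x hx
    rw [Finset.mem_insert, Finset.mem_insert, Finset.mem_singleton] at hx
    rcases hx with rfl | rfl | rfl
    · exact hA.1
    · exact hA.2.1
    · exact hA.2.2) hB (Bsp.tri p q r hd) h
  rw [Finset.insert_union, Finset.insert_union, Finset.singleton_union, add_comm 1 n,
    zero_add] at h1
  exact h1

private theorem cutSing (p : ℤ × ℤ) (w : ℤ × ℤ × ℤ) {B : Finset (ℤ × ℤ)} {n s : ℕ}
    (hA : af w p < 0) (hB : ∀ x ∈ B, 0 < af w x) (h : Bsp B n s) :
    Bsp (insert p B) n (s + 1) := by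
  have h1 := Bsp.cut {p} B 0 1 n s w (by
    intro x hx
    rw [Finset.mem_singleton] at hx
    rw [hx]
    exact hA) hB (Bsp.sing p) h
  rw [Finset.singleton_union, add_comm 1 s, zero_add] at h1
  exact h1

/-- the points which remain -/
private def sA_6 : Finset (ℤ × ℤ) := {(2, 2), (3, 2), (2, 3)}

/-- the points which remain -/
private def sA_5 : Finset (ℤ × ℤ) := insert (1, 0) (insert (1, 1) (insert (2, 1) sA_6))

/-- the points which remain -/
private def sA_4 : Finset (ℤ × ℤ) := insert (0, 0) (insert (0, 1) (insert (1, 2) sA_5))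

/-- the points which remain -/
private def sA_3 : Finset (ℤ × ℤ) := insert (0, 2) (insert (0, 3) (insert (1, 3) sA_4))

/-- the points which remain -/
private def sA_2 : Finset (ℤ × ℤ) := insert (2, 0) (insert (3, 0) (insert (3, 1) sA_3))

/-- the points which remain -/
private def sA_1 : Finset (ℤ × ℤ) := insert (4, 0) (insert (5, 0) (insert (4, 1) sA_2))

/-- the points which remain -/
private def sA_0 : Finset (ℤ × ℤ) := insert (0, 4) (insert (1, 4) (insert (0, 5) sA_1))

private theorem tA_6 : Bsp sA_6 1 0 :=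
  Bsp.tri (2, 2) (3, 2) (2, 3) (by decide)

private theorem tA_5 : Bsp sA_5 2 0 :=
  cutTri (1, 0) (1, 1) (2, 1) (0, 2, -3) (by decide) (by decide) (by decide) tA_6

private theorem tA_4 : Bsp sA_4 3 0 :=
  cutTri (0, 0) (0, 1) (1, 2) (4, -2, -1) (by decide) (by decide) (by decide) tA_5

private theorem tA_3 : Bsp sA_3 4 0 :=
  cutTri (0, 2) (0, 3) (1, 3) (2, -2, 3) (by decide) (by decide) (by decide) tA_4

private theorem tA_2 : Bsp sA_2 5 0 :=
  cutTri (2, 0) (3, 0) (3, 1) (-2, 2, 3) (by decide) (by decide) (by decide) tA_3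

private theorem tA_1 : Bsp sA_1 6 0 :=
  cutTri (4, 0) (5, 0) (4, 1) (-4, 2, 13) (by decide) (by decide) (by decide) tA_2

private theorem tA_0 : Bsp sA_0 7 0 :=
  cutTri (0, 4) (1, 4) (0, 5) (0, -2, 7) (by decide) (by decide) (by decide) tA_1

/-- the points which remain -/
private def sB_9 : Finset (ℤ × ℤ) := {(2, 3), (3, 3), (2, 4)}

/-- the points which remain -/
private def sB_8 : Finset (ℤ × ℤ) := insert (0, 2) (insert (1, 2) (insert (1, 3) sB_9))

/-- the points which remain -/
private def sB_7 : Finset (ℤ × ℤ) := insert (0, 3) (insert (0, 4) (insert (1, 4) sB_8))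

/-- the points which remain -/
private def sB_6 : Finset (ℤ × ℤ) := insert (0, 5) (insert (1, 5) (insert (0, 6) sB_7))

/-- the points which remain -/
private def sB_5 : Finset (ℤ × ℤ) := insert (0, 1) (insert (1, 1) (insert (2, 2) sB_6))

/-- the points which remain -/
private def sB_4 : Finset (ℤ × ℤ) := insert (0, 0) (insert (1, 0) (insert (2, 1) sB_5))

/-- the points which remain -/
private def sB_3 : Finset (ℤ × ℤ) := insert (2, 0) (insert (3, 1) (insert (3, 2) sB_4))

/-- the points which remain -/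
private def sB_2 : Finset (ℤ × ℤ) := insert (3, 0) (insert (4, 1) (insert (4, 2) sB_3))

/-- the points which remain -/
private def sB_1 : Finset (ℤ × ℤ) := insert (4, 0) (insert (5, 0) (insert (5, 1) sB_2))

/-- the points which remain -/
private def sB_0 : Finset (ℤ × ℤ) := insert (6, 0) sB_1

private theorem tB_9 : Bsp sB_9 1 0 :=
  Bsp.tri (2, 3) (3, 3) (2, 4) (by decide)

private theorem tB_8 : Bsp sB_8 2 0 :=
  cutTri (0, 2) (1, 2) (1, 3) (2, 0, -3) (by decide) (by decide) (by decide) tB_9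

private theorem tB_7 : Bsp sB_7 3 0 :=
  cutTri (0, 3) (0, 4) (1, 4) (2, -2, 5) (by decide) (by decide) (by decide) tB_8

private theorem tB_6 : Bsp sB_6 4 0 :=
  cutTri (0, 5) (1, 5) (0, 6) (2, -4, 17) (by decide) (by decide) (by decide) tB_7

private theorem tB_5 : Bsp sB_5 5 0 :=
  cutTri (0, 1) (1, 1) (2, 2) (-2, 4, -5) (by decide) (by decide) (by decide) tB_6

private theorem tB_4 : Bsp sB_4 6 0 :=
  cutTri (0, 0) (1, 0) (2, 1) (-2, 4, -1) (by decide) (by decide) (by decide) tB_5

private theorem tB_3 : Bsp sB_3 7 0 :=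
  cutTri (2, 0) (3, 1) (3, 2) (-4, 2, 7) (by decide) (by decide) (by decide) tB_4

private theorem tB_2 : Bsp sB_2 8 0 :=
  cutTri (3, 0) (4, 1) (4, 2) (-4, 2, 11) (by decide) (by decide) (by decide) tB_3

private theorem tB_1 : Bsp sB_1 9 0 :=
  cutTri (4, 0) (5, 0) (5, 1) (-4, 2, 15) (by decide) (by decide) (by decide) tB_2

private theorem tB_0 : Bsp sB_0 9 1 :=
  cutSing (6, 0) (-4, 2, 23) (by decide) (by decide) tB_1

/-- the points which remain -/
private def sC_14 : Finset (ℤ × ℤ) := {(1, 2), (2, 2), (2, 3)}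

/-- the points which remain -/
private def sC_13 : Finset (ℤ × ℤ) := insert (3, 2) (insert (3, 3) (insert (4, 4) sC_14))

/-- the points which remain -/
private def sC_12 : Finset (ℤ × ℤ) := insert (0, 0) (insert (1, 1) (insert (2, 1) sC_13))

/-- the points which remain -/
private def sC_11 : Finset (ℤ × ℤ) := insert (2, 4) (insert (3, 4) (insert (3, 5) sC_12))

/-- the points which remain -/
private def sC_10 : Finset (ℤ × ℤ) := insert (0, 1) (insert (0, 2) (insert (1, 3) sC_11))

/-- the points which remain -/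
private def sC_9 : Finset (ℤ × ℤ) := insert (1, 4) (insert (2, 5) (insert (2, 6) sC_10))

/-- the points which remain -/
private def sC_8 : Finset (ℤ × ℤ) := insert (0, 3) (insert (0, 4) (insert (1, 5) sC_9))

/-- the points which remain -/
private def sC_7 : Finset (ℤ × ℤ) := insert (0, 5) (insert (0, 6) (insert (1, 6) sC_8))

/-- the points which remain -/
private def sC_6 : Finset (ℤ × ℤ) := insert (0, 7) (insert (1, 7) (insert (0, 8) sC_7))

/-- the points which remain -/
private def sC_5 : Finset (ℤ × ℤ) := insert (4, 2) (insert (4, 3) (insert (5, 3) sC_6))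

/-- the points which remain -/
private def sC_4 : Finset (ℤ × ℤ) := insert (1, 0) (insert (2, 0) (insert (3, 1) sC_5))

/-- the points which remain -/
private def sC_3 : Finset (ℤ × ℤ) := insert (4, 1) (insert (5, 2) (insert (6, 2) sC_4))

/-- the points which remain -/
private def sC_2 : Finset (ℤ × ℤ) := insert (3, 0) (insert (4, 0) (insert (5, 1) sC_3))

/-- the points which remain -/
private def sC_1 : Finset (ℤ × ℤ) := insert (5, 0) (insert (6, 0) (insert (6, 1) sC_2))

/-- the points which remain -/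
private def sC_0 : Finset (ℤ × ℤ) := insert (7, 0) (insert (8, 0) (insert (7, 1) sC_1))

private theorem tC_14 : Bsp sC_14 1 0 :=
  Bsp.tri (1, 2) (2, 2) (2, 3) (by decide)

private theorem tC_13 : Bsp sC_13 2 0 :=
  cutTri (3, 2) (3, 3) (4, 4) (-4, 2, 5) (by decide) (by decide) (by decide) tC_14

private theorem tC_12 : Bsp sC_12 3 0 :=
  cutTri (0, 0) (1, 1) (2, 1) (0, 2, -3) (by decide) (by decide) (by decide) tC_13

private theorem tC_11 : Bsp sC_11 4 0 :=
  cutTri (2, 4) (3, 4) (3, 5) (2, -4, 9) (by decide) (by decide) (by decide) tC_12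

private theorem tC_10 : Bsp sC_10 5 0 :=
  cutTri (0, 1) (0, 2) (1, 3) (4, -2, 1) (by decide) (by decide) (by decide) tC_11

private theorem tC_9 : Bsp sC_9 6 0 :=
  cutTri (1, 4) (2, 5) (2, 6) (2, -2, 5) (by decide) (by decide) (by decide) tC_10

private theorem tC_8 : Bsp sC_8 7 0 :=
  cutTri (0, 3) (0, 4) (1, 5) (4, -2, 5) (by decide) (by decide) (by decide) tC_9

private theorem tC_7 : Bsp sC_7 8 0 :=
  cutTri (0, 5) (0, 6) (1, 6) (2, -2, 9) (by decide) (by decide) (by decide) tC_8

private theorem tC_6 : Bsp sC_6 9 0 :=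
  cutTri (0, 7) (1, 7) (0, 8) (2, -4, 25) (by decide) (by decide) (by decide) tC_7

private theorem tC_5 : Bsp sC_5 10 0 :=
  cutTri (4, 2) (4, 3) (5, 3) (-4, 2, 9) (by decide) (by decide) (by decide) tC_6

private theorem tC_4 : Bsp sC_4 11 0 :=
  cutTri (1, 0) (2, 0) (3, 1) (-2, 4, 1) (by decide) (by decide) (by decide) tC_5

private theorem tC_3 : Bsp sC_3 12 0 :=
  cutTri (4, 1) (5, 2) (6, 2) (-2, 2, 5) (by decide) (by decide) (by decide) tC_4

private theorem tC_2 : Bsp sC_2 13 0 :=
  cutTri (3, 0) (4, 0) (5, 1) (-2, 4, 5) (by decide) (by decide) (by decide) tC_3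

private theorem tC_1 : Bsp sC_1 14 0 :=
  cutTri (5, 0) (6, 0) (6, 1) (-2, 2, 9) (by decide) (by decide) (by decide) tC_2

private theorem tC_0 : Bsp sC_0 15 0 :=
  cutTri (7, 0) (8, 0) (7, 1) (-4, 2, 25) (by decide) (by decide) (by decide) tC_1

private theorem eA : Td 5 = sA_0 := by decide

private theorem eB : Td 6 = sB_0 := by decide

private theorem eC : Td 8 = sC_0 := by decide

theorem t_B568 : S_B568 := by
  unfold S_B568
  rw [eA, eB, eC]
  exact ⟨tA_0, tB_0, tC_0⟩

end Pool.Agent.Lib.MP_d01072_ag.Tf
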