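import Pool.Agent.Lib.MP_d01072_ag.Tf.Spec

/-!
MP_d01072_ag, package Tf, module BAdm: a set which is cut by lines successively into triangles and
single points has cells with affine functions, each smallest on its own cell.
-/

set_option autoImplicit false

namespace Pool.Agent.Lib.MP_d01072_ag.Tf

/-- the same with an arbitrary finite index type -/
private theorem adm_of {ι : Type} [Fintype ι] (A : Finset (ℤ × ℤ)) (N : ℕ)
    (hN : Fintype.card ι = N) (Z : ι → Finset (ℤ × ℤ)) (w : ι → ℤ × ℤ × ℤ)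
    (h1 : ∀ i, Cell (Z i)) (h2 : ∀ p, p ∈ A ↔ ∃ i, p ∈ Z i)
    (h3 : ∀ i j, i ≠ j → ∀ p ∈ Z i, af (w i) p < af (w j) p) : Adm A N := by
  classical
  let e : ι ≃ Fin N := Fintype.equivFinOfCardEq hN
  refine ⟨fun i => Z (e.symm i), fun i => w (e.symm i), fun i => h1 _, fun p => ?_, ?_⟩
  · rw [h2 p]
    constructor
    · rintro ⟨i, hi⟩
      exact ⟨e i, by simpa using hi⟩
    · rintro ⟨i, hi⟩
      exact ⟨e.symm i, hi⟩
  · intro i j hij p hp
    exact h3 _ _ (fun h => hij (e.symm.injective h)) p hp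

private theorem af_sub (u w : ℤ × ℤ × ℤ) (N : ℤ) (p : ℤ × ℤ) :
    af (u.1 - N * w.1, u.2.1 - N * w.2.1, u.2.2 - N * w.2.2) p = af u p - N * af w p := by
  unfold af
  ring

/-- a bound for all differences -/
private theorem bound {ι κ : Type} [Fintype ι] [Fintype κ] (S : Finset (ℤ × ℤ))
    (u : ι → ℤ × ℤ × ℤ) (v : κ → ℤ × ℤ × ℤ) :
    ∃ N : ℤ, ∀ p ∈ S, ∀ a b, |af (u a) p - af (v b) p| < N := by
  classical
  refine ⟨1 + ∑ p ∈ S, ∑ a, ∑ b, |af (u a) p - af (v b) p|, fun p hp a b => ?_⟩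
  have h1 : |af (u a) p - af (v b) p| ≤ ∑ b, |af (u a) p - af (v b) p| :=
    Finset.single_le_sum (f := fun b => |af (u a) p - af (v b) p|)
      (fun _ _ => abs_nonneg _) (Finset.mem_univ b)
  have h2 : ∑ b, |af (u a) p - af (v b) p| ≤ ∑ a, ∑ b, |af (u a) p - af (v b) p| :=
    Finset.single_le_sum (f := fun a => ∑ b, |af (u a) p - af (v b) p|)
      (fun _ _ => Finset.sum_nonneg fun _ _ => abs_nonneg _) (Finset.mem_univ a)
  have h3 : ∑ a, ∑ b, |af (u a) p - af (v b) p| ≤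
      ∑ p ∈ S, ∑ a, ∑ b, |af (u a) p - af (v b) p| :=
    Finset.single_le_sum (f := fun p => ∑ a, ∑ b, |af (u a) p - af (v b) p|)
      (fun _ _ => Finset.sum_nonneg fun _ _ => Finset.sum_nonneg fun _ _ => abs_nonneg _) hp
  linarith

private theorem adm_cut (A B : Finset (ℤ × ℤ)) (m m' : ℕ) (w : ℤ × ℤ × ℤ)
    (hA : ∀ p ∈ A, af w p < 0) (hB : ∀ p ∈ B, 0 < af w p) (h : Adm A m) (h' : Adm B m') :
    Adm (A ∪ B) (m + m') := by
  classical
  obtain ⟨Z, u, z1, z2, z3⟩ := h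
  obtain ⟨Y, v, y1, y2, y3⟩ := h'
  obtain ⟨N, hN⟩ := bound (A ∪ B) u v
  refine adm_of (ι := Fin m ⊕ Fin m') (A ∪ B) (m + m') (by simp) (Sum.elim Z Y)
    (Sum.elim u fun j => ((v j).1 - N * w.1, (v j).2.1 - N * w.2.1, (v j).2.2 - N * w.2.2))
    ?_ ?_ ?_
  · rintro (i | i)
    · exact z1 i
    · exact y1 i
  · intro p
    rw [Finset.mem_union, z2 p, y2 p]
    constructor
    · rintro (⟨i, hi⟩ | ⟨i, hi⟩)
      · exact ⟨Sum.inl i, hi⟩
      · exact ⟨Sum.inr i, hi⟩
    · rintro ⟨i | i, hi⟩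
      · exact Or.inl ⟨i, hi⟩
      · exact Or.inr ⟨i, hi⟩
  · rintro (a | a) (b | b) hab p hp
    · simp only [Sum.elim_inl] at hp ⊢
      exact z3 a b (fun e => hab (by rw [e])) p hp
    · simp only [Sum.elim_inl, Sum.elim_inr, af_sub] at hp ⊢
      have hpA : p ∈ A := (z2 p).2 ⟨a, hp⟩
      have h1 := hA p hpA
      have h2 := hN p (Finset.mem_union_left _ hpA) a b
      have h3 := (abs_lt.1 h2).2
      have h4 : 0 < N := lt_of_le_of_lt (abs_nonneg _) h2
      have h5 : af w p ≤ -1 := by omega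
      nlinarith
    · simp only [Sum.elim_inl, Sum.elim_inr, af_sub] at hp ⊢
      have hpB : p ∈ B := (y2 p).2 ⟨a, hp⟩
      have h1 := hB p hpB
      have h2 := hN p (Finset.mem_union_right _ hpB) b a
      have h3 := (abs_lt.1 h2).1
      have h4 : 0 < N := lt_of_le_of_lt (abs_nonneg _) h2
      have h5 : 1 ≤ af w p := by omega
      nlinarith
    · simp only [Sum.elim_inr, af_sub] at hp ⊢
      have := y3 a b (fun e => hab (by rw [e])) p hp
      linarith

theorem t_BAdm : S_BAdm := by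
  intro A n s h
  induction h with
  | nil =>
    exact ⟨fun i => i.elim0, fun i => i.elim0, fun i => i.elim0,
      fun p => ⟨fun h => absurd h (Finset.notMem_empty p), fun ⟨i, _⟩ => i.elim0⟩,
      fun i => i.elim0⟩
  | sing p =>
    refine adm_of (ι := Unit) {p} (0 + 1) (by simp) (fun _ => {p}) (fun _ => (0, 0, 0))
      (fun _ => Or.inl ⟨p, rfl⟩) (fun q => ⟨fun h => ⟨(), h⟩, fun ⟨_, h⟩ => h⟩) ?_
    intro i j hij
    exact absurd (Subsingleton.elim i j) hij
  | tri p q r hd =>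
    refine adm_of (ι := Unit) {p, q, r} (1 + 0) (by simp) (fun _ => {p, q, r})
      (fun _ => (0, 0, 0)) (fun _ => Or.inr ⟨p, q, r, hd, rfl⟩)
      (fun x => ⟨fun h => ⟨(), h⟩, fun ⟨_, h⟩ => h⟩) ?_
    intro i j hij
    exact absurd (Subsingleton.elim i j) hij
  | cut A B n s n' s' w hA hB _ _ ih ih' =>
    have := adm_cut A B (n + s) (n' + s') w hA hB ih ih'
    rwa [show n + n' + (s + s') = n + s + (n' + s') by ring]

end Pool.Agent.Lib.MP_d01072_ag.Tf
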