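import Pool.Agent.Lib.MP_d01072_ag.Tf.Spec

/-!
MP_d01072_ag, package Tf, module Base: base points are algebraic.
-/

set_option autoImplicit false

namespace Pool.Agent.Lib.MP_d01072_ag.Tf

open MvPolynomial

section

variable {K : Type} [Field K]

/-- value of a form which contains only two variables -/
private theorem bs_ev2 (c : R K) (l i : Fin 3) (hli : l ≠ i)
    (hs : ∀ s ∈ c.support, ∀ j, j ≠ l → j ≠ i → s j = 0) (P : Fin 3 → K) :
    eval P c = ∑ d ∈ c.support, coeff d c * (P l ^ d l * P i ^ d i) := by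
  rw [eval_eq']
  refine Finset.sum_congr rfl fun d hd => ?_
  rw [Finset.prod_eq_mul l i hli (fun j _ hj => by rw [hs d hd j hj.1 hj.2, pow_zero])
    (fun h => absurd (Finset.mem_univ _) h) (fun h => absurd (Finset.mem_univ _) h)]

/-- the second variable is specialized -/
private noncomputable def bsq (c : R K) (l i : Fin 3) (z : K) : Polynomial K :=
  ∑ d ∈ c.support, Polynomial.C (coeff d c * z ^ d i) * Polynomial.X ^ d l

private theorem bsq_eval (c : R K) (l i : Fin 3) (hli : l ≠ i)
    (hs : ∀ s ∈ c.support, ∀ j, j ≠ l → j ≠ i → s j = 0) (P : Fin 3 → K) :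
    eval P c = (bsq c l i (P i)).eval (P l) := by
  rw [bs_ev2 c l i hli hs P, bsq, Polynomial.eval_finset_sum]
  refine Finset.sum_congr rfl fun d _ => ?_
  rw [Polynomial.eval_mul, Polynomial.eval_C, Polynomial.eval_pow, Polynomial.eval_X]
  ring

private theorem bsq_ne (c : R K) (n : ℕ) (hc : c.IsHomogeneous n) (h0 : c ≠ 0) (l i : Fin 3)
    (hli : l ≠ i) (hs : ∀ s ∈ c.support, ∀ j, j ≠ l → j ≠ i → s j = 0) (z : K) (hz : z ≠ 0) :
    bsq c l i z ≠ 0 := by
  obtain ⟨e, he⟩ : ∃ e, e ∈ c.support := by
    by_contra hh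
    push Not at hh
    exact h0 (support_eq_empty.1 (Finset.eq_empty_of_forall_notMem hh))
  have hsum : ∀ d ∈ c.support, d l + d i = n := by
    intro d hd
    have h1 : Finsupp.degree d = n := by
      rw [Finsupp.degree_eq_weight_one]
      exact hc (mem_support_iff.1 hd)
    rw [Finsupp.degree_eq_sum, Finset.sum_eq_add l i hli
      (fun j _ hj => hs d hd j hj.1 hj.2)
      (fun h => absurd (Finset.mem_univ _) h) (fun h => absurd (Finset.mem_univ _) h)] at h1
    exact h1
  intro hq
  have h2 : (bsq c l i z).coeff (e l) = coeff e c * z ^ e i := by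
    rw [bsq, Polynomial.finset_sum_coeff, Finset.sum_eq_single e]
    · rw [Polynomial.coeff_C_mul, Polynomial.coeff_X_pow, if_pos rfl, mul_one]
    · intro d hd hde
      rw [Polynomial.coeff_C_mul, Polynomial.coeff_X_pow, if_neg, mul_zero]
      intro hh
      apply hde
      ext j
      by_cases hj : j = l
      · rw [hj, hh]
      · by_cases hj' : j = i
        · have := hsum d hd
          have := hsum e he
          rw [hj']
          omega
        · rw [hs d hd j hj hj', hs e he j hj hj']
    · intro h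
      exact absurd he h
  rw [hq, Polynomial.coeff_zero] at h2
  exact mul_ne_zero (mem_support_iff.1 he) (pow_ne_zero _ hz) h2.symm

/-- a subfield which contains the roots of its polynomials is algebraically closed -/
private theorem bs_closed [IsAlgClosed K] (E : Subfield K)
    (hE : ∀ (f : Polynomial K) (x : K), f ≠ 0 → (∀ i, f.coeff i ∈ E) → f.eval x = 0 → x ∈ E) :
    IsAlgClosed E := by
  refine IsAlgClosed.of_exists_root _ fun p _ hp => ?_
  have h1 : (p.map E.subtype).degree ≠ 0 := by
    rw [Polynomial.degree_map]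
    exact (Polynomial.degree_pos_of_irreducible hp).ne'
  obtain ⟨x, hx⟩ := IsAlgClosed.exists_root (p.map E.subtype) h1
  have h2 : p.map E.subtype ≠ 0 :=
    (Polynomial.map_ne_zero_iff E.subtype.injective).2 hp.ne_zero
  have h3 : x ∈ E := hE _ x h2 (fun i => by
    rw [Polynomial.coeff_map]
    exact (p.coeff i).2) hx
  refine ⟨⟨x, h3⟩, ?_⟩
  apply E.subtype.injective
  rw [map_zero, ← Polynomial.eval_map_apply]
  exact hx

end

theorem t_Base (h1 : S_Acl) (h2 : S_KerP) (h3 : S_Cop) (h4 : S_Elim) : S_Base := by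
  intro k K _ _ _ _ S B n hB hNC a hNa ha i
  classical
  set E : Subfield K := Cl k S with hEdef
  have hroot := (h1 k K S S).2.2.2
  haveI : IsAlgClosed E := bs_closed E hroot
  haveI : Infinite E := IsAlgClosed.instInfinite
  -- the points over `E`
  set BE : Finset (Fin 3 → E) := B.attach.image fun b => fun i => ⟨b.1 i, hB b.1 b.2 i⟩ with hBE
  have hinj : Function.Injective E.subtype := E.subtype.injective
  have hmap : ∀ g : R E, g ∈ Vn BE n ↔ map E.subtype g ∈ Vn B n := by
    intro g
    have hev : ∀ b : B, ∀ g : R E, eval (b.1 : Fin 3 → K) (map E.subtype g) =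
        E.subtype (eval (fun i => (⟨b.1 i, hB b.1 b.2 i⟩ : E)) g) := by
      intro b g
      rw [eval_map, eval₂_eq', eval_eq', map_sum]
      refine Finset.sum_congr rfl fun d _ => ?_
      rw [map_mul, map_prod]
      congr 1
    constructor
    · rintro ⟨hg1, hg2⟩
      refine ⟨hg1.map _, fun b hb => ?_⟩
      rw [hev ⟨b, hb⟩ g, hg2 _ (Finset.mem_image.2 ⟨⟨b, hb⟩, Finset.mem_attach _ _, rfl⟩), map_zero]
    · rintro ⟨hg1, hg2⟩
      refine ⟨?_, fun e he => ?_⟩
      · intro d hd
        apply hg1
        rw [coeff_map]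
        exact fun h => hd (hinj (by rw [h, map_zero]))
      · obtain ⟨b, -, rfl⟩ := Finset.mem_image.1 he
        apply hinj
        rw [← hev b g, hg2 _ b.2, map_zero]
  have hlift : ∀ g ∈ Vn B n, (∀ s, coeff s g ∈ E) → ∃ g' ∈ Vn BE n, map E.subtype g' = g := by
    intro g hg hc
    have h5 : map E.subtype (∑ s ∈ g.support, monomial s (⟨coeff s g, hc s⟩ : E)) = g := by
      rw [map_sum]
      conv_rhs => rw [g.as_sum]
      refine Finset.sum_congr rfl fun s _ => ?_
      rw [map_monomial]
      rfl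
    refine ⟨_, (hmap _).2 ?_, h5⟩
    rw [h5]
    exact hg
  -- `NC` over `E`
  have hNCE : NC (Vn BE n) := by
    intro t g ht hg hdiv
    refine hNC t (map E.subtype g) ht (hg.map _) fun f hf => ?_
    have h5 := h2 K E B n hB f hf
    refine Submodule.span_induction ?_ ?_ ?_ ?_ h5
    · rintro x ⟨hx1, hx2⟩
      obtain ⟨x', hx', rfl⟩ := hlift x hx1 hx2
      exact map_dvd _ (hdiv x' hx')
    · exact dvd_zero _
    · intro x y _ _ hx hy
      exact dvd_add hx hy
    · intro c x _ hx
      rw [smul_eq_C_mul]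
      exact hx.mul_left _
  obtain ⟨f, hf, g, hg, hf0, hfg⟩ := h3 E n (Vn BE n) (fun x hx => hx.1) hNCE
  obtain ⟨l, hl⟩ := hNa
  by_cases hil : i = l
  · rw [hil, hl]
    exact one_mem _
  obtain ⟨n', c, hch, hc0, hci, hcs⟩ := h4 E n f g hf.1 hg.1 hf0 hfg i l hil
  set c' : R K := map E.subtype c with hc'
  have hc'0 : c' ≠ 0 := fun h => hc0 ((map_injective _ hinj) (by rw [← hc', h, map_zero]))
  have hc'h : c'.IsHomogeneous n' := hch.map _
  have hc's : ∀ s ∈ c'.support, ∀ j, j ≠ i → j ≠ l → s j = 0 := by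
    intro s hs
    apply hcs s
    rw [mem_support_iff] at hs ⊢
    intro h
    apply hs
    rw [hc', coeff_map, h, map_zero]
  have hev : eval a c' = 0 := by
    have h5 : Ideal.span ({f, g} : Set (R E)) ≤
        RingHom.ker ((eval a).comp (map E.subtype)) := by
      rw [Ideal.span_le]
      rintro _ (rfl | rfl)
      · exact ha _ ((hmap _).1 hf)
      · exact ha _ ((hmap _).1 hg)
    exact h5 hci
  rw [bsq_eval c' i l hil hc's, hl] at hev
  refine hroot _ (a i) (bsq_ne c' n' hc'h hc'0 i l hil hc's 1 one_ne_zero) (fun j => ?_) hev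
  rw [bsq, Polynomial.finset_sum_coeff]
  refine Subfield.sum_mem _ fun d _ => ?_
  rw [Polynomial.coeff_C_mul, one_pow, mul_one, Polynomial.coeff_X_pow]
  refine mul_mem ?_ ?_
  · rw [hc', coeff_map]
    exact (coeff d c).2
  · split_ifs
    · exact one_mem _
    · exact zero_mem _

end Pool.Agent.Lib.MP_d01072_ag.Tf
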