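import Pool.Agent.Lib.MP_d01072_ag.Tf.Spec

set_option autoImplicit false

namespace Pool.Agent.Lib.MP_d01072_ag.Tf

open MvPolynomial

private theorem bcp_proj {K : Type} [Field K] (E : Subfield K) :
    ∃ π : K →ₗ[E] E, ∀ e : E, π (e : K) = e := by
  obtain ⟨g, hg⟩ := (Algebra.linearMap E K).exists_leftInverse_of_injective
    (LinearMap.ker_eq_bot.2 (algebraMap E K).injective)
  exact ⟨g, fun e => LinearMap.congr_fun hg e⟩

private theorem bcp_descend {K : Type} [Field K] (E E' : Subfield K) (hE : E ≤ E') (b : Set (R K))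
    (hb : ∀ f ∈ b, ∀ s, coeff s f ∈ E) (w : R K) (hw : ∀ s, coeff s w ∈ E)
    (hwb : w ∈ Submodule.span K b) (L : R K →ₗ[K] K) (hL : ∀ f ∈ b, L f ∈ E') : L w ∈ E' := by
  obtain ⟨π, hπ⟩ := bcp_proj E
  obtain ⟨c, hcs, hc⟩ := Submodule.mem_span_set.1 hwb
  have h1 : w = ∑ f ∈ c.support, ((π (c f) : E) : K) • f := by
    ext s
    have h2 : coeff s w = ∑ f ∈ c.support, c f * coeff s f := by
      conv_lhs => rw [← hc]
      rw [Finsupp.sum, coeff_sum]
      exact Finset.sum_congr rfl fun f _ => by rw [coeff_smul, smul_eq_mul]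
    have h3 : ((π (coeff s w) : E) : K) = coeff s w :=
      congrArg (Subtype.val) (hπ ⟨coeff s w, hw s⟩)
    rw [← h3, h2, map_sum, coeff_sum]
    push_cast
    refine Finset.sum_congr rfl fun f hf => ?_
    have h4 : π (c f * coeff s f) = (⟨coeff s f, hb f (hcs hf) s⟩ : E) * π (c f) := by
      have h5 : c f * coeff s f = (⟨coeff s f, hb f (hcs hf) s⟩ : E) • c f := by
        rw [Subfield.smul_def, smul_eq_mul, mul_comm]
      rw [h5, map_smul, smul_eq_mul]
    rw [h4, coeff_smul, smul_eq_mul]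
    push_cast
    ring
  rw [h1, map_sum]
  refine sum_mem fun f hf => ?_
  rw [map_smul, smul_eq_mul]
  exact mul_mem (hE (π (c f)).2) (hL f (hcs hf))

theorem t_BcP : S_BcP := by
  intro K _ E m q P hP hq
  classical
  obtain ⟨b0, hb0P, hb0s, hb0⟩ := exists_linearIndependent K P
  set Mo : Finset (Fin 3 →₀ ℕ) := Finset.finsuppAntidiag Finset.univ m with hMo
  have hmem : ∀ s : Fin 3 →₀ ℕ, s ∈ Mo ↔ s.degree = m := by
    intro s
    rw [hMo, Finset.mem_finsuppAntidiag, Finsupp.degree_eq_sum]
    simp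
  have hcard : Mo.card = (m + 2).choose 2 := by
    rw [hMo, Finset.card_finsuppAntidiag_nat_eq_choose, Finset.card_univ, Fintype.card_fin]
    have h : 3 + m - 1 = m + 2 := by omega
    rw [h]
    exact (Nat.choose_symm_add (a := m) (b := 2))
  let mon : (Fin 3 →₀ ℕ) → R K := fun s => monomial s 1
  have hinj : Function.Injective mon := fun s t h => monomial_left_injective one_ne_zero h
  have hb0' : LinearIndepOn K id b0 := hb0
  obtain ⟨b, hbT, hb0b, hTb, hb⟩ := exists_linearIndepOn_id_extension hb0'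
    (Set.subset_union_left : b0 ⊆ b0 ∪ mon '' (Mo : Set (Fin 3 →₀ ℕ)))
  have hforms : ∀ f : R K, f.IsHomogeneous m →
      f ∈ Submodule.span K (mon '' (Mo : Set (Fin 3 →₀ ℕ))) := by
    intro f hf
    rw [f.as_sum]
    refine Submodule.sum_mem _ fun s hs => ?_
    have h1 : monomial s (coeff s f) = coeff s f • mon s := by
      simp only [mon, smul_monomial, smul_eq_mul, mul_one]
    rw [h1]
    refine Submodule.smul_mem _ _ (Submodule.subset_span ⟨s, ?_, rfl⟩)
    have h2 := hf (mem_support_iff.1 hs)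
    rw [Finset.mem_coe, hmem]
    rw [Finsupp.degree_eq_weight_one]
    exact h2
  have hbform : ∀ f ∈ b, f.IsHomogeneous m ∧ ∀ s, coeff s f ∈ E := by
    intro f hf
    rcases hbT hf with h | ⟨s, hs, rfl⟩
    · exact hP f (hb0P h)
    · refine ⟨isHomogeneous_monomial _ ((hmem s).1 hs), fun t => ?_⟩
      simp only [mon, coeff_monomial]
      split_ifs
      · exact one_mem _
      · exact zero_mem _
  have hfin : (mon '' (Mo : Set (Fin 3 →₀ ℕ))).Finite := Mo.finite_toSet.image _
  have hbfin : b.Finite := by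
    have := hfin.to_subtype
    have h := LinearIndependent.finite_of_le_span_finite (fun x : b => id (x : R K)) hb
      (mon '' (Mo : Set (Fin 3 →₀ ℕ))) (by
        rintro _ ⟨x, rfl⟩
        exact hforms _ (hbform x x.2).1)
    exact Set.toFinite b
  have hbcard : b.ncard ≤ Mo.card := by
    have := hfin.fintype
    have := hbfin.fintype
    have h := linearIndependent_le_span' (fun x : b => id (x : R K)) hb
      (mon '' (Mo : Set (Fin 3 →₀ ℕ))) (by
        rintro _ ⟨x, rfl⟩
        exact hforms _ (hbform x x.2).1)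
    rw [Cardinal.mk_fintype, Nat.cast_le] at h
    rw [← Set.toFinset_card, ← Set.toFinset_card] at h
    rw [Set.ncard_eq_toFinset_card']
    refine h.trans ?_
    rw [← Set.ncard_eq_toFinset_card']
    exact (Set.ncard_image_le Mo.finite_toSet).trans (by rw [Set.ncard_coe_finset])
  have hb0fin : b0.Finite := hbfin.subset hb0b
  have hu : Module.finrank K (Submodule.span K P) = b0.ncard := by
    have := hb0fin.fintype
    rw [← hb0s, finrank_span_set_eq_card hb0, Set.ncard_eq_toFinset_card']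
  refine ⟨Mo.filter fun s => mon s ∈ b ∧ mon s ∉ b0, ?_, ?_⟩
  · set M := Mo.filter fun s => mon s ∈ b ∧ mon s ∉ b0 with hM
    have h1 : mon '' (M : Set (Fin 3 →₀ ℕ)) ∪ b0 ⊆ b := by
      rintro f (⟨s, hs, rfl⟩ | hf)
      · exact (Finset.mem_filter.1 (Finset.mem_coe.1 hs)).2.1
      · exact hb0b hf
    have h2 : Disjoint (mon '' (M : Set (Fin 3 →₀ ℕ))) b0 := by
      rw [Set.disjoint_left]
      rintro f ⟨s, hs, rfl⟩
      exact (Finset.mem_filter.1 (Finset.mem_coe.1 hs)).2.2
    have h3 := Set.ncard_le_ncard h1 hbfin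
    rw [Set.ncard_union_eq h2 (M.finite_toSet.image _) hb0fin, Set.ncard_image_of_injective _ hinj,
      Set.ncard_coe_finset] at h3
    omega
  · intro L E' hE hPL hML s hs
    refine bcp_descend E E' hE b (fun f hf => (hbform f hf).2) _ ?_
      (hTb (Or.inr ⟨s, (hmem s).2 hs, rfl⟩)) L ?_
    · intro t
      rw [coeff_monomial]
      split_ifs
      · exact one_mem _
      · exact zero_mem _
    · intro f hf
      by_cases h0 : f ∈ b0
      · exact hPL f (hb0P h0)
      · rcases hbT hf with h | ⟨t, ht, rfl⟩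
        · exact absurd h h0
        · exact hML t (Finset.mem_filter.2 ⟨ht, hf, h0⟩)

end Pool.Agent.Lib.MP_d01072_ag.Tf
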