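import Pool.Agent.Lib.MP_d01072_ag.Tf.Spec

set_option autoImplicit false

namespace Pool.Agent.Lib.MP_d01072_ag.Tf

open Polynomial Module

private theorem bin_mem_xm {K : Type} [Field K] {W : Submodule K (Polynomial K)}
    {f : Polynomial K} : f ∈ xm W ↔ ∃ g ∈ W, (X : Polynomial K) * g = f := Iff.rfl

private theorem bin_finite {K : Type} [Field K] {m : ℕ} {W : Submodule K (Polynomial K)}
    (h : W ≤ degreeLE K m) : FiniteDimensional K W := by
  classical
  have h1 : FiniteDimensional K (degreeLE K (m : WithBot ℕ)) := by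
    rw [degreeLE_eq_span_X_pow]
    exact FiniteDimensional.span_finset _ _
  exact Submodule.finiteDimensional_of_le h

private theorem bin_finite_xm {K : Type} [Field K] {m : ℕ} {W : Submodule K (Polynomial K)}
    (h : W ≤ degreeLE K m) : FiniteDimensional K (xm W) := by
  have h1 := bin_finite h
  unfold xm
  infer_instance

private theorem bin_lt {K : Type} [Field K] {m : ℕ} {W : Submodule K (Polynomial K)}
    (h : W ≤ degreeLE K m) (h0 : W ≠ ⊥) :
    finrank K W + 1 ≤ finrank K (W ⊔ xm W : Submodule K (Polynomial K)) := by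
  have hf := bin_finite h
  have hf2 := bin_finite_xm h
  apply Submodule.finrank_lt_finrank_of_lt
  refine lt_of_le_of_ne le_sup_left ?_
  intro heq
  have hx : xm W ≤ W := le_sup_right.trans heq.symm.le
  obtain ⟨f, hfW, hf0⟩ := Submodule.exists_mem_ne_zero_of_ne_bot h0
  have hk : ∀ k : ℕ, X ^ k * f ∈ W := by
    intro k
    induction k with
    | zero =>
      rw [pow_zero, one_mul]
      exact hfW
    | succ k ih =>
      rw [pow_succ', mul_assoc]
      exact hx (bin_mem_xm.2 ⟨_, ih, rfl⟩)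
  have h1 := mem_degreeLE.1 (h (hk (m + 1)))
  rw [degree_mul, degree_X_pow, degree_eq_natDegree hf0] at h1
  have h2 : m + 1 + f.natDegree ≤ m := by exact_mod_cast h1
  omega

private theorem bin_ind {K : Type} [Field K] (m w : ℕ) : ∀ W : Submodule K (Polynomial K),
    W ≤ degreeLE K m → W ≠ ⊥ → finrank K W = w + 1 →
    finrank K (W ⊔ xm W : Submodule K (Polynomial K)) ≤ w + 2 →
    ∃ g : Polynomial K, ∀ f ∈ W, ∃ u ∈ degreeLT K (w + 1), f = g * u := by
  induction w with
  | zero =>
    intro W h h0 h1 h2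
    obtain ⟨g, hg, hg0⟩ := Submodule.exists_mem_ne_zero_of_ne_bot h0
    refine ⟨g, ?_⟩
    intro f hf
    have h3 := (finrank_eq_one_iff_of_nonzero' (⟨g, hg⟩ : W) (by
      intro h4
      exact hg0 (congrArg Subtype.val h4))).1 h1 ⟨f, hf⟩
    obtain ⟨c, hc⟩ := h3
    refine ⟨C c, ?_, ?_⟩
    · rw [mem_degreeLT]
      exact lt_of_le_of_lt degree_C_le (by norm_num)
    · have h5 : c • g = f := congrArg Subtype.val hc
      rw [← h5, mul_comm, C_mul']
  | succ w ih =>
    intro W h h0 h1 h2
    have hf := bin_finite h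
    have hf2 := bin_finite_xm h
    set φ : Polynomial K →ₗ[K] Polynomial K := LinearMap.mulLeft K (X : Polynomial K) with hφ
    have hinj : Function.Injective φ := by
      intro a b hab
      exact mul_left_cancel₀ X_ne_zero hab
    set W' : Submodule K (Polynomial K) := W ⊓ W.comap φ with hW'
    have hm : W'.map φ = W ⊓ xm W := by
      ext f
      constructor
      · rintro ⟨g, hg, rfl⟩
        exact ⟨hg.2, g, hg.1, rfl⟩
      · rintro ⟨hfW, g, hg, rfl⟩
        exact ⟨g, ⟨hg, hfW⟩, rfl⟩
    have hd1 : finrank K (W'.map φ) = finrank K W' :=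
      (Submodule.equivMapOfInjective φ hinj W').finrank_eq.symm
    have hd2 : finrank K (xm W) = finrank K W :=
      (Submodule.equivMapOfInjective φ hinj W).finrank_eq.symm
    have hd3 := Submodule.finrank_sup_add_finrank_inf_eq W (xm W)
    have hd4 := bin_lt h h0
    rw [← hm, hd1, hd2] at hd3
    have hd5 : finrank K W' = w + 1 := by omega
    have hle : W' ≤ W := inf_le_left
    have h' : W' ≤ degreeLE K m := hle.trans h
    have h0' : W' ≠ ⊥ := by
      intro hb
      rw [hb, finrank_bot] at hd5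
      omega
    have hle2 : W' ⊔ xm W' ≤ W := by
      refine sup_le hle ?_
      rintro f ⟨g, hg, rfl⟩
      exact hg.2
    have hd6 := bin_lt h' h0'
    have heq : W' ⊔ xm W' = W := Submodule.eq_of_le_of_finrank_le hle2 (by omega)
    obtain ⟨g, hg⟩ := ih W' h' h0' hd5 (by rw [heq]; omega)
    refine ⟨g, ?_⟩
    intro f hfW
    rw [← heq, Submodule.mem_sup] at hfW
    obtain ⟨a, ha, b, ⟨b', hb', hb⟩, rfl⟩ := hfW
    obtain ⟨u, hu, rfl⟩ := hg a ha
    obtain ⟨v, hv, rfl⟩ := hg b' hb'
    refine ⟨u + X * v, ?_, ?_⟩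
    · rw [mem_degreeLT] at hu hv ⊢
      refine lt_of_le_of_lt (degree_add_le _ _) (max_lt ?_ ?_)
      · refine hu.trans ?_
        exact_mod_cast Nat.lt_succ_self (w + 1)
      · rw [degree_mul, degree_X]
        by_cases hv0 : v = 0
        · rw [hv0, degree_zero]
          exact WithBot.bot_lt_coe _
        · rw [degree_eq_natDegree hv0] at hv ⊢
          have hv1 : v.natDegree < w + 1 := by exact_mod_cast hv
          have hv2 : 1 + v.natDegree < w + 1 + 1 := by omega
          exact_mod_cast hv2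
    · rw [← hb]
      have hb2 : φ (g * v) = X * (g * v) := rfl
      rw [hb2]
      ring

theorem t_Bin : S_Bin := by
  intro K _ _ m W h h0
  refine ⟨bin_lt h h0, ?_⟩
  intro hz hc
  by_contra hcon
  have hlt := bin_lt h h0
  have hf := bin_finite h
  have hpos : 0 < finrank K W := by
    rw [Nat.pos_iff_ne_zero]
    intro h1
    exact h0 (Submodule.finrank_eq_zero.1 h1)
  obtain ⟨w, hw⟩ := Nat.exists_eq_add_of_lt hpos
  rw [zero_add] at hw
  have hcon' := not_le.1 hcon
  rw [lt_min_iff] at hcon'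
  obtain ⟨hc1, hc2⟩ := hcon'
  obtain ⟨g, hg⟩ := bin_ind m w W h h0 hw (by omega)
  have hg0 : g.degree = 0 := by
    by_contra hd
    obtain ⟨x, hx⟩ := IsAlgClosed.exists_root g hd
    obtain ⟨f, hfW, hfx⟩ := hz x
    obtain ⟨u, -, rfl⟩ := hg f hfW
    apply hfx
    rw [eval_mul, hx.eq_zero, zero_mul]
  obtain ⟨f, hfW, hfm⟩ := hc
  obtain ⟨u, hu, rfl⟩ := hg f hfW
  rw [eq_C_of_degree_eq_zero hg0, coeff_C_mul] at hfm
  have hum : u.coeff m ≠ 0 := right_ne_zero_of_mul hfm
  rw [mem_degreeLT] at hu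
  have h3 := lt_of_le_of_lt (le_degree_of_ne_zero hum) hu
  have h4 : m < w + 1 := by exact_mod_cast h3
  omega

end Pool.Agent.Lib.MP_d01072_ag.Tf
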