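import Pool.Agent.Lib.MP_d01072_ag.Tf.Spec

/-!
MP_d01072_ag, package Tf: division by a nonzero coefficient.
-/

set_option autoImplicit false

namespace Pool.Agent.Lib.MP_d01072_ag.Tf

open MvPolynomial

/-- the number of the monomials of degree `t` in three variables -/
private theorem coefF_card (t : ℕ) (S : Finset (Fin 3 →₀ ℕ)) (hS : ∀ s ∈ S, s 0 + s 1 + s 2 = t) :
    S.card ≤ (t + 2).choose 2 := by
  classical
  rw [← Finset.card_range (t + 2), ← Finset.card_powersetCard]
  refine Finset.card_le_card_of_injOn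
    (fun s : Fin 3 →₀ ℕ => ({s 0, s 0 + s 1 + 1} : Finset ℕ)) ?_ ?_
  · intro s hs
    have h1 := hS s hs
    rw [Finset.mem_coe, Finset.mem_powersetCard]
    refine ⟨?_, Finset.card_pair (by omega)⟩
    intro x hx
    rw [Finset.mem_insert, Finset.mem_singleton] at hx
    rw [Finset.mem_range]
    omega
  · intro s hs s' hs' h
    have h1 := hS s hs
    have h2 := hS s' hs'
    have h3 : ({s 0, s 0 + s 1 + 1} : Finset ℕ) = {s' 0, s' 0 + s' 1 + 1} := h
    have m1 : s 0 ∈ ({s' 0, s' 0 + s' 1 + 1} : Finset ℕ) := h3 ▸ by simp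
    have m2 : s 0 + s 1 + 1 ∈ ({s' 0, s' 0 + s' 1 + 1} : Finset ℕ) := h3 ▸ by simp
    have m3 : s' 0 ∈ ({s 0, s 0 + s 1 + 1} : Finset ℕ) := h3 ▸ by simp
    have m4 : s' 0 + s' 1 + 1 ∈ ({s 0, s 0 + s 1 + 1} : Finset ℕ) := h3 ▸ by simp
    rw [Finset.mem_insert, Finset.mem_singleton] at m1 m2 m3 m4
    have e0 : s 0 = s' 0 := by omega
    have e1 : s 1 = s' 1 := by omega
    have e2 : s 2 = s' 2 := by omega
    ext i
    fin_cases i
    · exact e0
    · exact e1
    · exact e2

theorem t_CoefF (h1 : S_Acl) : S_CoefF := by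
  classical
  intro k K _ _ _ t F hF hF0
  obtain ⟨s₀, hs₀⟩ := MvPolynomial.ne_zero_iff.1 hF0
  refine ⟨(coeff s₀ F)⁻¹, (F.support.erase s₀).image (fun s => coeff s (C (coeff s₀ F)⁻¹ * F)),
    inv_ne_zero hs₀, ?_, ?_⟩
  · have hm : s₀ ∈ F.support := MvPolynomial.mem_support_iff.2 hs₀
    have h2 : (F.support.erase s₀).card + 1 = F.support.card := Finset.card_erase_add_one hm
    have h3 : F.support.card ≤ (t + 2).choose 2 := by
      refine coefF_card t _ fun s hs => ?_
      have h4 := hF (MvPolynomial.mem_support_iff.1 hs)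
      rw [Finsupp.weight_apply, Finsupp.sum_fintype _ _ (by simp), Fin.sum_univ_three] at h4
      simpa using h4
    have h5 := Finset.card_image_le (s := F.support.erase s₀)
      (f := fun s => coeff s (C (coeff s₀ F)⁻¹ * F))
    omega
  · intro s
    by_cases h2 : s = s₀
    · rw [h2, coeff_C_mul, inv_mul_cancel₀ hs₀]
      exact (Cl k _).one_mem
    · by_cases h3 : coeff s F = 0
      · rw [coeff_C_mul, h3, mul_zero]
        exact (Cl k _).zero_mem
      · refine (h1 k K _ ∅).1 ?_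
        rw [Finset.mem_coe, Finset.mem_image]
        exact ⟨s, Finset.mem_erase.2 ⟨h2, MvPolynomial.mem_support_iff.2 h3⟩, rfl⟩

end Pool.Agent.Lib.MP_d01072_ag.Tf
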