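import Pool.Agent.Lib.MP_d01072_ag.Tf.Spec

/-!
MP_d01072_ag, package Tf, module Cop: a space of forms without a common factor of positive degree
contains two relatively prime forms.
-/

set_option autoImplicit false

namespace Pool.Agent.Lib.MP_d01072_ag.Tf

open MvPolynomial

namespace CopAux

/-- the elements of `V` which are divisible by `p` -/
private def dv {K : Type} [Field K] (V : Submodule K (R K)) (p : R K) : Submodule K V where
  carrier := {g | p ∣ (g : R K)}
  add_mem' {a b} ha hb := by
    rw [Set.mem_ofPred_eq, Submodule.coe_add]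
    exact dvd_add ha hb
  zero_mem' := by
    rw [Set.mem_ofPred_eq, Submodule.coe_zero]
    exact dvd_zero p
  smul_mem' c a ha := by
    rw [Set.mem_ofPred_eq, Submodule.coe_smul, smul_eq_C_mul]
    exact Dvd.dvd.mul_left ha _

/-- a homogeneous non-unit, not zero, has positive degree -/
private lemma deg_pos {K : Type} [Field K] (p : R K) (t : ℕ) (hp : p.IsHomogeneous t)
    (h0 : p ≠ 0) (hu : ¬ IsUnit p) : 0 < t := by
  rcases Nat.eq_zero_or_pos t with rfl | h
  · exfalso
    have h1 : p = C (coeff 0 p) := by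
      have h2 : p.totalDegree = 0 := by
        exact hp.totalDegree h0
      exact totalDegree_eq_zero_iff_eq_C.1 h2
    apply hu
    rw [h1]
    refine IsUnit.map C (isUnit_iff_ne_zero.2 fun h3 => h0 ?_)
    rw [h1, h3, map_zero]
  · exact h

end CopAux

open CopAux in
/-- **Cop** -/
theorem t_Cop (h1 : S_HFac) : S_Cop := by
  classical
  intro K _ _ m V hV hNC
  -- a nonzero element
  obtain ⟨f, hfV, hf0⟩ : ∃ f ∈ V, f ≠ 0 := by
    by_contra h
    push Not at h
    exact hNC 1 (X 0) one_pos (isHomogeneous_X K 0) fun f hf => by rw [h f hf]; exact dvd_zero _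
  have hfm : f.IsHomogeneous m := hV hfV
  -- the irreducible factors
  have hp : ∀ p ∈ UniqueFactorizationMonoid.factors f, dv V p ≠ ⊤ := by
    intro p hp htop
    have hirr := UniqueFactorizationMonoid.irreducible_of_factor p hp
    obtain ⟨t, _, ht⟩ := h1 K f p m hfm hf0 (UniqueFactorizationMonoid.dvd_of_mem_factors hp)
    refine hNC t p (deg_pos p t ht hirr.ne_zero hirr.not_isUnit) ht fun g hg => ?_
    have h2 : (⟨g, hg⟩ : V) ∈ dv V p := by rw [htop]; exact Submodule.mem_top
    exact h2
  obtain ⟨g, hg⟩ : ∃ g : V, ∀ p ∈ UniqueFactorizationMonoid.factors f, ¬ p ∣ (g : R K) := by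
    by_contra h
    push Not at h
    have h3 : (⊤ : Subspace K V) ∉
        ((UniqueFactorizationMonoid.factors f).map (dv V)).toFinset := by
      intro h4
      rw [Multiset.mem_toFinset, Multiset.mem_map] at h4
      obtain ⟨p, hp1, hp2⟩ := h4
      exact hp p hp1 hp2
    refine Subspace.biUnion_ne_univ_of_top_notMem h3 ?_
    rw [Set.eq_univ_iff_forall]
    intro g
    obtain ⟨p, hp1, hp2⟩ := h g
    refine Set.mem_iUnion₂.2 ⟨dv V p, ?_, hp2⟩
    rw [Multiset.mem_toFinset, Multiset.mem_map]
    exact ⟨p, hp1, rfl⟩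
  refine ⟨f, hfV, g, g.2, hf0, ?_⟩
  intro d hdf hdg
  by_contra hu
  obtain ⟨q, hq, hqd⟩ := WfDvdMonoid.exists_irreducible_factor hu (ne_zero_of_dvd_ne_zero hf0 hdf)
  obtain ⟨p, hpf, hqp⟩ :=
    UniqueFactorizationMonoid.exists_mem_factors_of_dvd hf0 hq (hqd.trans hdf)
  exact hg p hpf (hqp.symm.dvd.trans (hqd.trans hdg))

end Pool.Agent.Lib.MP_d01072_ag.Tf
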