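import Pool.Agent.Lib.MP_d01072_ag.Tf.Spec

/-!
MP_d01072_ag, package Tf: `t_Crv` (a point on a curve needs one parameter).
-/

set_option autoImplicit false

namespace Pool.Agent.Lib.MP_d01072_ag.Tf

open MvPolynomial

private theorem crv_other (l : Fin 3) : ∃ i j : Fin 3, i ≠ j ∧ l ≠ i ∧ l ≠ j ∧
    ∀ m, m = l ∨ m = i ∨ m = j := by
  fin_cases l
  · exact ⟨1, 2, by decide, by decide, by decide, by decide⟩
  · exact ⟨0, 2, by decide, by decide, by decide, by decide⟩
  · exact ⟨0, 1, by decide, by decide, by decide, by decide⟩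

private theorem crv_prod {M : Type} [CommMonoid M] (l i j : Fin 3) (hij : i ≠ j) (hli : l ≠ i)
    (hlj : l ≠ j) (f : Fin 3 → M) : ∏ m, f m = f l * f i * f j := by
  rw [Fin.prod_univ_three]
  fin_cases l <;> fin_cases i <;> fin_cases j <;>
    first
    | exact absurd rfl hij
    | exact absurd rfl hli
    | exact absurd rfl hlj
    | rfl
    | exact mul_right_comm _ _ _
    | (show f 0 * f 1 * f 2 = f 1 * f 0 * f 2; rw [mul_comm (f 0)])
    | (show f 0 * f 1 * f 2 = f 1 * f 2 * f 0; rw [mul_assoc, mul_comm (f 0)])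
    | (show f 0 * f 1 * f 2 = f 2 * f 0 * f 1; rw [mul_comm, mul_assoc])
    | (show f 0 * f 1 * f 2 = f 2 * f 1 * f 0; rw [mul_comm, mul_comm (f 0), mul_assoc])

private theorem crv_sum (l i j : Fin 3) (hij : i ≠ j) (hli : l ≠ i)
    (hlj : l ≠ j) (f : Fin 3 → ℕ) : ∑ m, f m = f l + f i + f j :=
  crv_prod (M := Multiplicative ℕ) l i j hij hli hlj f

private theorem crv_coeff {K ι : Type} [Field K] (T : Finset ι) (c : ι → K) (e : ι → ℕ) (n : ℕ) :
    (∑ s ∈ T, Polynomial.C (c s) * Polynomial.X ^ (e s)).coeff n =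
      ∑ s ∈ T.filter (fun s => e s = n), c s := by
  rw [Polynomial.finsetSum_coeff, Finset.sum_filter]
  refine Finset.sum_congr rfl fun s _ => ?_
  rw [Polynomial.coeff_C_mul, Polynomial.coeff_X_pow]
  by_cases h : e s = n
  · rw [if_pos h, if_pos h.symm, mul_one]
  · rw [if_neg h, if_neg (Ne.symm h), mul_zero]

theorem t_Crv (h1 : S_Acl) : S_Crv := by
  intro k K _ _ _ S t F a hF hF0 hc ha he
  obtain ⟨l, hl⟩ := ha
  obtain ⟨i, j, hij, hli, hlj, hall⟩ := crv_other l
  have hsub : ∀ w : K, Cl k S ≤ Cl k (insert w S) := fun w =>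
    (h1 k K S (insert w S)).2.1 fun x hx => (h1 k K (insert w S) S).1 (Set.mem_insert_of_mem w hx)
  have hins : ∀ w : K, w ∈ Cl k (insert w S) := fun w =>
    (h1 k K (insert w S) S).1 (Set.mem_insert w S)
  have hdeg : ∀ s ∈ F.support, s l + s i + s j = t := by
    intro s hs
    have h := hF (mem_support_iff.1 hs)
    have h2 : s.degree = t := by
      rw [Finsupp.degree_eq_weight_one]
      exact h
    rw [← h2, Finsupp.degree_eq_sum, crv_sum l i j hij hli hlj]
  obtain ⟨p, hp⟩ : ∃ p : Polynomial K, p = ∑ s ∈ F.support,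
      Polynomial.C (coeff s F * a i ^ (s i)) * Polynomial.X ^ (s j) := ⟨_, rfl⟩
  have hpc : ∀ n, p.coeff n = ∑ s ∈ F.support.filter (fun s => s j = n),
      coeff s F * a i ^ (s i) := by
    intro n
    rw [hp]
    exact crv_coeff _ (fun s : Fin 3 →₀ ℕ => coeff s F * a i ^ (s i)) (fun s => s j) n
  by_cases hp0 : p = 0
  · -- the coefficients of the powers of `V` vanish at `a i`
    obtain ⟨s0, hs0⟩ : F.support.Nonempty := by
      rw [Finset.nonempty_iff_ne_empty, Ne, support_eq_empty]
      exact hF0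
    obtain ⟨q, hq⟩ : ∃ q : Polynomial K, q = ∑ s ∈ F.support.filter (fun s => s j = s0 j),
        Polynomial.C (coeff s F) * Polynomial.X ^ (s i) := ⟨_, rfl⟩
    have hqc : ∀ n, q.coeff n = ∑ s ∈ (F.support.filter (fun s => s j = s0 j)).filter
        (fun s => s i = n), coeff s F := by
      intro n
      rw [hq]
      exact crv_coeff _ (fun s : Fin 3 →₀ ℕ => coeff s F) (fun s => s i) n
    have hq0 : q ≠ 0 := by
      intro h0
      have h2 := hqc (s0 i)
      rw [h0, Polynomial.coeff_zero] at h2
      have h3 : (F.support.filter (fun s => s j = s0 j)).filter (fun s => s i = s0 i) = {s0} := by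
        ext s
        rw [Finset.mem_filter, Finset.mem_filter, Finset.mem_singleton]
        constructor
        · rintro ⟨⟨hs, hsj⟩, hsi⟩
          have h4 := hdeg s hs
          have h5 := hdeg s0 hs0
          ext m
          rcases hall m with rfl | rfl | rfl
          · omega
          · exact hsi
          · exact hsj
        · rintro rfl
          exact ⟨⟨hs0, rfl⟩, rfl⟩
      rw [h3, Finset.sum_singleton] at h2
      exact mem_support_iff.1 hs0 h2.symm
    have hqe : q.eval (a i) = 0 := by
      have h2 := hpc (s0 j)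
      rw [hp0, Polynomial.coeff_zero] at h2
      rw [hq, Polynomial.eval_finsetSum, h2]
      refine Finset.sum_congr rfl fun s _ => ?_
      rw [Polynomial.eval_mul, Polynomial.eval_C, Polynomial.eval_pow, Polynomial.eval_X]
    have hai : a i ∈ Cl k S := by
      refine (h1 k K S S).2.2.2 q (a i) hq0 (fun n => ?_) hqe
      rw [hqc]
      exact Subfield.sum_mem _ fun s _ => hc s
    refine ⟨a j, fun m => ?_⟩
    rcases hall m with rfl | rfl | rfl
    · rw [hl]
      exact Subfield.one_mem _
    · exact hsub _ hai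
    · exact hins _
  · refine ⟨a i, fun m => ?_⟩
    rcases hall m with rfl | rfl | rfl
    · rw [hl]
      exact Subfield.one_mem _
    · exact hins _
    · refine (h1 k K (insert (a i) S) S).2.2.2 p _ hp0 (fun n => ?_) ?_
      · rw [hpc]
        exact Subfield.sum_mem _ fun s _ => Subfield.mul_mem _ (hsub _ (hc s))
          (Subfield.pow_mem _ (hins _) _)
      · rw [hp, Polynomial.eval_finsetSum]
        rw [eval_eq'] at he
        rw [← he]
        refine Finset.sum_congr rfl fun s _ => ?_
        rw [crv_prod l i _ hij hli hlj, hl, one_pow, one_mul, Polynomial.eval_mul,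
          Polynomial.eval_C, Polynomial.eval_pow, Polynomial.eval_X, mul_assoc]

end Pool.Agent.Lib.MP_d01072_ag.Tf
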