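import Pool.Agent.Lib.MP_d01072_ag.Tf.Spec

/-!
MP_d01072_ag, package Tf, module Dec: from a decomposition of the symmetric tensor to a functional
on the forms of degree `d` which vanishes on `Vn A δ * Fm (d - δ)`.
-/

set_option autoImplicit false

namespace Pool.Agent.Lib.MP_d01072_ag.Tf

open MvPolynomial

/-- the content of an arrangement -/
private noncomputable def cnt {ι : Type} [Fintype ι] (i : ι → Fin 3) : Fin 3 →₀ ℕ :=
  ∑ t, Finsupp.single (i t) 1

private theorem degree_cnt {ι : Type} [Fintype ι] (i : ι → Fin 3) :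
    (cnt i).degree = Fintype.card ι := by
  unfold cnt
  rw [map_sum]
  simp [Finsupp.degree_single]

private theorem eval_cnt {ι K : Type} [Fintype ι] [Field K] (i : ι → Fin 3) (v : Fin 3 → K) :
    eval v (monomial (cnt i) (1 : K)) = ∏ t, v (i t) := by
  unfold cnt
  rw [monomial_sum_one, map_prod]
  refine Finset.prod_congr rfl fun t _ => ?_
  rw [eval_monomial]
  simp

private theorem cnt_apply {ι : Type} [Fintype ι] (i : ι → Fin 3) (x : Fin 3) :
    cnt i x = Fintype.card {t : ι // i t = x} := by
  classical
  unfold cnt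
  rw [Finsupp.finsetSum_apply, Fintype.card_subtype, Finset.card_filter]
  refine Finset.sum_congr rfl fun t _ => ?_
  rw [Finsupp.single_apply]

private theorem exists_perm {d : ℕ} (i i' : Fin d → Fin 3) (h : cnt i = cnt i') :
    ∃ σ : Equiv.Perm (Fin d), ∀ t, i (σ t) = i' t := by
  classical
  have h1 : ∀ x, Nonempty ({t : Fin d // i' t = x} ≃ {t : Fin d // i t = x}) := by
    intro x
    refine ⟨Fintype.equivOfCardEq ?_⟩
    rw [← cnt_apply, ← cnt_apply, h]
  let e : ∀ x, {t : Fin d // i' t = x} ≃ {t : Fin d // i t = x} := fun x => (h1 x).some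
  refine ⟨(Equiv.sigmaFiberEquiv i').symm.trans
    ((Equiv.sigmaCongrRight e).trans (Equiv.sigmaFiberEquiv i)), fun t => ?_⟩
  exact (e (i' t) ⟨t, rfl⟩).2

private theorem exists_cnt {ι : Type} [Fintype ι] (s : Fin 3 →₀ ℕ)
    (hs : s.degree = Fintype.card ι) : ∃ i : ι → Fin 3, cnt i = s := by
  classical
  have hc : (Finsupp.toMultiset s).toList.length = Fintype.card ι := by
    rw [Multiset.length_toList, Finsupp.card_toMultiset]
    exact hs
  let e : ι ≃ Fin (Finsupp.toMultiset s).toList.length :=
    (Fintype.equivFinOfCardEq hc.symm)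
  refine ⟨fun t => (Finsupp.toMultiset s).toList.get (e t), ?_⟩
  unfold cnt
  have h1 : ∑ t, Finsupp.single ((Finsupp.toMultiset s).toList.get (e t)) 1 =
      ∑ t : Fin (Finsupp.toMultiset s).toList.length,
        Finsupp.single ((Finsupp.toMultiset s).toList.get t) 1 :=
    Equiv.sum_comp e fun t => Finsupp.single ((Finsupp.toMultiset s).toList.get t) 1
  rw [h1]
  apply (Finsupp.orderIsoMultiset (ι := Fin 3)).injective
  show Finsupp.toMultiset _ = Finsupp.toMultiset _
  rw [map_sum]
  simp only [Finsupp.toMultiset_single, one_smul]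
  have h2 : ∀ L : List (Fin 3), ∑ t : Fin L.length, ({L.get t} : Multiset (Fin 3)) = (L : Multiset (Fin 3)) := by
    intro L
    rw [Finset.sum_eq_multiset_sum]
    induction L with
    | nil => rfl
    | cons a L ih =>
      rw [← Finset.sum_eq_multiset_sum] at ih ⊢
      have : ∑ t : Fin (a :: L).length, ({(a :: L).get t} : Multiset (Fin 3)) =
        {a} + ∑ t : Fin L.length, ({L.get t} : Multiset (Fin 3)) :=
        Fin.sum_univ_succ (n := L.length) fun t => ({(a :: L).get t} : Multiset (Fin 3))
      rw [this, ih]
      rfl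
  rw [h2]
  exact Multiset.coe_toList _

theorem t_Dec (_ : S_Acl) (h2 : S_Main) : S_Dec := by
  classical
  intro K _ _ _ d p c κ r l hd hδ hr hsym
  set T : (Fin d → Fin 3) → K := fun i => ∑ j, ∏ t, l j (c t) (i t) with hT
  have hδd : size c κ ≤ d := by
    unfold size
    exact (Fintype.card_subtype_le _).trans (Fintype.card_fin d).le
  have hδ0 : 0 < size c κ := by omega
  let L : R K →ₗ[K] K := (basisMonomials (Fin 3) K).constr K
    fun s => if h : ∃ i : Fin d → Fin 3, cnt i = s then T h.choose else 0
  have hL : ∀ i : Fin d → Fin 3, L (monomial (cnt i) 1) = T i := by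
    intro i
    have h3 : L (monomial (cnt i) 1) =
        if h : ∃ i' : Fin d → Fin 3, cnt i' = cnt i then T h.choose else 0 := by
      have := (basisMonomials (Fin 3) K).constr_basis K
        (fun s => if h : ∃ i : Fin d → Fin 3, cnt i = s then T h.choose else 0) (cnt i)
      rwa [coe_basisMonomials] at this
    have h4 : ∃ i' : Fin d → Fin 3, cnt i' = cnt i := ⟨i, rfl⟩
    rw [h3, dif_pos h4]
    obtain ⟨σ, hσ⟩ := exists_perm _ _ h4.choose_spec
    rw [hT]
    show ∑ j, ∏ t, l j (c t) (h4.choose t) = ∑ j, ∏ t, l j (c t) (i t)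
    rw [← hsym σ h4.choose]
    simp only [hσ]
  let A : Finset (Fin 3 → K) := (Finset.univ.image fun j => l j κ).erase 0
  have hAc : A.card ≤ r := by
    refine (Finset.card_erase_le).trans (Finset.card_image_le.trans ?_)
    simp
  have hA0 : ∀ a ∈ A, a ≠ 0 := fun a ha => (Finset.mem_erase.1 ha).1
  -- the vanishing on a product with a monomial
  have hvan : ∀ g ∈ Vn A (size c κ), ∀ b : Fin 3 →₀ ℕ, b.degree = d - size c κ →
      L (g * monomial b 1) = 0 := by
    intro g hg b hb
    have hcard : Fintype.card {t : Fin d // ¬ c t = κ} = d - size c κ := by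
      unfold size
      rw [Fintype.card_subtype_compl, Fintype.card_fin]
    obtain ⟨ib, hib⟩ := exists_cnt (ι := {t : Fin d // ¬ c t = κ}) b (by rw [hb, hcard])
    have h5 : ∀ a : Fin 3 →₀ ℕ, a.degree = size c κ → L (monomial (a + b) 1) =
        ∑ j, eval (l j κ) (monomial a (1 : K)) *
          ∏ t : {t : Fin d // ¬ c t = κ}, l j (c t) (ib t) := by
      intro a ha
      obtain ⟨ia, hia⟩ := exists_cnt (ι := {t : Fin d // c t = κ}) a ha
      let i : Fin d → Fin 3 := fun t => if h : c t = κ then ia ⟨t, h⟩ else ib ⟨t, h⟩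
      have hi1 : ∀ t : {t : Fin d // c t = κ}, i t = ia t := fun t => dif_pos t.2
      have hi2 : ∀ t : {t : Fin d // ¬ c t = κ}, i t = ib t := fun t => dif_neg t.2
      have h6 : cnt i = a + b := by
        rw [← hia, ← hib]
        unfold cnt
        rw [← Fintype.sum_subtype_add_sum_subtype (fun t => c t = κ)
          fun t => Finsupp.single (i t) 1]
        simp only [hi1, hi2]
      rw [← h6, hL i]
      show ∑ j, ∏ t, l j (c t) (i t) = _
      refine Finset.sum_congr rfl fun j _ => ?_
      rw [← Fintype.prod_subtype_mul_prod_subtype (fun t => c t = κ)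
          fun t => l j (c t) (i t), ← hia, eval_cnt]
      congr 1
      · exact Finset.prod_congr rfl fun t _ => by rw [hi1, t.2]
      · exact Finset.prod_congr rfl fun t _ => by rw [hi2]
    have h7 : L (g * monomial b 1) = ∑ j, eval (l j κ) g *
          ∏ t : {t : Fin d // ¬ c t = κ}, l j (c t) (ib t) := by
      conv_lhs => rw [g.as_sum]
      conv_rhs => rw [g.as_sum]
      rw [Finset.sum_mul, map_sum]
      simp only [map_sum, Finset.sum_mul]
      rw [Finset.sum_comm]
      refine Finset.sum_congr rfl fun a ha => ?_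
      have ha' : a.degree = size c κ := by
        have := hg.1 (mem_support_iff.1 ha)
        rw [← this, Finsupp.degree_eq_weight_one (R := ℕ)]
        rfl
      have h8 : monomial a (coeff a g) * monomial b (1 : K) =
          (coeff a g) • monomial (a + b) (1 : K) := by
        rw [monomial_mul, smul_monomial]
        simp
      rw [h8, map_smul, h5 a ha', Finset.smul_sum]
      refine Finset.sum_congr rfl fun j _ => ?_
      rw [smul_eq_mul, ← mul_assoc]
      congr 1
      rw [eval_monomial, eval_monomial, one_mul]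
    rw [h7]
    refine Finset.sum_eq_zero fun j _ => ?_
    by_cases hj : l j κ = 0
    · rw [hj]
      have h9 : eval (0 : Fin 3 → K) g = 0 := by
        have : constantCoeff g = 0 := by
          by_contra h
          have h10 := hg.1 (d := 0) h
          simp at h10
          omega
        rw [← this]
        exact RingHom.congr_fun (eval_zero (σ := Fin 3)) g
      rw [h9, zero_mul]
    · rw [hg.2 _ (Finset.mem_erase.2 ⟨hj, Finset.mem_image.2 ⟨j, Finset.mem_univ _, rfl⟩⟩),
        zero_mul]
  obtain ⟨G, hG, hG'⟩ := h2 ℂ K A d (size c κ) L hA0 hδ hδd (by omega) (by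
    intro f hf
    induction hf using Submodule.mul_induction_on' with
    | mem_mul_mem g hg h hh =>
      rw [h.as_sum, Finset.mul_sum, map_sum]
      refine Finset.sum_eq_zero fun b hb => ?_
      have hb' : b.degree = d - size c κ := by
        have := hh (mem_support_iff.1 hb)
        rw [← this, Finsupp.degree_eq_weight_one (R := ℕ)]
        rfl
      have h8 : g * monomial b (coeff b h) = (coeff b h) • (g * monomial b (1 : K)) := by
        rw [← mul_smul_comm, smul_monomial]
        simp
      rw [h8, map_smul, hvan g hg b hb', smul_zero]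
    | add x _ y _ hx hy => rw [map_add, hx, hy, add_zero])
  refine ⟨G, by omega, fun i => ?_⟩
  have h11 := hG' (cnt i) (by rw [degree_cnt, Fintype.card_fin])
  rw [hL i] at h11
  exact h11

end Pool.Agent.Lib.MP_d01072_ag.Tf
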