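import Pool.Agent.Lib.MP_d01072_ag.Tf.Spec

set_option autoImplicit false

namespace Pool.Agent.Lib.MP_d01072_ag.Tf

open MvPolynomial

private theorem clear {B : Type} [CommRing B] [IsDomain B] (F G : Polynomial B)
    (a b : Polynomial (FractionRing B))
    (h : a * F.map (algebraMap B (FractionRing B)) + b * G.map (algebraMap B (FractionRing B)) = 1) :
    ∃ c : B, c ≠ 0 ∧ Polynomial.C c ∈ Ideal.span ({F, G} : Set (Polynomial B)) := by
  obtain ⟨α, hα, ha⟩ := IsLocalization.integerNormalization_spec (nonZeroDivisors B) a
  obtain ⟨β, hβ, hb⟩ := IsLocalization.integerNormalization_spec (nonZeroDivisors B) b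
  refine ⟨α * β, mul_ne_zero (nonZeroDivisors.ne_zero hα) (nonZeroDivisors.ne_zero hβ), ?_⟩
  rw [Ideal.mem_span_pair]
  refine ⟨Polynomial.C β * IsLocalization.integerNormalization (nonZeroDivisors B) a,
    Polynomial.C α * IsLocalization.integerNormalization (nonZeroDivisors B) b, ?_⟩
  apply Polynomial.map_injective (algebraMap B (FractionRing B))
    (IsFractionRing.injective B (FractionRing B))
  have ha' : (IsLocalization.integerNormalization (nonZeroDivisors B) a).map
      (algebraMap B (FractionRing B)) = Polynomial.C (algebraMap B (FractionRing B) α) * a := by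
    have := ha
    rw [Algebra.smul_def, Polynomial.algebraMap_apply] at this
    exact this
  have hb' : (IsLocalization.integerNormalization (nonZeroDivisors B) b).map
      (algebraMap B (FractionRing B)) = Polynomial.C (algebraMap B (FractionRing B) β) * b := by
    have := hb
    rw [Algebra.smul_def, Polynomial.algebraMap_apply] at this
    exact this
  rw [Polynomial.map_add, Polynomial.map_mul, Polynomial.map_mul, Polynomial.map_mul,
    Polynomial.map_mul, ha', hb', Polynomial.map_C, Polynomial.map_C, Polynomial.map_C,
    map_mul, Polynomial.C_mul]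
  linear_combination (Polynomial.C (algebraMap B (FractionRing B) α) *
    Polynomial.C (algebraMap B (FractionRing B) β)) * h

private theorem gauss {B : Type} [CommRing B] [IsDomain B] [NormalizedGCDMonoid B]
    (F G : Polynomial B) (hF : F ≠ 0) (h : IsRelPrime F G) :
    ∃ c : B, c ≠ 0 ∧ Polynomial.C c ∈ Ideal.span ({F, G} : Set (Polynomial B)) := by
  classical
  let Q := FractionRing B
  let F' : Polynomial Q := F.map (algebraMap B Q)
  let G' : Polynomial Q := G.map (algebraMap B Q)
  have hF' : F' ≠ 0 := by
    intro h0
    apply hF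
    apply Polynomial.map_injective (algebraMap B Q) (IsFractionRing.injective B Q)
    rw [Polynomial.map_zero]
    exact h0
  let d : Polynomial Q := EuclideanDomain.gcd F' G'
  have hd : d ≠ 0 := by
    intro h0
    have := (EuclideanDomain.gcd_eq_zero_iff.mp h0).1
    exact hF' this
  let D0 := IsLocalization.integerNormalization (nonZeroDivisors B) d
  obtain ⟨b, hb, hD⟩ := IsLocalization.integerNormalization_spec (nonZeroDivisors B) d
  have hD' : D0.map (algebraMap B Q) = Polynomial.C (algebraMap B Q b) * d := by
    have := hD
    rw [Algebra.smul_def, Polynomial.algebraMap_apply] at this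
    exact this
  have hbu : IsUnit (Polynomial.C (algebraMap B Q b)) := by
    rw [Polynomial.isUnit_C, isUnit_iff_ne_zero]
    intro h0
    exact nonZeroDivisors.ne_zero hb
      ((injective_iff_map_eq_zero (algebraMap B Q)).1 (IsFractionRing.injective B Q) b h0)
  have hDd : (D0.primPart).map (algebraMap B Q) ∣ d := by
    have h1 : (D0.primPart).map (algebraMap B Q) ∣ D0.map (algebraMap B Q) :=
      Polynomial.map_dvd _ D0.primPart_dvd
    rw [hD'] at h1
    exact (IsUnit.dvd_mul_left hbu).mp h1
  have hDF : D0.primPart ∣ F := by
    apply D0.isPrimitive_primPart.dvd_of_fraction_map_dvd_fraction_map (K := Q)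
    exact hDd.trans (EuclideanDomain.gcd_dvd_left F' G')
  have hDG : D0.primPart ∣ G := by
    apply D0.isPrimitive_primPart.dvd_of_fraction_map_dvd_fraction_map (K := Q)
    exact hDd.trans (EuclideanDomain.gcd_dvd_right F' G')
  have hu : IsUnit D0.primPart := h hDF hDG
  have hdu : IsUnit d :=
    Polynomial.isUnit_or_eq_zero_of_isUnit_integerNormalization_primPart hd hu
  have hcop : IsCoprime F' G' := EuclideanDomain.gcd_isUnit_iff.mp hdu
  obtain ⟨x, y, hxy⟩ := hcop
  exact clear F G x y hxy

private theorem ufdgauss {B : Type} [CommRing B] [IsDomain B] [UniqueFactorizationMonoid B]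
    (F G : Polynomial B) (hF : F ≠ 0) (h : IsRelPrime F G) :
    ∃ c : B, c ≠ 0 ∧ Polynomial.C c ∈ Ideal.span ({F, G} : Set (Polynomial B)) := by
  classical
  let _ : NormalizedGCDMonoid B := by
    have : IsGCDMonoid B := by
      let _ := UniqueFactorizationMonoid.toGCDMonoid B
      infer_instance
    exact Classical.choice inferInstance
  exact gauss F G hF h

private theorem third (l i : Fin 3) (h : l ≠ i) : ∃ v : Fin 3, ∀ j, j ≠ l → j ≠ i → j = v := by
  revert l i
  decide

/-- the third variable as a polynomial variable -/
private noncomputable def E (K : Type) [Field K] (v : Fin 3) :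
    R K ≃ₐ[K] Polynomial (MvPolynomial (Fin 2) K) :=
  (renameEquiv K (finSuccEquiv' v)).trans (optionEquivLeft K (Fin 2))

private theorem E_symm_C (K : Type) [Field K] (v : Fin 3) (c : MvPolynomial (Fin 2) K) :
    (E K v).symm (Polynomial.C c) = rename (v.succAbove) c := by
  rw [AlgEquiv.symm_apply_eq]
  induction c using MvPolynomial.induction_on with
  | C a => simp [E]
  | add p q hp hq => simp only [map_add, hp, hq]
  | mul_X p j hp =>
    simp only [map_mul, hp, rename_X]
    congr 1
    simp [E]

theorem t_Elim : S_Elim := by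
  classical
  intro K _ m f g hf hg hf0 hfg l i hli
  obtain ⟨v, hv⟩ := third l i hli
  have hrel : IsRelPrime (E K v f) (E K v g) := by
    intro d hdf hdg
    have h1 : (E K v).symm d ∣ f := by
      have := map_dvd (E K v).symm hdf
      rwa [AlgEquiv.symm_apply_apply] at this
    have h2 : (E K v).symm d ∣ g := by
      have := map_dvd (E K v).symm hdg
      rwa [AlgEquiv.symm_apply_apply] at this
    have h3 := hfg h1 h2
    have h4 := h3.map (E K v)
    rwa [AlgEquiv.apply_symm_apply] at h4
  have hF0 : E K v f ≠ 0 := by
    intro h0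
    exact hf0 ((map_eq_zero_iff _ (E K v).injective).mp h0)
  obtain ⟨c', hc', hmem⟩ := ufdgauss (E K v f) (E K v g) hF0 hrel
  have hmem2 : rename (v.succAbove) c' ∈ Ideal.span ({f, g} : Set (R K)) := by
    rw [← E_symm_C]
    rw [Ideal.mem_span_pair] at hmem ⊢
    obtain ⟨a, b, hab⟩ := hmem
    refine ⟨(E K v).symm a, (E K v).symm b, ?_⟩
    rw [← hab, map_add, map_mul, map_mul, AlgEquiv.symm_apply_apply, AlgEquiv.symm_apply_apply]
  set c0 : R K := rename (v.succAbove) c' with hc0
  have hc0ne : c0 ≠ 0 := by
    intro h0
    apply hc'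
    apply rename_injective _ (Fin.succAbove_right_injective (p := v))
    rw [map_zero]
    exact h0
  obtain ⟨n, hn⟩ : ∃ n, homogeneousComponent n c0 ≠ 0 := by
    by_contra hcon
    push Not at hcon
    apply hc0ne
    rw [← sum_homogeneousComponent c0]
    exact Finset.sum_eq_zero fun j _ => hcon j
  refine ⟨n, homogeneousComponent n c0, homogeneousComponent_isHomogeneous n c0, hn, ?_, ?_⟩
  · let _ := MvPolynomial.gradedAlgebra (σ := Fin 3) (R := K)
    have hI : (Ideal.span ({f, g} : Set (R K))).IsHomogeneous (homogeneousSubmodule (Fin 3) K) := by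
      apply Ideal.homogeneous_span
      rintro x (rfl | rfl)
      · exact ⟨m, hf⟩
      · exact ⟨m, hg⟩
    have := hI n hmem2
    rw [← decomposition.decompose'_apply]
    exact this
  · intro s hs j hjl hji
    have hjv : j = v := hv j hjl hji
    subst hjv
    have hs1 : s ∈ c0.support := by
      rw [mem_support_iff, coeff_homogeneousComponent] at hs
      rw [mem_support_iff]
      intro h0
      apply hs
      rw [h0, ite_self]
    by_contra hsv
    have hjvars : j ∈ c0.vars := by
      rw [mem_vars_iff_mem_support]
      exact ⟨s, hs1, Finsupp.mem_support_iff.mpr hsv⟩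
    have := vars_rename (j.succAbove) c' hjvars
    rw [Finset.mem_image] at this
    obtain ⟨t, _, ht⟩ := this
    exact Fin.succAbove_ne j t ht

end Pool.Agent.Lib.MP_d01072_ag.Tf
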