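import Pool.Agent.Lib.MP_d01072_ag.Tf.Spec

/-!
# MP_d01072_ag, Tf/Exc: the ideal generated in degree `D`
-/

set_option autoImplicit false

namespace Pool.Agent.Lib.MP_d01072_ag.Tf

open MvPolynomial

/-- the space of forms is finite-dimensional -/
private theorem finiteFm (K : Type) [Field K] (m : ℕ) : Module.Finite K (Fm K m) :=
  Module.Finite.iff_fg.2 (homogeneousSubmodule_fg (Fin 3) K m)

private theorem choose_step (m : ℕ) : (m + 1 + 2).choose 2 = (m + 2).choose 2 + (m + 2) := by
  have h := Nat.choose_succ_succ (m + 2) 1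
  rw [Nat.choose_one_right] at h
  have e : m + 1 + 2 = (m + 2).succ := rfl
  rw [e, h, add_comm]

private theorem rs_X1 {K : Type} [Field K] (s : K) : rs s (X 1) = Polynomial.X := by
  unfold rs
  rw [aeval_X]
  rfl

private theorem rs_X2 {K : Type} [Field K] (s : K) : rs s (X 2) = 1 := by
  unfold rs
  rw [aeval_X]
  rfl

theorem t_Exc (h1 : S_Line) (h2 : S_Res) (h3 : S_Bin) (h4 : S_Hil) : S_Exc := by
  classical
  intro K _ _ A D e hA hNC
  have hinf : Infinite K := IsAlgClosed.instInfinite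
  have hVF : Vn A D ≤ Fm K D := fun _ hf => hf.1
  obtain ⟨s, hs, hev, hco⟩ := h1 K D (Vn A D) A hVF hNC hA
  obtain ⟨r0, r1, r2, r3, r4⟩ := h2 K A s hs
  obtain ⟨q1, -, -, -, -, -⟩ := h4 K A hA
  -- the spaces
  obtain ⟨V, hV⟩ : ∃ V : ℕ → Submodule K (R K), V = fun l => Vn A D * Fm K l := ⟨_, rfl⟩
  have hVl : ∀ l, V l = Vn A D * Fm K l := fun l => by rw [hV]
  obtain ⟨U, hU⟩ : ∃ U : ℕ → Submodule K (Polynomial K),
    U = fun l => (V l).map (rs s).toLinearMap := ⟨_, rfl⟩
  have hUl : ∀ l, U l = (V l).map (rs s).toLinearMap := fun l => by rw [hU]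
  have hVle : ∀ l, V l ≤ Fm K (D + l) := by
    intro l
    rw [hVl]
    exact (mul_le_mul' hVF le_rfl).trans (homogeneousSubmodule_mul D l)
  have hVfin : ∀ l, Module.Finite K (V l) := by
    intro l
    have := finiteFm K (D + l)
    exact Submodule.finiteDimensional_of_le (hVle l)
  have hUfin : ∀ l, Module.Finite K (U l) := by
    intro l
    have := hVfin l
    rw [hUl]
    infer_instance
  have hV0 : V 0 = Vn A D := by
    rw [hVl]
    change Vn A D * homogeneousSubmodule (Fin 3) K 0 = _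
    rw [homogeneousSubmodule_zero, mul_one]
  have hVs : ∀ l, V l * Fm K 1 = V (l + 1) := by
    intro l
    rw [hVl, hVl, mul_assoc]
    have h5 := homogeneousSubmodule_one_pow (σ := Fin 3) K l
    have h6 := homogeneousSubmodule_one_pow (σ := Fin 3) K (l + 1)
    change _ * (homogeneousSubmodule (Fin 3) K l * homogeneousSubmodule (Fin 3) K 1) =
      _ * homogeneousSubmodule (Fin 3) K (l + 1)
    rw [← h5, ← h6, pow_succ]
  have hUs : ∀ l, U (l + 1) = U l ⊔ xm (U l) := by
    intro l
    have h5 := r4 (D + l) (V l) (hVle l)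
    rw [hVs, ← hUl, ← hUl] at h5
    exact h5
  have hdV : ∀ l, Module.finrank K (V l) + Module.finrank K (U (l + 1)) ≤
      Module.finrank K (V (l + 1)) := by
    intro l
    have h5 := r3 (D + l) (V l) (hVle l)
    rw [hVs, ← hUl] at h5
    exact h5
  have hUle : ∀ l, U l ≤ Polynomial.degreeLE K ((D + l : ℕ) : WithBot ℕ) := by
    intro l
    rw [hUl]
    rintro _ ⟨f, hf, rfl⟩
    exact r0 (D + l) f (hVle l hf)
  have hpow : ∀ (l : ℕ) (i : Fin 3), (X i ^ l : R K) ∈ Fm K l := fun l i =>
    isHomogeneous_X_pow (R := K) i l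
  have hUev : ∀ l, ∀ x : K, ∃ f ∈ U l, f.eval x ≠ 0 := by
    intro l x
    obtain ⟨f, hf, hx⟩ := hev x
    refine ⟨rs s (f * X 2 ^ l), ?_, ?_⟩
    · rw [hUl, hVl]
      exact ⟨_, Submodule.mul_mem_mul hf (hpow l 2), rfl⟩
    · rw [map_mul, map_pow, rs_X2, one_pow, mul_one]
      exact hx
  have hUco : ∀ l, ∃ f ∈ U l, f.coeff (D + l) ≠ 0 := by
    intro l
    obtain ⟨f, hf, hx⟩ := hco
    refine ⟨rs s (f * X 1 ^ l), ?_, ?_⟩
    · rw [hUl, hVl]
      exact ⟨_, Submodule.mul_mem_mul hf (hpow l 1), rfl⟩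
    · rw [map_mul, map_pow, rs_X1, Polynomial.coeff_mul_X_pow]
      exact hx
  have hUne : ∀ l, U l ≠ ⊥ := by
    intro l h5
    obtain ⟨f, hf, hx⟩ := hUco l
    rw [h5, Submodule.mem_bot] at hf
    rw [hf, Polynomial.coeff_zero] at hx
    exact hx rfl
  have hgrow : ∀ l, min (Module.finrank K (U l) + 2) (D + l + 2) ≤
      Module.finrank K (U (l + 1)) := by
    intro l
    rw [hUs]
    exact (h3 K (D + l) (U l) (hUle l) (hUne l)).2 (hUev l) (hUco l)
  -- the dimension of the first space
  have hbase : D + 1 ≤ Module.finrank K (U 0) + Dl A D := by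
    rw [hUl, hV0]
    cases D with
    | zero =>
      rw [r1]
      have e1 := (q1 0).1
      have e2 : (0 + 2).choose 2 = 1 := rfl
      unfold Dl
      rw [if_pos rfl]
      omega
    | succ D =>
      have e1 := (q1 D).1
      have e2 := (q1 (D + 1)).1
      have e3 := choose_step D
      have e4 := r2 D
      unfold Dl
      rw [if_neg (Nat.succ_ne_zero D), Nat.add_sub_cancel]
      omega
  have hmain : ∀ l, D + l + 1 ≤ Module.finrank K (U l) + (Dl A D - l) ∧
      (D + l + 2).choose 2 ≤ Module.finrank K (V l) + Hf A D +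
        ∑ i ∈ Finset.range l, (Dl A D - (i + 1)) := by
    intro l
    induction l with
    | zero =>
      refine ⟨hbase, ?_⟩
      rw [Finset.sum_range_zero, hV0]
      have := (q1 D).1
      rw [add_zero]
      omega
    | succ l ih =>
      have e1 := hgrow l
      have e2 := hdV l
      have e3 := choose_step (D + l)
      rw [Finset.sum_range_succ]
      have e4 : D + (l + 1) + 2 = D + l + 1 + 2 := by omega
      rw [e4, e3]
      obtain ⟨i1, i2⟩ := ih
      have e5 : D + l + 2 ≤ Module.finrank K (U (l + 1)) + (Dl A D - (l + 1)) := by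
        rcases le_total (Module.finrank K (U l) + 2) (D + l + 2) with h6 | h6
        · rw [min_eq_left h6] at e1
          omega
        · rw [min_eq_right h6] at e1
          omega
      exact ⟨by omega, by omega⟩
  have h6 := (hmain e).2
  rw [hVl] at h6
  exact h6

end Pool.Agent.Lib.MP_d01072_ag.Tf
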