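import Pool.Agent.Lib.MP_d01072_ag.Tf.Spec

/-!
MP_d01072_ag, package Tf, module **Fin**: the main lemma when the curves of degree `D` through the
points have no fixed part.
-/

set_option autoImplicit false

namespace Pool.Agent.Lib.MP_d01072_ag.Tf

open MvPolynomial
open scoped Pointwise

private theorem ksum (c e : ℕ) :
    2 * ∑ l ∈ Finset.range e, (c - (l + 1)) + (c - e) * (c - e - 1) = c * (c - 1) := by
  induction e with
  | zero => simp
  | succ e ih =>
    rw [Finset.sum_range_succ, ← ih]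
    have h : 2 * (c - (e + 1)) + (c - (e + 1)) * (c - (e + 1) - 1) = (c - e) * (c - e - 1) := by
      have h1 : c - (e + 1) = (c - e) - 1 := by omega
      rw [h1]
      rcases Nat.eq_zero_or_pos (c - e) with h0 | h0
      · rw [h0]
      · obtain ⟨x, hx⟩ := Nat.exists_eq_succ_of_ne_zero h0.ne'
        rw [hx]
        simp only [Nat.succ_eq_add_one, Nat.add_sub_cancel]
        rcases Nat.eq_zero_or_pos x with h2 | h2
        · subst h2; rfl
        · obtain ⟨y, hy⟩ := Nat.exists_eq_succ_of_ne_zero h2.ne'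
          rw [hy]
          simp only [Nat.succ_eq_add_one, Nat.add_sub_cancel]
          ring
    omega

private theorem nrm_ne {K : Type} [Field K] {a : Fin 3 → K} (h : Nrm a) : a ≠ 0 := by
  obtain ⟨l, hl⟩ := h
  rintro rfl
  exact zero_ne_one hl

private theorem Fm_le (K : Type) [Field K] (e : ℕ) :
    Fm K e ≤ Submodule.span K {g : R K | ∃ b : Fin 3 →₀ ℕ, b.degree = e ∧ g = monomial b 1} := by
  intro f hf
  have hf' : f.IsHomogeneous e := hf
  rw [← support_sum_monomial_coeff f]
  refine Submodule.sum_mem _ fun b hb => ?_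
  have h1 : monomial b (coeff b f) = coeff b f • (monomial b 1 : R K) := by
    rw [smul_monomial, smul_eq_mul, mul_one]
  rw [h1]
  refine Submodule.smul_mem _ _ (Submodule.subset_span ⟨b, ?_, rfl⟩)
  by_contra h
  exact (mem_support_iff.1 hb) (hf'.coeff_eq_zero h)

private theorem partA (h1 : S_Acl) (h2 : S_KerP) (h3 : S_BcP) (h5 : S_Exc)
    (k K : Type) [Field k] [Field K] [Algebra k K] [IsAlgClosed K]
    (A : Finset (Fin 3 → K)) (D e : ℕ) (L : R K →ₗ[K] K) (hA : ∀ a ∈ A, Nrm a)
    (hNC : NC (Vn A D)) (hL : ∀ f ∈ (Vn A D * Fm K e : Submodule K (R K)), L f = 0)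
    (G0 : Finset K) (hG0 : ∀ a ∈ A, ∀ i, a i ∈ Cl k (G0 : Set K)) :
    ∃ G : Finset K, G.card ≤ G0.card + (Hf A D + ∑ l ∈ Finset.range e, (Dl A D - (l + 1))) ∧
      ∀ s : Fin 3 →₀ ℕ, s.degree = D + e → L (monomial s 1) ∈ Cl k (G : Set K) := by
  classical
  set q := Hf A D + ∑ l ∈ Finset.range e, (Dl A D - (l + 1)) with hq
  set S1 : Set (R K) := {g : R K | g ∈ Vn A D ∧ ∀ s, coeff s g ∈ Cl k (G0 : Set K)} with hS1
  set S2 : Set (R K) := {g : R K | ∃ b : Fin 3 →₀ ℕ, b.degree = e ∧ g = monomial b 1} with hS2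
  set P : Set (R K) := S1 * S2 with hP
  have hspan : Submodule.span K P = Vn A D * Fm K e := by
    rw [hP, ← Submodule.span_mul_span]
    apply le_antisymm
    · refine mul_le_mul' ?_ ?_
      · exact Submodule.span_le.2 fun g hg => hg.1
      · refine Submodule.span_le.2 ?_
        rintro g ⟨b, hb, rfl⟩
        exact isHomogeneous_monomial 1 hb
    · exact mul_le_mul' (fun f hf => h2 K (Cl k (G0 : Set K)) A D hG0 f hf) (Fm_le K e)
  have hPL : ∀ f ∈ P, L f = 0 := fun f hf => hL f (hspan ▸ Submodule.subset_span hf)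
  have hPh : ∀ f ∈ P, f.IsHomogeneous (D + e) ∧ ∀ s, coeff s f ∈ Cl k (G0 : Set K) := by
    rintro f ⟨g, hg, u, ⟨b, hb, rfl⟩, rfl⟩
    refine ⟨hg.1.1.mul (isHomogeneous_monomial 1 hb), fun s => ?_⟩
    simp only
    rw [coeff_mul_monomial']
    split_ifs with h
    · rw [mul_one]
      exact hg.2 _
    · exact zero_mem _
  have hrk : (D + e + 2).choose 2 ≤ Module.finrank K (Submodule.span K P) + q := by
    rw [hspan, hq]
    have := h5 K A D e (fun a ha => nrm_ne (hA a ha)) hNC
    omega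
  obtain ⟨M, hM, hM2⟩ := h3 K (Cl k (G0 : Set K)) (D + e) q P hPh hrk
  set G : Finset K := G0 ∪ M.image (fun s => L (monomial s 1)) with hG
  have hGs : (G : Set K) ⊆ (Cl k (G : Set K) : Set K) := (h1 k K (G : Set K) ∅).1
  refine ⟨G, ?_, fun s hs => hM2 L (Cl k (G : Set K)) ?_ ?_ ?_ s hs⟩
  · refine (Finset.card_union_le _ _).trans ?_
    have := Finset.card_image_le (s := M) (f := fun s => L (monomial s 1))
    omega
  · refine (h1 k K (G0 : Set K) (G : Set K)).2.1 (Set.Subset.trans ?_ hGs)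
    rw [hG]
    exact_mod_cast Finset.subset_union_left
  · intro f hf
    rw [hPL f hf]
    exact zero_mem _
  · intro s hs
    refine hGs ?_
    rw [hG]
    exact Finset.mem_coe.2 (Finset.mem_union_right _ (Finset.mem_image_of_mem _ hs))

/-- two coordinates of each point -/
private theorem two_coord (h1 : S_Acl) (k K : Type) [Field k] [Field K] [Algebra k K]
    (A : Finset (Fin 3 → K)) (hA : ∀ a ∈ A, Nrm a) :
    ∃ G : Finset K, (∀ a ∈ A, ∀ i, a i ∈ Cl k (G : Set K)) ∧ G.card ≤ 2 * A.card := by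
  classical
  choose! l hl using hA
  refine ⟨A.biUnion fun a => (Finset.univ.erase (l a)).image a, ?_, ?_⟩
  · intro a ha i
    by_cases hi : i = l a
    · rw [hi, hl a ha]
      exact one_mem _
    · refine (h1 k K _ ∅).1 ?_
      exact Finset.mem_coe.2 (Finset.mem_biUnion.2 ⟨a, ha, Finset.mem_image_of_mem _
        (Finset.mem_erase.2 ⟨hi, Finset.mem_univ _⟩)⟩)
  · rw [mul_comm]
    refine Finset.card_biUnion_le_card_mul _ _ _ fun a _ => Finset.card_image_le.trans ?_
    rw [Finset.card_erase_of_mem (Finset.mem_univ _)]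
    rfl

private theorem Vn_succ {K : Type} [Field K] (A : Finset (Fin 3 → K)) (m : ℕ) (h : Vn A m ≠ ⊥) :
    Vn A (m + 1) ≠ ⊥ := by
  obtain ⟨f, hf, hf0⟩ := (Submodule.ne_bot_iff _).1 h
  refine (Submodule.ne_bot_iff _).2 ⟨f * X 0, ⟨hf.1.mul (isHomogeneous_X K 0), fun a ha => ?_⟩,
    mul_ne_zero hf0 (X_ne_zero 0)⟩
  rw [map_mul, hf.2 a ha, zero_mul]

theorem t_Fin (h1 : S_Acl) (h2 : S_KerP) (h3 : S_BcP) (h4 : S_Hil) (h5 : S_Exc) (h6 : S_Gcd)
    (h7 : S_Ind) (h8 : S_Par) (h9 : S_FinNum) : S_Fin := by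
  intro k K _ _ _ _ A D e L hA hr hNC hcard hL
  classical
  obtain ⟨n1, n2, n3, n4⟩ := h9
  obtain ⟨g1, g2, g3, g4, g5, g6⟩ := h4 K A (fun a ha => nrm_ne (hA a ha))
  set c := Dl A D with hc
  set kk := ∑ l ∈ Finset.range e, (c - (l + 1)) with hkk
  have hk2 : 2 * kk ≤ c * (c - 1) := by
    have := ksum c e
    omega
  -- it is enough to find `G0`
  have key : ∀ G0 : Finset K, (∀ a ∈ A, ∀ i, a i ∈ Cl k (G0 : Set K)) →
      G0.card + (A.card + kk) ≤ 3 * A.card →
      ∃ G : Finset K, G.card ≤ 3 * A.card ∧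
        ∀ s : Fin 3 →₀ ℕ, s.degree = D + e → L (monomial s 1) ∈ Cl k (G : Set K) := by
    intro G0 hG0 hb
    obtain ⟨G, hG, hG2⟩ := partA h1 h2 h3 h5 k K A D e L hA hNC hL G0 hG0
    rw [hr] at hG
    exact ⟨G, hG.trans hb, hG2⟩
  rcases Nat.lt_or_ge c 2 with hc2 | hc2
  · obtain ⟨G0, hG0, hcd⟩ := two_coord h1 k K A hA
    refine key G0 hG0 ?_
    have : c * (c - 1) = 0 := by
      have : c - 1 = 0 := by omega
      rw [this, mul_zero]
    omega
  · -- monotonicity
    have mono : ∀ j n : ℕ, Vn A j ≠ ⊥ → Vn A (j + n) ≠ ⊥ ∧ Dl A (j + n) ≤ Dl A j := by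
      intro j n hj
      induction n with
      | zero => exact ⟨hj, le_rfl⟩
      | succ n ih => exact ⟨Vn_succ A (j + n) ih.1, (g4 (j + n) ih.1).trans ih.2⟩
    have hcD : c ≤ D + 1 := g3 D
    have h2c : 2 * c ≤ D := by
      refine n1 D c A.card (Dl A) (by rw [g5 D, hr]) (fun j hj => ?_) hcD hcard
      by_cases hb : Vn A j = ⊥
      · rw [g6 j hb]
        exact min_le_left _ _
      · have := (mono j (D - j) hb).2
        rw [Nat.add_sub_cancel' hj] at this
        exact (min_le_right _ _).trans this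
    obtain ⟨i, hi⟩ : ∃ i, i = (c + 2) / 4 := ⟨_, rfl⟩
    obtain ⟨m, hm⟩ : ∃ m, m = D - i := ⟨_, rfl⟩
    have hmi : m + i = D := by omega
    have hc4 : c ≤ 4 * i + 1 := by omega
    have hVm : Vn A m ≠ ⊥ := by
      intro hb
      have e1 := (g1 m).1
      have e2 := (g1 m).2
      rw [hb, finrank_bot, add_zero] at e1
      have e3 := n2 D c A.card h2c hcard
      rw [← hi, ← hm] at e3
      omega
    have hstep : ∀ n : ℕ, n ≤ i → Hf A m + n * c ≤ Hf A (m + n) := by
      intro n
      induction n with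
      | zero => intro _; simp
      | succ n ih =>
        intro hn
        have e1 := ih (by omega)
        have e2 : Hf A (m + (n + 1)) = Hf A (m + n) + Dl A (m + n + 1) := by
          rw [← g5 (m + (n + 1)), ← g5 (m + n), ← Finset.sum_range_succ]
          rfl
        have e3 : c ≤ Dl A (m + n + 1) := by
          have e4 := (mono m (n + 1) hVm).1
          have e5 := (mono (m + (n + 1)) (D - (m + (n + 1))) e4).2
          rw [Nat.add_sub_cancel' (by omega)] at e5
          exact e5
        rw [e2, Nat.succ_mul]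
        omega
    have hHm : Hf A m + i * c ≤ A.card := by
      have := hstep i le_rfl
      rw [hmi, hr] at this
      exact this
    obtain ⟨t, F, ht, hFh, hF0, -, hNC2, -, hHf⟩ := h6 K A m hVm
    have hti : t + 2 * i ≤ D := by
      by_contra hcon
      have := n3 D c A.card t hc2 h2c (by omega) (by omega) (by
        rw [← hi, ← hm]
        omega)
      omega
    obtain ⟨G0, hG0, hcd⟩ := h8 k K A t (m - t) F hA hFh hF0 hNC2
    refine key G0 hG0 ?_
    set B : Finset (Fin 3 → K) := A.filter fun a => eval a F = 0 with hB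
    have hBA : B ⊆ A := Finset.filter_subset _ _
    have hsum : B.card + (off A F).card = A.card := by
      have := Finset.card_filter_add_card_filter_not (s := A) (fun a => eval a F = 0)
      rw [← this]
      congr 1
    have hBc : B.card + (D - t + 2).choose 2 ≤ (D + 2).choose 2 := by
      have e1 : Hf B D = B.card := (h7 K A D).2.1 hr B hBA
      exact (h7 K B D).2.2.1 e1 t F (by omega) hFh hF0 fun a ha => (Finset.mem_filter.1 ha).2
    exact n4 D c A.card t i m G0.card B.card (Hf (off A F) (m - t)) (Hf A m) kk hmi ht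
      (Or.inr hti) hc4 (by omega) hHf hHm hBc hk2

end Pool.Agent.Lib.MP_d01072_ag.Tf
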