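import Pool.Agent.Lib.MP_d01072_ag.Tf.Spec

set_option autoImplicit false

namespace Pool.Agent.Lib.MP_d01072_ag.Tf

private theorem two_choose (n : ℕ) : 2 * (n + 2).choose 2 = (n + 1) * (n + 2) := by
  induction n with
  | zero => rfl
  | succ n ih =>
    have h1 : (n + 1 + 2).choose 2 = (n + 2).choose 1 + (n + 2).choose 2 :=
      Nat.choose_succ_succ (n + 2) 1
    rw [h1, Nat.choose_one_right, mul_add, ih]
    ring

private theorem two_choose' (n : ℕ) : 2 * (n + 1).choose 2 = n * (n + 1) := by
  cases n with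
  | zero => rfl
  | succ n => exact two_choose n

private theorem sum_min (c n : ℕ) (h : c ≤ n) :
    2 * ∑ j ∈ Finset.range n, min (j + 1) c + c * c = c * (2 * n + 1) := by
  induction n, h using Nat.le_induction with
  | base =>
    have h1 : ∑ j ∈ Finset.range c, min (j + 1) c = ∑ j ∈ Finset.range c, (j + 1) :=
      Finset.sum_congr rfl fun j hj => by
        have := Finset.mem_range.1 hj
        exact min_eq_left (by omega)
    rw [h1]
    have h2 : ∀ c : ℕ, 2 * ∑ j ∈ Finset.range c, (j + 1) = c * (c + 1) := by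
      intro c
      induction c with
      | zero => rfl
      | succ c ih => rw [Finset.sum_range_succ, mul_add, ih]; ring
    rw [h2]
    ring
  | succ n hn ih =>
    rw [Finset.sum_range_succ, min_eq_right (by omega : c ≤ n + 1)]
    nlinarith [ih]

theorem t_FinNum : S_FinNum := by
  refine ⟨?_, ?_, ?_, ?_⟩
  · intro D c r Δ hr hΔ hc h24
    by_contra hcon
    have hcon' : D + 1 ≤ 2 * c := by omega
    have h1 := sum_min c (D + 1) hc
    have h2 : ∑ j ∈ Finset.range (D + 1), min (j + 1) c ≤ r := by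
      rw [← hr]
      exact Finset.sum_le_sum fun j hj => hΔ j (by
        have := Finset.mem_range.1 hj
        omega)
    obtain ⟨s, hs⟩ := Nat.exists_eq_add_of_le hcon'
    obtain ⟨u, hu⟩ := Nat.exists_eq_add_of_le hc
    have h3 : c * (2 * (D + 1) + 1) ≤ 2 * r + c * c := by
      rw [← h1]
      omega
    have hD : D = c + u - 1 ∧ c + u ≥ 1 := by omega
    zify at h24 h3 hs hu ⊢
    have hc2 : (c : ℤ) = D + 1 - u := by linarith
    have hs2 : (s : ℤ) = D + 1 - 2 * u := by linarith
    have hs0 : (0 : ℤ) ≤ s := Int.natCast_nonneg s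
    have hu0 : (0 : ℤ) ≤ u := Int.natCast_nonneg u
    have hD0 : (0 : ℤ) ≤ D := Int.natCast_nonneg D
    rw [hc2] at h3
    have hs3 : (0 : ℤ) ≤ D + 1 - 2 * u := by linarith
    nlinarith [mul_nonneg hs3 hu0, mul_nonneg hs3 hD0, mul_nonneg hs3 hs3, mul_nonneg hu0 hD0]
  · intro D c r hc h24
    set i := (c + 2) / 4 with hi
    have hi8 : 8 * i ≤ D + 4 := by omega
    have hiD : i ≤ D := by omega
    obtain ⟨m, hm⟩ := Nat.exists_eq_add_of_le hiD
    have hm2 : D - i + 2 = m + 2 := by omega
    rw [hm2]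
    have h1 := two_choose m
    have h2 : 7 * D ≤ 8 * m + 4 := by omega
    have h3 : (7 * D + 4) * (7 * D + 12) ≤ (8 * (m + 1)) * (8 * (m + 2)) :=
      Nat.mul_le_mul (by omega) (by omega)
    nlinarith
  · intro D c r t hc2 hc ht hD h
    set i := (c + 2) / 4 with hi
    have hi8 : 8 * i ≤ D + 4 := by omega
    have hi1 : 1 ≤ i := by omega
    have hiD : i ≤ D := by omega
    obtain ⟨m, hm⟩ := Nat.exists_eq_add_of_le hiD
    obtain ⟨j, hj⟩ := Nat.exists_eq_add_of_le hi1
    have hm2 : D - i + 2 = m + 2 := by omega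
    have h5 : D - i - t + 2 ≤ i + 1 := by omega
    have h6 : (D - i - t + 2).choose 2 ≤ (i + 1).choose 2 := Nat.choose_le_choose 2 h5
    have h7 := two_choose' i
    have h8 := two_choose m
    rw [hm2] at h
    have h9 : 2 ≤ i * c := by nlinarith
    have h10 : 3 * D + 4 * (2 * i) ≤ 4 * (D + 1) := by omega
    have h11 : 2 * i * (D + 2) * 4 + 3 * D * (D + 2) ≤ 4 * ((D + 1) * (D + 2)) := by nlinarith
    have h12 : (m + 1) * (m + 2) + 2 * i * (D + 2) = i * (i + 1) + (D + 1) * (D + 2) := by
      rw [hm]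
      ring
    nlinarith
  · intro D c r t i m G0 ρ H2 Hm k hmi htm htc hc h1 h2 h3 h4 h5
    obtain ⟨w, hw⟩ := Nat.exists_eq_add_of_le htm
    have e1 : m - t + 2 = w + 2 := by omega
    have e2 : D - t + 2 = (w + i) + 2 := by omega
    rw [e1] at h2
    rw [e2] at h4
    have a1 := two_choose t
    have a2 := two_choose w
    have a3 := two_choose m
    have a4 := two_choose (w + i)
    have a5 := two_choose D
    have hD : D = t + w + i := by omega
    have h6 : c * (c - 1) ≤ 4 * (i * c) := by
      have : c - 1 ≤ 4 * i := by omega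
      calc c * (c - 1) ≤ c * (4 * i) := Nat.mul_le_mul_left _ this
        _ = 4 * (i * c) := by ring
    have h7 : t * i ≤ t * w := by
      rcases htc with h | h
      · rw [h]; simp
      · exact Nat.mul_le_mul_left _ (by omega)
    rw [hD] at a5 h4
    rw [hw] at a3 h2
    generalize (t + 2).choose 2 = x1 at *
    generalize (w + 2).choose 2 = x2 at *
    generalize (t + w + 2).choose 2 = x3 at *
    generalize (w + i + 2).choose 2 = x4 at *
    generalize (t + w + i + 2).choose 2 = x5 at *
    nlinarith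

end Pool.Agent.Lib.MP_d01072_ag.Tf
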