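import Pool.Agent.Lib.MP_d01072_ag.Tf.Spec

/-!
MP_d01072_ag, package Tf: `t_Gcd` (the fixed part).
-/

set_option autoImplicit false

namespace Pool.Agent.Lib.MP_d01072_ag.Tf

open MvPolynomial

open Classical in
private theorem gcd_vn_span {K : Type} [Field K] (B : Finset (Fin 3 → K)) (n : ℕ) :
    Vn B n ≤ Submodule.span K (((Finset.finsuppAntidiag Finset.univ n).image
      (fun s : Fin 3 →₀ ℕ => monomial s (1 : K)) : Finset (R K)) : Set (R K)) := by
  intro f hf
  rw [f.as_sum]
  refine Submodule.sum_mem _ fun s hs => ?_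
  have h1 : monomial s (coeff s f) = coeff s f • monomial s (1 : K) := by
    rw [smul_monomial, smul_eq_mul, mul_one]
  rw [h1]
  refine Submodule.smul_mem _ _ (Submodule.subset_span ?_)
  rw [Finset.coe_image]
  refine ⟨s, ?_, rfl⟩
  rw [Finset.mem_coe, Finset.mem_finsuppAntidiag]
  refine ⟨?_, Finset.subset_univ _⟩
  have h2 := hf.1 (mem_support_iff.1 hs)
  have h3 : s.degree = n := by
    rw [Finsupp.degree_eq_weight_one]
    exact h2
  rw [← h3, Finsupp.degree_eq_sum]

private theorem gcd_vn_le {K : Type} [Field K] (B : Finset (Fin 3 → K)) (n : ℕ) :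
    Module.finrank K (Vn B n) ≤ (n + 2).choose 2 := by
  classical
  refine (Submodule.finrank_mono (gcd_vn_span B n)).trans ?_
  refine (finrank_span_finset_le_card _).trans ?_
  refine Finset.card_image_le.trans ?_
  rw [Finset.card_finsuppAntidiag_nat_eq_choose, Finset.card_univ, Fintype.card_fin]
  have h : 3 + n - 1 = n + 2 := by omega
  rw [h, Nat.choose_symm_add]

theorem t_Gcd (h1 : S_HFac) : S_Gcd := by
  classical
  intro K _ A m hV
  obtain ⟨f0, hf0, hf00⟩ := (Submodule.ne_bot_iff _).1 hV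
  obtain ⟨P, hP⟩ : ∃ P : ℕ → Prop, P = fun t => ∃ F : R K, F.IsHomogeneous t ∧ F ≠ 0 ∧
      ∀ f ∈ Vn A m, F ∣ f := ⟨_, rfl⟩
  have hP0 : P 0 := by
    rw [hP]
    exact ⟨1, isHomogeneous_one _ _, one_ne_zero, fun f _ => one_dvd f⟩
  have hPm : ∀ t, P t → t ≤ m := by
    intro t ht
    rw [hP] at ht
    obtain ⟨F, hF, hF0, hd⟩ := ht
    obtain ⟨t', ht', hF'⟩ := h1 K f0 F m hf0.1 hf00 (hd f0 hf0)
    rw [hF.inj_right hF' hF0]
    exact ht'
  obtain ⟨t, ht, hmax⟩ : ∃ t, P t ∧ ∀ t', P t' → t' ≤ t :=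
    ⟨Nat.findGreatest P m, Nat.findGreatest_spec (Nat.zero_le m) hP0,
      fun t' ht' => Nat.le_findGreatest (hPm t' ht') ht'⟩
  have htm := hPm t ht
  have ht2 := ht
  rw [hP] at ht2
  obtain ⟨F, hF, hF0, hd⟩ := ht2
  have hup : ∀ g ∈ Vn (off A F) (m - t), F * g ∈ Vn A m := by
    intro g hg
    refine ⟨?_, fun a ha => ?_⟩
    · have h := hF.mul hg.1
      rwa [Nat.add_sub_cancel' htm] at h
    · rw [map_mul]
      by_cases h0 : eval a F = 0
      · rw [h0, zero_mul]
      · rw [hg.2 a (by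
          unfold off
          exact Finset.mem_filter.2 ⟨ha, h0⟩), mul_zero]
  have hdown : ∀ f ∈ Vn A m, ∃ g ∈ Vn (off A F) (m - t), F * g = f := by
    intro f hf
    obtain ⟨g, hg⟩ := hd f hf
    refine ⟨g, ⟨?_, fun a ha => ?_⟩, hg.symm⟩
    · by_cases hg0 : g = 0
      · rw [hg0]
        exact isHomogeneous_zero _ _ _
      · have hfne : f ≠ 0 := by
          rw [hg]
          exact mul_ne_zero hF0 hg0
        obtain ⟨t', ht', hg'⟩ := h1 K f g m hf.1 hfne ⟨F, by rw [hg, mul_comm]⟩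
        have h := hF.mul hg'
        rw [← hg] at h
        have h2 := h.inj_right hf.1 hfne
        have h3 : t' = m - t := by omega
        rw [← h3]
        exact hg'
    · unfold off at ha
      have ha2 := Finset.mem_filter.1 ha
      have h := hf.2 a ha2.1
      rw [hg, map_mul] at h
      exact (mul_eq_zero.1 h).resolve_left ha2.2
  have hfr : Module.finrank K (Vn (off A F) (m - t)) = Module.finrank K (Vn A m) := by
    let φ : Vn (off A F) (m - t) →ₗ[K] Vn A m :=
      { toFun := fun g => ⟨F * g.1, hup g.1 g.2⟩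
        map_add' := fun g g' => Subtype.ext (mul_add F g.1 g'.1)
        map_smul' := fun c g => Subtype.ext (mul_smul_comm c F g.1) }
    have hφ : Function.Bijective φ := by
      refine ⟨fun g g' hgg => ?_, fun f => ?_⟩
      · have h : F * g.1 = F * g'.1 := congrArg Subtype.val hgg
        exact Subtype.ext (mul_left_cancel₀ hF0 h)
      · obtain ⟨g, hg, hgf⟩ := hdown f.1 f.2
        exact ⟨⟨g, hg⟩, Subtype.ext hgf⟩
    exact (LinearEquiv.ofBijective φ hφ).finrank_eq
  refine ⟨t, F, htm, hF, hF0, hd, ?_, hup, ?_⟩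
  · intro u h hu hh hcon
    have hh0 : h ≠ 0 := by
      rintro rfl
      obtain ⟨g, hg, hgf⟩ := hdown f0 hf0
      have h2 := zero_dvd_iff.1 (hcon g hg)
      rw [h2, mul_zero] at hgf
      exact hf00 hgf.symm
    have hPt : P (t + u) := by
      rw [hP]
      refine ⟨F * h, hF.mul hh, mul_ne_zero hF0 hh0, fun f hf => ?_⟩
      obtain ⟨g, hg, hgf⟩ := hdown f hf
      rw [← hgf]
      exact mul_dvd_mul_left F (hcon g hg)
    have := hmax _ hPt
    omega
  · have h2 := gcd_vn_le A m
    have h3 := gcd_vn_le (off A F) (m - t)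
    unfold Hf
    rw [hfr] at h3 ⊢
    omega

end Pool.Agent.Lib.MP_d01072_ag.Tf
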