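import Pool.Agent.Lib.MP_d01072_ag.Tf.Spec

set_option autoImplicit false

namespace Pool.Agent.Lib.MP_d01072_ag.Tf

open MvPolynomial

private noncomputable def hfPhi (K : Type) [Field K] : R K →ₐ[K] Polynomial (R K) :=
  aeval (fun i => Polynomial.C (X i) * Polynomial.X)

private theorem hfPhi_hom {K : Type} [Field K] {p : R K} {n : ℕ} (hp : p.IsHomogeneous n) :
    hfPhi K p = Polynomial.C p * Polynomial.X ^ n := by
  unfold hfPhi
  rw [aeval_def, eval₂_eq']
  conv_rhs => rw [p.as_sum, map_sum, Finset.sum_mul]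
  refine Finset.sum_congr rfl fun s hs => ?_
  have hn : ∑ i, s i = n := by
    have h1 := hp (mem_support_iff.mp hs)
    rw [Finsupp.weight_apply] at h1
    rw [← h1, Finsupp.sum_fintype]
    · simp
    · simp
  rw [monomial_eq, Finsupp.prod_fintype _ _ (by simp)]
  simp only [mul_pow, Finset.prod_mul_distrib, Finset.prod_pow_eq_pow_sum, hn, map_mul, map_prod,
    map_pow]
  rw [← mul_assoc]
  rfl

private theorem hfPhi_coeff {K : Type} [Field K] (g : R K) (j : ℕ) :
    (hfPhi K g).coeff j = homogeneousComponent j g := by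
  conv_lhs => rw [← sum_homogeneousComponent g]
  rw [map_sum, Polynomial.finsetSum_coeff]
  have h1 : ∀ i ∈ Finset.range (g.totalDegree + 1),
      (hfPhi K (homogeneousComponent i g)).coeff j =
        if i = j then homogeneousComponent j g else 0 := by
    intro i _
    rw [hfPhi_hom (homogeneousComponent_isHomogeneous i g), Polynomial.coeff_C_mul_X_pow]
    by_cases h : i = j
    · subst h; simp
    · rw [if_neg (fun h' => h h'.symm), if_neg h]
  rw [Finset.sum_congr rfl h1, Finset.sum_ite_eq']
  split_ifs with h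
  · rfl
  · rw [homogeneousComponent_eq_zero]
    simp only [Finset.mem_range, not_lt] at h
    omega

/-- `HFac` -/
theorem t_HFac : S_HFac := by
  intro K _ f g m hf hf0 hdvd
  obtain ⟨h, rfl⟩ := hdvd
  have hfx := hfPhi_hom hf
  rw [map_mul] at hfx
  have hg0 : g ≠ 0 := left_ne_zero_of_mul hf0
  have hh0 : h ≠ 0 := right_ne_zero_of_mul hf0
  have hrhs : Polynomial.C (g * h) * Polynomial.X ^ m ≠ (0 : Polynomial (R K)) :=
    mul_ne_zero (by simpa using ⟨hg0, hh0⟩) (pow_ne_zero _ Polynomial.X_ne_zero)
  have hG : hfPhi K g ≠ 0 := left_ne_zero_of_mul (hfx ▸ hrhs)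
  have hH : hfPhi K h ≠ 0 := right_ne_zero_of_mul (hfx ▸ hrhs)
  have e1 : (hfPhi K g).natDegree + (hfPhi K h).natDegree = m := by
    rw [← Polynomial.natDegree_mul hG hH, hfx, Polynomial.natDegree_C_mul_X_pow _ _ hf0]
  have e2 : (hfPhi K g).natTrailingDegree + (hfPhi K h).natTrailingDegree = m := by
    rw [← Polynomial.natTrailingDegree_mul hG hH, hfx]
    rw [Polynomial.C_mul_X_pow_eq_monomial, Polynomial.natTrailingDegree_monomial hf0]
  have e3 := Polynomial.natTrailingDegree_le_natDegree (hfPhi K g)
  have e4 := Polynomial.natTrailingDegree_le_natDegree (hfPhi K h)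
  refine ⟨(hfPhi K g).natDegree, by omega, ?_⟩
  have hz : ∀ j, j ≠ (hfPhi K g).natDegree → homogeneousComponent j g = 0 := by
    intro j hj
    rw [← hfPhi_coeff]
    rcases lt_or_gt_of_ne hj with h | h
    · exact Polynomial.coeff_eq_zero_of_lt_natTrailingDegree (by omega)
    · exact Polynomial.coeff_eq_zero_of_natDegree_lt h
  have hg : g = homogeneousComponent (hfPhi K g).natDegree g := by
    conv_lhs => rw [← sum_homogeneousComponent g]
    by_cases hm : (hfPhi K g).natDegree ∈ Finset.range (g.totalDegree + 1)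
    · rw [Finset.sum_eq_single_of_mem _ hm]
      intro j _ hj
      exact hz j hj
    · exfalso
      apply hg0
      rw [← sum_homogeneousComponent g]
      refine Finset.sum_eq_zero fun j hj => hz j ?_
      rintro rfl
      exact hm hj
  have h5 := homogeneousComponent_isHomogeneous (hfPhi K g).natDegree g
  rw [← hg] at h5
  exact h5

end Pool.Agent.Lib.MP_d01072_ag.Tf
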