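import Pool.Agent.Lib.MP_d01072_ag.Tf.Spec

/-!
# MP_d01072_ag, Tf/Hil: Hilbert functions of points of the plane
-/

set_option autoImplicit false

namespace Pool.Agent.Lib.MP_d01072_ag.Tf

open MvPolynomial

/-! ## The dimension of the space of forms -/

private theorem finrank_Fm (K : Type) [Field K] (m : ℕ) :
    Module.finrank K (Fm K m) = (m + 2).choose 2 := by
  classical
  have h1 : Fm K m = Submodule.span K (Set.range
      fun d : {d // d ∈ (Finset.univ : Finset (Fin 3)).finsuppAntidiag m} =>
        (monomial d.1 1 : R K)) := by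
    change homogeneousSubmodule (Fin 3) K m = _
    rw [homogeneousSubmodule_eq_finsupp_supported, AddMonoidAlgebra.supported_eq_span_single]
    congr 1
    ext f
    constructor
    · rintro ⟨d, hd, rfl⟩
      refine ⟨⟨d, ?_⟩, rfl⟩
      rw [Finset.mem_finsuppAntidiag]
      refine ⟨?_, Finset.subset_univ _⟩
      rw [← Finsupp.degree_eq_sum]
      exact hd
    · rintro ⟨⟨d, hd⟩, rfl⟩
      refine ⟨d, ?_, rfl⟩
      rw [Finset.mem_finsuppAntidiag, ← Finsupp.degree_eq_sum] at hd
      exact hd.1
  have h2 : LinearIndependent K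
      fun d : {d // d ∈ (Finset.univ : Finset (Fin 3)).finsuppAntidiag m} =>
        (monomial d.1 1 : R K) := by
    have h3 := (basisMonomials (Fin 3) K).linearIndependent.comp
      (fun d : {d // d ∈ (Finset.univ : Finset (Fin 3)).finsuppAntidiag m} => d.1)
      Subtype.val_injective
    refine (linearIndependent_equiv' (Equiv.refl _) ?_).1 h3
    funext d
    change (monomial d.1 1 : R K) = basisMonomials (Fin 3) K d.1
    rw [coe_basisMonomials]
  rw [h1, finrank_span_eq_card h2, Fintype.card_coe, Finset.card_finsuppAntidiag_nat_eq_choose,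
    Finset.card_univ, Fintype.card_fin]
  have h4 : 3 + m - 1 = m + 2 := by omega
  rw [h4]
  have h5 := Nat.choose_symm_add (a := m) (b := 2)
  exact h5

private instance finite_Fm (K : Type) [Field K] (m : ℕ) : Module.Finite K (Fm K m) := by
  have h := finrank_Fm K m
  refine Module.finite_of_finrank_pos ?_
  rw [h]
  exact Nat.choose_pos (by omega)

private theorem Vn_le {K : Type} [Field K] (A : Finset (Fin 3 → K)) (m : ℕ) : Vn A m ≤ Fm K m :=
  fun _ hf => hf.1

private instance finite_Vn {K : Type} [Field K] (A : Finset (Fin 3 → K)) (m : ℕ) :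
    Module.Finite K (Vn A m) :=
  Submodule.finiteDimensional_of_le (Vn_le A m)

private theorem finrank_degreeLE (K : Type) [Field K] (m : ℕ) :
    Module.finrank K (Polynomial.degreeLE K (m : WithBot ℕ)) ≤ m + 1 ∧
      Module.Finite K (Polynomial.degreeLE K (m : WithBot ℕ)) := by
  classical
  rw [Polynomial.degreeLE_eq_span_X_pow]
  refine ⟨(finrank_span_finset_le_card _).trans (Finset.card_image_le.trans ?_),
    FiniteDimensional.span_finset K _⟩
  rw [Finset.card_range]

/-- A good line. -/
private theorem exists_Av {K : Type} [Field K] [Infinite K] (A : Finset (Fin 3 → K))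
    (hA : ∀ a ∈ A, a ≠ 0) : ∃ s, Av A s := by
  classical
  obtain ⟨P, hP⟩ : ∃ P : Polynomial K, P = ∏ a ∈ A, (Polynomial.C (a 0) +
    Polynomial.C (a 1) * Polynomial.X + Polynomial.C (a 2) * Polynomial.X ^ 2) := ⟨_, rfl⟩
  have hP0 : P ≠ 0 := by
    rw [hP]
    refine Finset.prod_ne_zero_iff.2 fun a ha h0 => hA a ha ?_
    have e0 := congrArg (fun Q : Polynomial K => Q.coeff 0) h0
    have e1 := congrArg (fun Q : Polynomial K => Q.coeff 1) h0
    have e2 := congrArg (fun Q : Polynomial K => Q.coeff 2) h0
    simp [Polynomial.coeff_X, Polynomial.coeff_C, Polynomial.coeff_X_pow] at e0 e1 e2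
    funext i
    fin_cases i
    · exact e0
    · exact e1
    · exact e2
  obtain ⟨s, hs⟩ : ∃ s : K, ¬ P.IsRoot s := by
    by_contra hcon
    push Not at hcon
    exact hP0 (Polynomial.funext fun s => by rw [Polynomial.eval_zero]; exact hcon s)
  refine ⟨s, fun a ha h0 => hs ?_⟩
  rw [Polynomial.IsRoot.def, hP, Polynomial.eval_prod]
  refine Finset.prod_eq_zero ha ?_
  rw [← h0]
  simp only [Polynomial.eval_add, Polynomial.eval_mul, Polynomial.eval_C, Polynomial.eval_X,
    Polynomial.eval_pow]
  ring

/-! ## Evaluation -/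

private theorem finrank_Vn_ge {K : Type} [Field K] (A : Finset (Fin 3 → K)) (m : ℕ) :
    (m + 2).choose 2 ≤ Module.finrank K (Vn A m) + A.card := by
  classical
  let φ : Fm K m →ₗ[K] (A → K) :=
    { toFun := fun f a => eval a.1 f.1
      map_add' := fun f g => by
        funext a
        exact map_add _ _ _
      map_smul' := fun c f => by
        funext a
        change eval a.1 (c • f.1) = c • eval a.1 f.1
        rw [smul_eval, smul_eq_mul] }
  have h1 := LinearMap.finrank_range_add_finrank_ker φ
  rw [finrank_Fm] at h1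
  have h2 : Module.finrank K (LinearMap.range φ) ≤ A.card := by
    refine (Submodule.finrank_le _).trans ?_
    rw [Module.finrank_fintype_fun_eq_card, Fintype.card_coe]
  have h3 : Module.finrank K (LinearMap.ker φ) ≤ Module.finrank K (Vn A m) := by
    have h4 : Module.finrank K ((LinearMap.ker φ).map (Fm K m).subtype) =
        Module.finrank K (LinearMap.ker φ) :=
      LinearEquiv.finrank_eq (Submodule.equivMapOfInjective _ (Fm K m).injective_subtype _).symm
    rw [← h4]
    refine Submodule.finrank_mono ?_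
    rintro _ ⟨f, hf, rfl⟩
    refine ⟨f.2, fun a ha => ?_⟩
    exact congrFun (LinearMap.mem_ker.1 hf) ⟨a, ha⟩
  omega

private theorem finrank_Vn_le {K : Type} [Field K] (A : Finset (Fin 3 → K)) (m : ℕ) :
    Module.finrank K (Vn A m) ≤ (m + 2).choose 2 := by
  rw [← finrank_Fm K m]
  exact Submodule.finrank_mono (Vn_le A m)

private theorem choose_step (m : ℕ) : (m + 1 + 2).choose 2 = (m + 2).choose 2 + (m + 2) := by
  have h := Nat.choose_succ_succ (m + 2) 1
  rw [Nat.choose_one_right] at h
  have e : m + 1 + 2 = (m + 2).succ := rfl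
  rw [e, h, add_comm]

private theorem Vn_mul {K : Type} [Field K] {A : Finset (Fin 3 → K)} {m : ℕ} {f : R K}
    (hf : f ∈ Vn A m) (i : Fin 3) : f * X i ∈ Vn A (m + 1) := by
  refine ⟨hf.1.mul (isHomogeneous_X K i), fun a ha => ?_⟩
  rw [map_mul, hf.2 a ha, zero_mul]

private theorem rs_X1 {K : Type} [Field K] (s : K) : rs s (X 1) = Polynomial.X := by
  unfold rs
  rw [aeval_X]
  rfl

private theorem rs_X2 {K : Type} [Field K] (s : K) : rs s (X 2) = 1 := by
  unfold rs
  rw [aeval_X]
  rfl

theorem t_Hil (h1 : S_Res) (h2 : S_Bin) : S_Hil := by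
  classical
  intro K _ _ A hA
  have hinf : Infinite K := IsAlgClosed.instInfinite
  obtain ⟨s, hs⟩ := exists_Av A hA
  obtain ⟨r0, r1, r2, -, -⟩ := h1 K A s hs
  obtain ⟨W, hW⟩ : ∃ W : ℕ → Submodule K (Polynomial K),
    W = fun m => (Vn A m).map (rs s).toLinearMap := ⟨_, rfl⟩
  have hWm : ∀ m, W m = (Vn A m).map (rs s).toLinearMap := fun m => by rw [hW]
  have hle : ∀ m, W m ≤ Polynomial.degreeLE K m := by
    intro m
    rw [hWm]
    rintro _ ⟨f, hf, rfl⟩
    exact r0 m f hf.1
  have hfin : ∀ m, Module.Finite K (W m) := by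
    intro m
    have := (finrank_degreeLE K m).2
    exact Submodule.finiteDimensional_of_le (hle m)
  have hdim : ∀ m, Module.finrank K (W m) ≤ m + 1 := by
    intro m
    have := (finrank_degreeLE K m).2
    exact (Submodule.finrank_mono (hle m)).trans (finrank_degreeLE K m).1
  rw [← hWm] at r1
  have r2' : ∀ m, Module.finrank K (W (m + 1)) + Module.finrank K (Vn A m) =
      Module.finrank K (Vn A (m + 1)) := by
    intro m
    rw [hWm]
    exact r2 m
  have hHf : ∀ m, Hf A m + Module.finrank K (Vn A m) = (m + 2).choose 2 := by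
    intro m
    have := finrank_Vn_le A m
    unfold Hf
    omega
  have hmono : ∀ m, Hf A m ≤ Hf A (m + 1) := by
    intro m
    have e1 := hHf m
    have e2 := hHf (m + 1)
    have e3 := choose_step m
    have e4 := r2' m
    have e5 := hdim (m + 1)
    omega
  have hDl : ∀ m, Dl A m + Module.finrank K (W m) = m + 1 := by
    intro m
    have e5 := hdim m
    cases m with
    | zero =>
      have e1 := hHf 0
      unfold Dl
      rw [if_pos rfl]
      rw [← r1] at e1
      have e2 : (0 + 2).choose 2 = 1 := rfl
      omega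
    | succ m =>
      unfold Dl
      rw [if_neg (Nat.succ_ne_zero m), Nat.add_sub_cancel]
      have e1 := hHf m
      have e2 := hHf (m + 1)
      have e3 := choose_step m
      have e4 := r2' m
      omega
  have hsub : ∀ m, W m ⊔ xm (W m) ≤ W (m + 1) := by
    intro m
    refine sup_le ?_ ?_
    · rw [hWm, hWm]
      rintro _ ⟨f, hf, rfl⟩
      refine ⟨f * X 2, Vn_mul hf 2, ?_⟩
      change rs s (f * X 2) = rs s f
      rw [map_mul, rs_X2, mul_one]
    · rintro _ ⟨g, hg, rfl⟩
      rw [hWm] at hg ⊢
      obtain ⟨f, hf, rfl⟩ := hg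
      refine ⟨f * X 1, Vn_mul hf 1, ?_⟩
      change rs s (f * X 1) = Polynomial.X * rs s f
      rw [map_mul, rs_X1, mul_comm]
  have hne : ∀ m, Vn A m ≠ ⊥ → W m ≠ ⊥ := by
    intro m
    induction m with
    | zero =>
      intro h3 h4
      rw [h4, finrank_bot] at r1
      exact h3 (Submodule.finrank_eq_zero.1 r1.symm)
    | succ m ih =>
      intro h3 h4
      by_cases h5 : Vn A m = ⊥
      · have h6 := r2' m
        rw [h4, h5, finrank_bot, finrank_bot] at h6
        exact h3 (Submodule.finrank_eq_zero.1 h6.symm)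
      · refine ih h5 (le_bot_iff.1 ?_)
        rw [← h4]
        exact le_sup_left.trans (hsub m)
  refine ⟨fun m => ⟨hHf m, ?_⟩, hmono, ?_, ?_, ?_, ?_⟩
  · have e1 := hHf m
    have e2 := finrank_Vn_ge A m
    omega
  · intro m
    have := hDl m
    omega
  · intro m hm
    have e1 := (h2 K m (W m) (hle m) (hne m hm)).1
    have e2 := Submodule.finrank_mono (hsub m)
    have e3 := hDl m
    have e4 := hDl (m + 1)
    omega
  · intro m
    induction m with
    | zero =>
      rw [Finset.sum_range_one]
      unfold Dl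
      rw [if_pos rfl]
    | succ m ih =>
      rw [Finset.sum_range_succ, ih]
      have := hmono m
      have e : Dl A (m + 1) = Hf A (m + 1) - Hf A m := by
        unfold Dl
        rw [if_neg (Nat.succ_ne_zero m), Nat.add_sub_cancel]
      omega
  · intro m hm
    have e1 := hDl m
    have e2 : W m = ⊥ := by
      rw [hWm, hm, Submodule.map_bot]
    rw [e2, finrank_bot] at e1
    exact e1

end Pool.Agent.Lib.MP_d01072_ag.Tf
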