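import Pool.Agent.Lib.MP_d01072_ag.Tf.Spec

/-!
MP_d01072_ag, package Tf, module Ind: independent sets of points.
-/

set_option autoImplicit false

namespace Pool.Agent.Lib.MP_d01072_ag.Tf

open MvPolynomial

variable {K : Type} [Field K]

private noncomputable def fmEquiv (K : Type) [Field K] (m : ℕ) :
    Fm K m ≃ₗ[K] ({d : Fin 3 →₀ ℕ | d.degree = m} →₀ K) :=
  (LinearEquiv.ofEq _ _ (homogeneousSubmodule_eq_finsupp_supported (Fin 3) K m)).trans
    (AddMonoidAlgebra.supportedEquivFinsupp {d : Fin 3 →₀ ℕ | d.degree = m})

private noncomputable instance fintypeDeg (m : ℕ) : Fintype {d : Fin 3 →₀ ℕ | d.degree = m} :=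
  Fintype.ofEquiv (Finset.finsuppAntidiag (Finset.univ : Finset (Fin 3)) m)
    (Equiv.subtypeEquivRight (fun d => by
      rw [Finset.mem_finsuppAntidiag, Set.mem_ofPred_eq, Finsupp.degree_eq_sum]
      simp))

private lemma finite_Fm (m : ℕ) : Module.Finite K (Fm K m) :=
  Module.Finite.equiv (fmEquiv K m).symm

private lemma finrank_Fm (m : ℕ) : Module.finrank K (Fm K m) = (m + 2).choose 2 := by
  rw [LinearEquiv.finrank_eq (fmEquiv K m), Module.finrank_finsupp_self]
  have h1 : Fintype.card {d : Fin 3 →₀ ℕ | d.degree = m} =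
      (Finset.finsuppAntidiag (Finset.univ : Finset (Fin 3)) m).card := by
    rw [← Fintype.card_coe]
    exact (Fintype.card_congr (Equiv.subtypeEquivRight (fun d => by
      rw [Finset.mem_finsuppAntidiag, Set.mem_ofPred_eq, Finsupp.degree_eq_sum]
      simp))).symm
  rw [h1, Finset.card_finsuppAntidiag_nat_eq_choose, Finset.card_univ, Fintype.card_fin]
  have h2 : 3 + m - 1 = m + 2 := by omega
  rw [h2]
  exact Nat.choose_symm_of_eq_add (by omega)

/-- evaluation at the points of `A` -/
private noncomputable def evA (A : Finset (Fin 3 → K)) (m : ℕ) : Fm K m →ₗ[K] (A → K) where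
  toFun f a := eval (a : Fin 3 → K) (f : R K)
  map_add' f g := by
    funext a
    simp
  map_smul' c f := by
    funext a
    simp [smul_eval]

private lemma Vn_le (A : Finset (Fin 3 → K)) (m : ℕ) : Vn A m ≤ Fm K m := fun _ hf => hf.1

private lemma ker_evA (A : Finset (Fin 3 → K)) (m : ℕ) :
    LinearMap.ker (evA A m) = (Vn A m).comap (Fm K m).subtype := by
  ext f
  rw [LinearMap.mem_ker, Submodule.mem_comap]
  constructor
  · intro h
    refine ⟨f.2, fun a ha => ?_⟩
    exact congrFun h ⟨a, ha⟩
  · intro h
    funext a
    exact h.2 a.1 a.2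

private lemma rank_nullity (A : Finset (Fin 3 → K)) (m : ℕ) :
    Module.finrank K (LinearMap.range (evA A m)) + Module.finrank K (Vn A m) =
      (m + 2).choose 2 := by
  have := finite_Fm (K := K) m
  have h := LinearMap.finrank_range_add_finrank_ker (evA A m)
  rw [finrank_Fm, ker_evA, LinearEquiv.finrank_eq
    (Submodule.comapSubtypeEquivOfLe (Vn_le A m))] at h
  exact h

private lemma Hf_eq (A : Finset (Fin 3 → K)) (m : ℕ) :
    Hf A m = Module.finrank K (LinearMap.range (evA A m)) := by
  have h := rank_nullity A m
  unfold Hf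
  omega

private lemma Hf_card_iff (A : Finset (Fin 3 → K)) (m : ℕ) :
    Hf A m = A.card ↔ ∀ g : (Fin 3 → K) → K, ∃ f : R K, f.IsHomogeneous m ∧
      ∀ a ∈ A, eval a f = g a := by
  classical
  rw [Hf_eq]
  have hc : A.card = Module.finrank K (A → K) := by
    rw [Module.finrank_fintype_fun_eq_card, Fintype.card_coe]
  rw [hc]
  constructor
  · intro h g
    have htop : LinearMap.range (evA A m) = ⊤ := Submodule.eq_top_of_finrank_eq h
    have hmem : (fun a : A => g a) ∈ LinearMap.range (evA A m) := by
      rw [htop]
      trivial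
    obtain ⟨f, hf⟩ := hmem
    exact ⟨f, f.2, fun a ha => congrFun hf ⟨a, ha⟩⟩
  · intro h
    have htop : LinearMap.range (evA A m) = ⊤ := by
      rw [eq_top_iff]
      intro g _
      obtain ⟨f, hf1, hf2⟩ := h (fun a => if ha : a ∈ A then g ⟨a, ha⟩ else 0)
      refine ⟨⟨f, hf1⟩, ?_⟩
      funext a
      have := hf2 a.1 a.2
      rw [dif_pos a.2] at this
      exact this
    rw [htop, finrank_top]

private lemma eval_smul_hom {f : R K} {m : ℕ} (hf : f.IsHomogeneous m) (c : K)
    (a : Fin 3 → K) : eval (c • a) f = c ^ m * eval a f := by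
  rw [eval_eq, eval_eq, Finset.mul_sum]
  refine Finset.sum_congr rfl fun d hd => ?_
  have h1 : d.degree = m := by
    have := hf (mem_support_iff.1 hd)
    rw [Finsupp.degree_eq_weight_one]
    exact this
  have h2 : ∏ i ∈ d.support, (c • a) i ^ d i = c ^ m * ∏ i ∈ d.support, a i ^ d i := by
    simp only [Pi.smul_apply, smul_eq_mul, mul_pow]
    rw [Finset.prod_mul_distrib, Finset.prod_pow_eq_pow_sum]
    congr 2
  rw [h2]
  ring

theorem t_Ind : S_Ind := by
  classical
  intro K _ A m
  refine ⟨?_, ?_, ?_, ?_⟩
  · -- (1)
    have key : ∀ A : Finset (Fin 3 → K), ∃ B ⊆ A, Vn B m = Vn A m ∧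
        ∀ g : (Fin 3 → K) → K, ∃ f : R K, f.IsHomogeneous m ∧ ∀ a ∈ B, eval a f = g a := by
      intro A
      induction A using Finset.induction_on with
      | empty =>
        exact ⟨∅, subset_rfl, rfl, fun g => ⟨0, isHomogeneous_zero _ _ _, by simp⟩⟩
      | insert a A ha ih =>
        obtain ⟨B, hBA, hV, hS⟩ := ih
        by_cases h : ∀ f ∈ Vn B m, eval a f = 0
        · refine ⟨B, hBA.trans (Finset.subset_insert _ _), ?_, hS⟩
          apply le_antisymm
          · intro f hf
            refine ⟨hf.1, fun b hb => ?_⟩
            rcases Finset.mem_insert.1 hb with rfl | hb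
            · exact h f hf
            · rw [hV] at hf
              exact hf.2 b hb
          · intro f hf
            rw [hV]
            exact ⟨hf.1, fun b hb => hf.2 b (Finset.mem_insert_of_mem hb)⟩
        · push Not at h
          obtain ⟨f0, hf0, hf0a⟩ := h
          refine ⟨insert a B, Finset.insert_subset_insert _ hBA, ?_, ?_⟩
          · apply le_antisymm
            · intro f hf
              refine ⟨hf.1, fun b hb => ?_⟩
              rcases Finset.mem_insert.1 hb with rfl | hb
              · exact hf.2 _ (Finset.mem_insert_self _ _)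
              · have hfB : f ∈ Vn B m :=
                  ⟨hf.1, fun c hc => hf.2 c (Finset.mem_insert_of_mem hc)⟩
                rw [hV] at hfB
                exact hfB.2 b hb
            · intro f hf
              have hfA : f ∈ Vn A m :=
                ⟨hf.1, fun b hb => hf.2 b (Finset.mem_insert_of_mem hb)⟩
              rw [← hV] at hfA
              refine ⟨hf.1, fun b hb => ?_⟩
              rcases Finset.mem_insert.1 hb with rfl | hb
              · exact hf.2 _ (Finset.mem_insert_self _ _)
              · exact hfA.2 b hb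
          · intro g
            obtain ⟨f, hf1, hf2⟩ := hS g
            refine ⟨f + C ((g a - eval a f) / eval a f0) * f0, ?_, ?_⟩
            · apply hf1.add
              have := (isHomogeneous_C (Fin 3) ((g a - eval a f) / eval a f0)).mul hf0.1
              rwa [zero_add] at this
            · intro b hb
              rw [map_add, map_mul, eval_C]
              rcases Finset.mem_insert.1 hb with rfl | hb
              · rw [div_mul_cancel₀ _ hf0a]
                ring
              · rw [hf2 b hb, hf0.2 b hb]
                ring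
    obtain ⟨B, h1, h2, h3⟩ := key A
    exact ⟨B, h1, h2, (Hf_card_iff B m).2 h3⟩
  · -- (2)
    intro h B hB
    rw [Hf_card_iff] at h ⊢
    intro g
    obtain ⟨f, hf1, hf2⟩ := h g
    exact ⟨f, hf1, fun b hb => hf2 b (hB hb)⟩
  · -- (3)
    intro h t F ht hF hF0 hFA
    have := finite_Fm (K := K) m
    have hrn := rank_nullity A m
    rw [← Hf_eq, h] at hrn
    have hle : (m - t + 2).choose 2 ≤ Module.finrank K (Vn A m) := by
      rw [← finrank_Fm (K := K) (m - t)]
      have : Module.Finite K (Vn A m) :=
        Submodule.finiteDimensional_of_le (Vn_le A m)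
      let φ : Fm K (m - t) →ₗ[K] Vn A m :=
        { toFun := fun g => ⟨F * (g : R K), by
            refine ⟨?_, fun a ha => ?_⟩
            · have := hF.mul g.2
              rwa [Nat.add_sub_cancel' ht] at this
            · rw [map_mul, hFA a ha, zero_mul]⟩
          map_add' := fun g g' => by
            apply Subtype.ext
            simp [mul_add]
          map_smul' := fun c g => by
            apply Subtype.ext
            simp }
      apply LinearMap.finrank_le_finrank_of_injective (f := φ)
      intro g g' hgg
      have := congrArg Subtype.val hgg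
      exact Subtype.ext (mul_left_cancel₀ hF0 this)
    omega
  · -- (4)
    intro hA
    have hn : ∀ a : Fin 3 → K, ∃ c : K, c ≠ 0 ∧ (a ≠ 0 → Nrm (c • a)) := by
      intro a
      by_cases ha : a = 0
      · exact ⟨1, one_ne_zero, fun h => absurd ha h⟩
      · obtain ⟨l, hl⟩ := Function.ne_iff.1 ha
        refine ⟨(a l)⁻¹, inv_ne_zero hl, fun _ => ⟨l, ?_⟩⟩
        simp only [Pi.smul_apply, smul_eq_mul]
        exact inv_mul_cancel₀ hl
    choose c hc0 hc1 using hn
    refine ⟨A.image fun a => c a • a, Finset.card_image_le, ?_, ?_⟩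
    · intro b hb
      obtain ⟨a, ha, rfl⟩ := Finset.mem_image.1 hb
      exact hc1 a (hA a ha)
    · intro j
      apply le_antisymm
      · intro f hf
        refine ⟨hf.1, fun a ha => ?_⟩
        have h1 := hf.2 _ (Finset.mem_image_of_mem _ ha)
        rw [eval_smul_hom hf.1] at h1
        exact (mul_eq_zero.1 h1).resolve_left (pow_ne_zero _ (hc0 a))
      · intro f hf
        refine ⟨hf.1, fun b hb => ?_⟩
        obtain ⟨a, ha, rfl⟩ := Finset.mem_image.1 hb
        rw [eval_smul_hom hf.1, hf.2 a ha, mul_zero]

end Pool.Agent.Lib.MP_d01072_ag.Tf
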