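import Pool.Agent.Lib.MP_d01072_ag.Tf.Spec

/-!
MP_d01072_ag, package Tf, module Line: a good line.
-/

set_option autoImplicit false

namespace Pool.Agent.Lib.MP_d01072_ag.Tf

open MvPolynomial

section

variable {K : Type} [Field K]

/-- value of a form which contains only two variables -/
private theorem ln_ev2 (c : R K) (l i : Fin 3) (hli : l ≠ i)
    (hs : ∀ s ∈ c.support, ∀ j, j ≠ l → j ≠ i → s j = 0) (P : Fin 3 → K) :
    eval P c = ∑ d ∈ c.support, coeff d c * (P l ^ d l * P i ^ d i) := by
  rw [eval_eq']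
  refine Finset.sum_congr rfl fun d hd => ?_
  rw [Finset.prod_eq_mul l i hli (fun j _ hj => by rw [hs d hd j hj.1 hj.2, pow_zero])
    (fun h => absurd (Finset.mem_univ _) h) (fun h => absurd (Finset.mem_univ _) h)]

/-- the second variable is specialized -/
private noncomputable def lnq (c : R K) (l i : Fin 3) (z : K) : Polynomial K :=
  ∑ d ∈ c.support, Polynomial.C (coeff d c * z ^ d i) * Polynomial.X ^ d l

private theorem lnq_eval (c : R K) (l i : Fin 3) (hli : l ≠ i)
    (hs : ∀ s ∈ c.support, ∀ j, j ≠ l → j ≠ i → s j = 0) (P : Fin 3 → K) :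
    eval P c = (lnq c l i (P i)).eval (P l) := by
  rw [ln_ev2 c l i hli hs P, lnq, Polynomial.eval_finset_sum]
  refine Finset.sum_congr rfl fun d _ => ?_
  rw [Polynomial.eval_mul, Polynomial.eval_C, Polynomial.eval_pow, Polynomial.eval_X]
  ring

private theorem lnq_ne (c : R K) (n : ℕ) (hc : c.IsHomogeneous n) (h0 : c ≠ 0) (l i : Fin 3)
    (hli : l ≠ i) (hs : ∀ s ∈ c.support, ∀ j, j ≠ l → j ≠ i → s j = 0) (z : K) (hz : z ≠ 0) :
    lnq c l i z ≠ 0 := by
  obtain ⟨e, he⟩ : ∃ e, e ∈ c.support := by
    by_contra hh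
    push Not at hh
    exact h0 (support_eq_empty.1 (Finset.eq_empty_of_forall_notMem hh))
  have hsum : ∀ d ∈ c.support, d l + d i = n := by
    intro d hd
    have h1 : Finsupp.degree d = n := by
      rw [Finsupp.degree_eq_weight_one]
      exact hc (mem_support_iff.1 hd)
    rw [Finsupp.degree_eq_sum, Finset.sum_eq_add l i hli
      (fun j _ hj => hs d hd j hj.1 hj.2)
      (fun h => absurd (Finset.mem_univ _) h) (fun h => absurd (Finset.mem_univ _) h)] at h1
    exact h1
  intro hq
  have h2 : (lnq c l i z).coeff (e l) = coeff e c * z ^ e i := by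
    rw [lnq, Polynomial.finset_sum_coeff, Finset.sum_eq_single e]
    · rw [Polynomial.coeff_C_mul, Polynomial.coeff_X_pow, if_pos rfl, mul_one]
    · intro d hd hde
      rw [Polynomial.coeff_C_mul, Polynomial.coeff_X_pow, if_neg, mul_zero]
      intro hh
      apply hde
      ext j
      by_cases hj : j = l
      · rw [hj, hh]
      · by_cases hj' : j = i
        · have := hsum d hd
          have := hsum e he
          rw [hj']
          omega
        · rw [hs d hd j hj hj', hs e he j hj hj']
    · intro h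
      exact absurd he h
  rw [hq, Polynomial.coeff_zero] at h2
  exact mul_ne_zero (mem_support_iff.1 he) (pow_ne_zero _ hz) h2.symm

private theorem ln_fin (a b c : K) (h : a ≠ 0 ∨ b ≠ 0 ∨ c ≠ 0) :
    {s : K | a + s * b + s ^ 2 * c = 0}.Finite := by
  set p : Polynomial K := Polynomial.C a + Polynomial.C b * Polynomial.X +
    Polynomial.C c * Polynomial.X ^ 2 with hp
  have hp0 : p ≠ 0 := by
    intro h0
    have e0 : p.coeff 0 = a := by
      simp [hp, Polynomial.coeff_X_pow]
    have e1 : p.coeff 1 = b := by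
      simp [hp, Polynomial.coeff_X_pow, Polynomial.coeff_C]
    have e2 : p.coeff 2 = c := by
      simp [hp, Polynomial.coeff_X, Polynomial.coeff_C]
    rw [h0, Polynomial.coeff_zero] at e0 e1 e2
    rcases h with h | h | h
    · exact h e0.symm
    · exact h e1.symm
    · exact h e2.symm
  refine (Polynomial.finite_setOf_isRoot hp0).subset fun s hs => ?_
  rw [Set.mem_setOf_eq] at hs ⊢
  rw [Polynomial.IsRoot.def, hp]
  simp only [Polynomial.eval_add, Polynomial.eval_mul, Polynomial.eval_C, Polynomial.eval_X,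
    Polynomial.eval_pow]
  linear_combination hs

private theorem ln_rs_eval (s x : K) (f : R K) :
    (rs s f).eval x = eval ![-(s * x) - s ^ 2, x, 1] f := by
  rw [rs, aeval_def, eval₂_eq', Polynomial.eval_finset_sum, eval_eq']
  refine Finset.sum_congr rfl fun d _ => ?_
  rw [Polynomial.eval_mul, Polynomial.algebraMap_eq, Polynomial.eval_C, Polynomial.eval_prod]
  congr 1
  rw [Fin.prod_univ_three, Fin.prod_univ_three]
  simp

private theorem ln_rs_coeff (s : K) (m : ℕ) (f : R K) (hf : f.IsHomogeneous m) :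
    (rs s f).coeff m = eval ![-s, 1, 0] f := by
  rw [rs, aeval_def, eval₂_eq', Polynomial.finset_sum_coeff, eval_eq']
  refine Finset.sum_congr rfl fun d hd => ?_
  have h1 : Finsupp.degree d = m := by
    rw [Finsupp.degree_eq_weight_one]
    exact hf (mem_support_iff.1 hd)
  rw [Finsupp.degree_eq_sum, Fin.sum_univ_three] at h1
  rw [Polynomial.algebraMap_eq, Polynomial.coeff_C_mul]
  congr 1
  rw [Fin.prod_univ_three, Fin.prod_univ_three]
  simp only [Matrix.cons_val_zero, Matrix.cons_val_one, Matrix.cons_val_two, Matrix.head_cons,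
    Matrix.tail_cons, Matrix.cons_val, one_pow, mul_one]
  set L : Polynomial K := -(Polynomial.C s * Polynomial.X) - Polynomial.C (s ^ 2) with hL
  have hdeg : L.natDegree ≤ 1 := by
    rw [hL]
    refine (Polynomial.natDegree_sub_le _ _).trans (max_le ?_ ?_)
    · rw [Polynomial.natDegree_neg]
      exact (Polynomial.natDegree_C_mul_le s Polynomial.X).trans Polynomial.natDegree_X_le
    · rw [Polynomial.natDegree_C]
      exact Nat.zero_le _
  have hc1 : L.coeff 1 = -s := by
    rw [hL, Polynomial.coeff_sub, Polynomial.coeff_neg, Polynomial.coeff_C_mul_X,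
      Polynomial.coeff_C, if_pos rfl, if_neg one_ne_zero, sub_zero]
  by_cases h2 : d 2 = 0
  · rw [h2, pow_zero, mul_one]
    have h3 : m = d 0 + d 1 := by omega
    rw [h3, Polynomial.coeff_mul_X_pow]
    have h4 := Polynomial.coeff_pow_of_natDegree_le (m := d 0) hdeg
    rw [mul_one, hc1] at h4
    exact h4
  · rw [zero_pow h2, mul_zero]
    apply Polynomial.coeff_eq_zero_of_natDegree_lt
    calc (L ^ d 0 * Polynomial.X ^ d 1).natDegree
        ≤ (L ^ d 0).natDegree + (Polynomial.X ^ d 1 : Polynomial K).natDegree :=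
          Polynomial.natDegree_mul_le
      _ ≤ d 0 * 1 + d 1 := by
          apply Nat.add_le_add
          · exact Polynomial.natDegree_pow_le_of_le _ hdeg
          · rw [Polynomial.natDegree_X_pow]
      _ < m := by omega

end

theorem t_Line (h1 : S_Cop) (h2 : S_Elim) : S_Line := by
  intro K _ _ m V A hV hNC hA
  classical
  haveI : Infinite K := IsAlgClosed.instInfinite
  obtain ⟨f, hf, g, hg, hf0, hfg⟩ := h1 K m V hV hNC
  have hfh : f.IsHomogeneous m := hV hf
  have hgh : g.IsHomogeneous m := hV hg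
  obtain ⟨n12, c12, hh12, h012, hi12, hs12⟩ := h2 K m f g hfh hgh hf0 hfg 1 2 (by decide)
  obtain ⟨n01, c01, hh01, h001, hi01, hs01⟩ := h2 K m f g hfh hgh hf0 hfg 0 1 (by decide)
  obtain ⟨n02, c02, hh02, h002, hi02, hs02⟩ := h2 K m f g hfh hgh hf0 hfg 0 2 (by decide)
  -- common zeros are zeros of the ideal
  have hvan : ∀ P : Fin 3 → K, eval P f = 0 → eval P g = 0 →
      ∀ c ∈ Ideal.span ({f, g} : Set (R K)), eval P c = 0 := by
    intro P hPf hPg c hc
    have h3 : Ideal.span ({f, g} : Set (R K)) ≤ RingHom.ker (eval P) := by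
      rw [Ideal.span_le]
      rintro _ (rfl | rfl)
      · exact hPf
      · exact hPg
    exact h3 hc
  -- the bad lines
  set q12 := lnq c12 1 2 1 with hq12
  have hq12' : q12 ≠ 0 := lnq_ne c12 n12 hh12 h012 1 2 (by decide) hs12 1 one_ne_zero
  let qq : K → Polynomial K := fun x => if x = 0 then lnq c02 0 2 1 else lnq c01 0 1 x
  have hqq : ∀ x, qq x ≠ 0 := by
    intro x
    by_cases hx : x = 0
    · simp only [qq, if_pos hx]
      exact lnq_ne c02 n02 hh02 h002 0 2 (by decide) hs02 1 one_ne_zero
    · simp only [qq, if_neg hx]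
      exact lnq_ne c01 n01 hh01 h001 0 1 (by decide) hs01 x hx
  have hb1 : (⋃ a ∈ A, {s : K | a 0 + s * a 1 + s ^ 2 * a 2 = 0}).Finite := by
    refine Set.Finite.biUnion A.finite_toSet fun a ha => ln_fin _ _ _ ?_
    by_contra hh
    push Not at hh
    apply hA a ha
    funext j
    fin_cases j
    · exact hh.1
    · exact hh.2.1
    · exact hh.2.2
  have hb2 : (⋃ x ∈ {x : K | q12.IsRoot x}, ⋃ u ∈ {u : K | (qq x).IsRoot u},
      {s : K | u + s * x + s ^ 2 * 1 = 0}).Finite := by
    refine Set.Finite.biUnion (Polynomial.finite_setOf_isRoot hq12') fun x _ => ?_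
    refine Set.Finite.biUnion (Polynomial.finite_setOf_isRoot (hqq x)) fun u _ => ?_
    exact ln_fin _ _ _ (Or.inr (Or.inr one_ne_zero))
  have hb3 : {s : K | (lnq c01 0 1 1).IsRoot (-s)}.Finite := by
    have h3 := Polynomial.finite_setOf_isRoot
      (lnq_ne c01 n01 hh01 h001 0 1 (by decide) hs01 1 one_ne_zero)
    refine (h3.image fun s => -s).subset fun s hs => ⟨-s, hs, neg_neg s⟩
  obtain ⟨s, hs⟩ := ((hb1.union hb2).union hb3).infinite_compl.nonempty
  rw [Set.mem_compl_iff, Set.mem_union, Set.mem_union, not_or, not_or] at hs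
  obtain ⟨⟨hg1, hg2⟩, hg3⟩ := hs
  refine ⟨s, ?_, ?_, ?_⟩
  · intro a ha h0
    apply hg1
    rw [Set.mem_iUnion₂]
    exact ⟨a, ha, h0⟩
  · intro x
    by_contra hh
    push Not at hh
    set P : Fin 3 → K := ![-(s * x) - s ^ 2, x, 1] with hP
    have hPf : eval P f = 0 := by rw [hP, ← ln_rs_eval]; exact hh f hf
    have hPg : eval P g = 0 := by rw [hP, ← ln_rs_eval]; exact hh g hg
    apply hg2
    rw [Set.mem_iUnion₂]
    refine ⟨x, ?_, ?_⟩
    · have h3 := hvan P hPf hPg c12 hi12
      rw [lnq_eval c12 1 2 (by decide) hs12] at h3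
      exact h3
    · rw [Set.mem_iUnion₂]
      refine ⟨-(s * x) - s ^ 2, ?_, ?_⟩
      · rw [Set.mem_setOf_eq, Polynomial.IsRoot.def]
        by_cases hx : x = 0
        · simp only [qq, if_pos hx]
          have h3 := hvan P hPf hPg c02 hi02
          rw [lnq_eval c02 0 2 (by decide) hs02] at h3
          exact h3
        · simp only [qq, if_neg hx]
          have h3 := hvan P hPf hPg c01 hi01
          rw [lnq_eval c01 0 1 (by decide) hs01] at h3
          exact h3
      · rw [Set.mem_setOf_eq]
        ring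
  · by_contra hh
    push Not at hh
    set P : Fin 3 → K := ![-s, 1, 0] with hP
    have hPf : eval P f = 0 := by rw [hP, ← ln_rs_coeff s m f hfh]; exact hh f hf
    have hPg : eval P g = 0 := by rw [hP, ← ln_rs_coeff s m g hgh]; exact hh g hg
    apply hg3
    have h3 := hvan P hPf hPg c01 hi01
    rw [lnq_eval c01 0 1 (by decide) hs01] at h3
    exact h3

end Pool.Agent.Lib.MP_d01072_ag.Tf
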