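import Pool.Agent.Lib.MP_d01072_ag.Tf.Spec

/-!
# Reduction of the main lemma to normalised points imposing independent conditions
-/

set_option autoImplicit false

namespace Pool.Agent.Lib.MP_d01072_ag.Tf

open MvPolynomial

theorem t_Main (h1 : S_Ind) (h2 : S_Peel) : S_Main := by
  intro k K _ _ _ _ A d δ L hA hdδ hδd hcard hL
  obtain ⟨B₀, hB₀c, hB₀n, hB₀v⟩ := (h1 K A δ).2.2.2 hA
  obtain ⟨B, hBs, hBv, hBc⟩ := (h1 K B₀ δ).1
  have hcB : B.card ≤ A.card := (Finset.card_le_card hBs).trans hB₀c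
  have hv : Vn B δ = Vn A δ := hBv.trans (hB₀v δ)
  obtain ⟨G, hG, hG'⟩ := h2 k K B d δ L (fun a ha => hB₀n a (hBs ha)) hBc hdδ hδd
    (lt_of_le_of_lt (Nat.mul_le_mul_left 6 hcB) hcard) (by rw [hv]; exact hL)
  exact ⟨G, hG.trans (Nat.mul_le_mul_left 3 hcB), hG'⟩

end Pool.Agent.Lib.MP_d01072_ag.Tf
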