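import Pool.Agent.Lib.MP_d01072_ag.Tf.Spec

/-! MP_d01072_ag, package Tf: the number of parameters of a set of points. -/

set_option autoImplicit false

namespace Pool.Agent.Lib.MP_d01072_ag.Tf

open MvPolynomial

theorem t_Par (h1 : S_Acl) (h2 : S_CoefF) (h3 : S_Crv) (h4 : S_Ind) (h5 : S_Base) : S_Par := by
  classical
  intro k K _ _ _ _ A t n F hA hF hF0 hNC
  obtain ⟨u, G1, hu, hG1, hcoef⟩ := h2 k K t F hF hF0
  have hself : ∀ S : Set K, S ⊆ (Cl k S : Set K) := fun S => (h1 k K S S).1
  have hmono : ∀ S T : Set K, S ⊆ T → Cl k S ≤ Cl k T := fun S T h =>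
    (h1 k K S T).2.1 (h.trans (hself T))
  have hFu : (C u * F).IsHomogeneous t := by
    have := (isHomogeneous_C (Fin 3) u).mul hF
    rwa [zero_add] at this
  have hFu0 : C u * F ≠ 0 := by
    refine mul_ne_zero ?_ hF0
    rwa [Ne, MvPolynomial.C_eq_zero]
  have hc : ∀ a : Fin 3 → K, ∃ w : K, a ∈ A → eval a F = 0 →
      ∀ i, a i ∈ Cl k (insert w (G1 : Set K)) := by
    intro a
    by_cases ha : a ∈ A ∧ eval a F = 0
    · obtain ⟨w, hw⟩ := h3 k K (G1 : Set K) t (C u * F) a hFu hFu0 hcoef (hA a ha.1)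
        (by rw [map_mul, ha.2, mul_zero])
      exact ⟨w, fun _ _ => hw⟩
    · exact ⟨0, fun h h' => absurd ⟨h, h'⟩ ha⟩
  choose w hw using hc
  obtain ⟨⟨B, hBsub, hBV, hBH⟩, -⟩ := h4 K (off A F) n
  have hl : ∀ a : Fin 3 → K, ∃ l : Fin 3, a ∈ A → a l = 1 := by
    intro a
    by_cases ha : a ∈ A
    · obtain ⟨l, hl⟩ := hA a ha
      exact ⟨l, fun _ => hl⟩
    · exact ⟨0, fun h => absurd h ha⟩
  choose l hl using hl
  have hoff : off A F = A.filter (fun a => ¬ eval a F = 0) := by
    ext a
    simp [off]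
  have hoffA : ∀ a ∈ off A F, a ∈ A ∧ eval a F ≠ 0 := by
    intro a ha
    rw [hoff, Finset.mem_filter] at ha
    exact ha
  set G2 : Finset K := (A.filter fun a => eval a F = 0).image w with hG2
  set G3 : Finset K := B.biUnion fun b => (Finset.univ.erase (l b)).image b with hG3
  have hB : ∀ b ∈ B, ∀ i, b i ∈ Cl k ((G1 ∪ G2 ∪ G3 : Finset K) : Set K) := by
    intro b hb i
    by_cases hi : i = l b
    · rw [hi, hl b (hoffA b (hBsub hb)).1]
      exact one_mem _
    · apply hself
      rw [Finset.mem_coe, Finset.mem_union]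
      right
      rw [hG3, Finset.mem_biUnion]
      exact ⟨b, hb, Finset.mem_image_of_mem _ (Finset.mem_erase.2 ⟨hi, Finset.mem_univ _⟩)⟩
  refine ⟨G1 ∪ G2 ∪ G3, fun a ha i => ?_, ?_⟩
  · by_cases he : eval a F = 0
    · refine hmono _ _ ?_ (hw a ha he i)
      intro x hx
      rw [Finset.mem_coe, Finset.mem_union, Finset.mem_union]
      rcases hx with rfl | hx
      · left; right
        rw [hG2]
        exact Finset.mem_image_of_mem _ (Finset.mem_filter.2 ⟨ha, he⟩)
      · left; left
        exact hx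
    · have hao : a ∈ off A F := by
        rw [hoff, Finset.mem_filter]
        exact ⟨ha, he⟩
      refine h5 k K _ B n hB ?_ a (hA a ha) ?_ i
      · rw [hBV]; exact hNC
      · intro f hf
        rw [hBV] at hf
        exact hf.2 a hao
  · have c1 : (G1 ∪ G2 ∪ G3).card ≤ G1.card + G2.card + G3.card :=
      (Finset.card_union_le _ _).trans (Nat.add_le_add_right (Finset.card_union_le _ _) _)
    have c2 : G2.card ≤ (A.filter fun a => eval a F = 0).card := Finset.card_image_le
    have c3 : (A.filter fun a => eval a F = 0).card + (off A F).card = A.card := by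
      rw [hoff]
      exact Finset.card_filter_add_card_filter_not _
    have c4 : G3.card ≤ 2 * B.card := by
      have : G3.card ≤ ∑ b ∈ B, ((Finset.univ.erase (l b)).image b).card :=
        Finset.card_biUnion_le
      refine this.trans ?_
      rw [mul_comm, ← smul_eq_mul, ← Finset.sum_const]
      refine Finset.sum_le_sum fun b _ => Finset.card_image_le.trans ?_
      rw [Finset.card_erase_of_mem (Finset.mem_univ _), Finset.card_univ, Fintype.card_fin]
    have c5 : Hf (off A F) n = B.card := by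
      rw [← hBH]
      unfold Hf
      rw [hBV]
    rw [c5]
    omega

end Pool.Agent.Lib.MP_d01072_ag.Tf
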