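import Pool.Agent.Lib.MP_d01072_ag.Tf.Spec

/-!
# MP_d01072_ag, package Tf: arithmetic for Peel (module PeelNum)
-/

set_option autoImplicit false

namespace Pool.Agent.Lib.MP_d01072_ag.Tf

private theorem two_choose (n : ℕ) : 2 * (n + 2).choose 2 = (n + 2) * (n + 1) := by
  rw [Nat.choose_two_right, Nat.add_sub_assoc (by norm_num)]
  have h : 2 ∣ (n + 2) * (n + (2 - 1)) := by
    have := Nat.even_mul_succ_self (n + 1)
    rw [mul_comm] at this
    exact this.two_dvd
  exact Nat.mul_div_cancel' h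

theorem t_PeelNum : S_PeelNum := by
  intro d δ r h1 h2 h3
  have hr : 24 * r + 4 ≤ (3 * δ + 2) * (3 * δ + 4) := by
    have e1 : 4 * ((d + 1) * (d + 2)) ≤ (3 * δ + 2) * (3 * δ + 4) := by
      have : 4 * ((d + 1) * (d + 2)) = (2 * d + 2) * (2 * d + 4) := by ring
      rw [this]
      exact Nat.mul_le_mul (by omega) (by omega)
    omega
  have hδ := two_choose δ
  refine ⟨?_, ?_⟩
  · nlinarith [hr, hδ]
  intro t ht
  obtain ⟨D, rfl⟩ := Nat.exists_eq_add_of_le ht
  obtain ⟨e, rfl⟩ := Nat.exists_eq_add_of_le h2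
  have a1 : t + D - t = D := by omega
  have a2 : t + D + e - t = D + e := by omega
  rw [a1, a2]
  have c1 := two_choose t
  have c2 := two_choose (t + D + e)
  have c3 := two_choose D
  have c4 := two_choose (D + e)
  have h2e : 2 * e ≤ t + D := by omega
  refine ⟨?_, ?_⟩
  · have h5 : 2 * e * t ≤ (t + D) * t := Nat.mul_le_mul_right t h2e
    nlinarith [c1, c2, c3, c4, hδ, h5]
  · intro H hH
    nlinarith [hr, hδ, c3, hH, Nat.zero_le (D * t), Nat.zero_le (t * t)]

end Pool.Agent.Lib.MP_d01072_ag.Tf
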