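import Pool.Agent.Lib.MP_d01072_ag.Tf.Spec

/-!
# `S_Str`: strips and translations
-/

set_option autoImplicit false

namespace Pool.Agent.Lib.MP_d01072_ag.Tf

namespace StrX

private theorem cast {A A' : Finset (ℤ × ℤ)} {n n' s s' : ℕ} (h : Bsp A' n' s') (hA : A' = A)
    (hn : n' = n) (hs : s' = s) : Bsp A n s := by
  subst hA hn hs
  exact h

private theorem translate (v : ℤ × ℤ) {A : Finset (ℤ × ℤ)} {n s : ℕ} (h : Bsp A n s) :
    Bsp (A.image fun p => p + v) n s := by
  induction h with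
  | nil => exact Bsp.nil
  | sing p =>
    rw [Finset.image_singleton]
    exact Bsp.sing _
  | tri p q r h =>
    rw [Finset.image_insert, Finset.image_insert, Finset.image_singleton]
    refine Bsp.tri _ _ _ ?_
    have e : dt (p + v) (q + v) (r + v) = dt p q r := by
      simp only [dt, Prod.fst_add, Prod.snd_add]
      ring
    rw [e]
    exact h
  | cut A B n s n' s' w hA hB _ _ ih1 ih2 =>
    rw [Finset.image_union]
    refine Bsp.cut _ _ _ _ _ _ (w.1, w.2.1, w.2.2 - w.1 * v.1 - w.2.1 * v.2) ?_ ?_ ih1 ih2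
    · intro p hp
      obtain ⟨q, hq, rfl⟩ := Finset.mem_image.1 hp
      have := hA q hq
      have e : af (w.1, w.2.1, w.2.2 - w.1 * v.1 - w.2.1 * v.2) (q + v) = af w q := by
        simp only [af, Prod.fst_add, Prod.snd_add]
        ring
      rwa [e]
    · intro p hp
      obtain ⟨q, hq, rfl⟩ := Finset.mem_image.1 hp
      have := hB q hq
      have e : af (w.1, w.2.1, w.2.2 - w.1 * v.1 - w.2.1 * v.2) (q + v) = af w q := by
        simp only [af, Prod.fst_add, Prod.snd_add]
        ring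
      rwa [e]

/-- the block `3 × k` -/
private def blk (k : ℕ) : Finset (ℤ × ℤ) :=
  (Finset.range 3 ×ˢ Finset.range k).image fun p => ((p.1 : ℤ), (p.2 : ℤ))

private theorem mem_blk {k : ℕ} {p : ℤ × ℤ} :
    p ∈ blk k ↔ 0 ≤ p.1 ∧ p.1 < 3 ∧ 0 ≤ p.2 ∧ p.2 < k := by
  unfold blk
  simp only [Finset.mem_image, Finset.mem_product, Finset.mem_range]
  constructor
  · rintro ⟨q, ⟨h1, h2⟩, rfl⟩
    simp only
    omega
  · rintro ⟨h1, h2, h3, h4⟩
    refine ⟨(p.1.toNat, p.2.toNat), ⟨?_, ?_⟩, ?_⟩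
    · simp only; omega
    · simp only; omega
    · ext
      · simp only; omega
      · simp only; omega

private theorem mem_Rw {d k : ℕ} {p : ℤ × ℤ} :
    p ∈ Rw d k ↔ (0 ≤ p.1 ∧ 0 ≤ p.2 ∧ p.1 + p.2 ≤ d) ∧ p.2 < k := by
  unfold Rw
  rw [Finset.mem_filter, mem_Td]

private theorem blk2 : Bsp (blk 2) 2 0 := by
  refine cast (Bsp.cut {(0, 0), (1, 0), (0, 1)} {(2, 0), (1, 1), (2, 1)} 1 0 1 0 (4, 2, -5)
    (by decide) (by decide) (Bsp.tri _ _ _ (by decide)) (Bsp.tri _ _ _ (by decide))) ?_ rfl rfl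
  decide

private theorem blk4 : Bsp (blk 4) 4 0 := by
  refine cast (Bsp.cut {(1, 0), (2, 0), (2, 1)} _ 1 0 _ _ (-2, 2, 1) (by decide) ?_
    (Bsp.tri _ _ _ (by decide))
    (Bsp.cut {(1, 1), (2, 2), (2, 3)} _ 1 0 _ _ (-4, 2, 1) (by decide) ?_
      (Bsp.tri _ _ _ (by decide))
      (Bsp.cut {(0, 0), (0, 1), (1, 2)} {(0, 2), (0, 3), (1, 3)} 1 0 1 0 (-2, 2, -3) (by decide)
        (by decide) (Bsp.tri _ _ _ (by decide)) (Bsp.tri _ _ _ (by decide))))) ?_ rfl rfl
  · decide
  · decide
  · decide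

private theorem base4 : Bsp (Rw 5 4) 6 0 := by
  refine cast (Bsp.cut {(4, 0), (5, 0), (4, 1)} _ 1 0 _ _ (-4, 2, 13) (by decide) ?_
    (Bsp.tri _ _ _ (by decide))
    (Bsp.cut {(2, 0), (3, 0), (3, 1)} _ 1 0 _ _ (-2, 2, 3) (by decide) ?_
      (Bsp.tri _ _ _ (by decide))
      (Bsp.cut {(0, 2), (0, 3), (1, 3)} _ 1 0 _ _ (2, -2, 3) (by decide) ?_
        (Bsp.tri _ _ _ (by decide))
        (Bsp.cut {(0, 0), (0, 1), (1, 2)} _ 1 0 _ _ (4, -2, -1) (by decide) ?_
          (Bsp.tri _ _ _ (by decide))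
          (Bsp.cut {(1, 0), (1, 1), (2, 1)} {(2, 2), (3, 2), (2, 3)} 1 0 1 0 (0, 2, -3) (by decide)
            (by decide) (Bsp.tri _ _ _ (by decide)) (Bsp.tri _ _ _ (by decide))))))) ?_ rfl rfl
  · decide
  · decide
  · decide
  · decide
  · decide

/-- one more block -/
private theorem step {d k n s m : ℕ} (hk : k ≤ d + 2) (hb : Bsp (blk k) m 0)
    (h : Bsp (Rw d k) n s) : Bsp (Rw (d + 3) k) (m + n) s := by
  refine cast (Bsp.cut (blk k) ((Rw d k).image fun p => p + (3, 0)) m 0 n s (2, 0, -5) ?_ ?_ hb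
    (translate (3, 0) h)) ?_ rfl (zero_add s)
  · intro p hp
    have := mem_blk.1 hp
    simp only [af]
    omega
  · intro p hp
    obtain ⟨q, hq, rfl⟩ := Finset.mem_image.1 hp
    have := mem_Rw.1 hq
    simp only [af, Prod.fst_add, Prod.snd_add]
    omega
  · ext p
    rw [Finset.mem_union, mem_blk, mem_Rw, Finset.mem_image]
    constructor
    · rintro (h1 | ⟨q, hq, rfl⟩)
      · push_cast
        omega
      · have := mem_Rw.1 hq
        simp only [Prod.fst_add, Prod.snd_add]
        push_cast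
        omega
    · intro h1
      push_cast at h1
      by_cases h2 : p.1 < 3
      · left
        omega
      · right
        refine ⟨(p.1 - 3, p.2), mem_Rw.2 ?_, ?_⟩
        · simp only
          omega
        · ext
          · simp
          · simp

end StrX

open StrX

theorem t_Str : S_Str := by
  refine ⟨fun A n s v h => translate v h, ?_, ?_, ?_⟩
  · intro q
    induction q with
    | zero =>
      refine cast (Bsp.tri (0, 0) (1, 0) (0, 1) (by decide)) ?_ rfl rfl
      decide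
    | succ q ih => exact cast (step (by omega) blk2 ih) rfl (by omega) rfl
  · intro q
    induction q with
    | zero =>
      refine cast (Bsp.sing (0, 0)) ?_ rfl rfl
      decide
    | succ q ih => exact cast (step (by omega) blk2 ih) rfl (by omega) rfl
  · intro q
    induction q with
    | zero => exact cast base4 rfl rfl rfl
    | succ q ih => exact cast (step (by omega) blk4 ih) rfl (by omega) rfl

end Pool.Agent.Lib.MP_d01072_ag.Tf
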