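import Pool.Agent.Lib.MP_d01072_ag.Tf.Spec

/-!
MP_d01072_ag, package Tf: part of the triangles of a partition.
-/

set_option autoImplicit false

namespace Pool.Agent.Lib.MP_d01072_ag.Tf

open MvPolynomial

theorem t_Sub : S_Sub := by
  classical
  intro A n s h hB
  induction hB generalizing h with
  | nil =>
    intro hh
    obtain rfl : h = 0 := by omega
    exact ⟨∅, Finset.Subset.refl _, rfl, Bsp.nil⟩
  | sing p =>
    intro hh
    obtain rfl : h = 0 := by omega
    exact ⟨∅, Finset.empty_subset _, rfl, Bsp.nil⟩
  | tri p q r hd =>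
    intro hh
    rcases Nat.eq_zero_or_pos h with h0 | h0
    · subst h0
      exact ⟨∅, Finset.empty_subset _, rfl, Bsp.nil⟩
    · obtain rfl : h = 1 := by omega
      have hpq : p ≠ q := by
        rintro rfl
        apply hd
        unfold dt
        ring
      have hpr : p ≠ r := by
        rintro rfl
        apply hd
        unfold dt
        ring
      have hqr : q ≠ r := by
        rintro rfl
        apply hd
        unfold dt
        ring
      exact ⟨{p, q, r}, Finset.Subset.refl _, Finset.card_eq_three.2 ⟨p, q, r, hpq, hpr, hqr, rfl⟩,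
        Bsp.tri p q r hd⟩
  | cut A B n s n' s' w hA hB h1 h2 ih1 ih2 =>
    intro hh
    obtain ⟨B1, hB1, hc1, hb1⟩ := ih1 (min h n) (min_le_right _ _)
    obtain ⟨B2, hB2, hc2, hb2⟩ := ih2 (h - min h n) (by omega)
    have hdis : Disjoint B1 B2 := by
      rw [Finset.disjoint_left]
      intro p hp1 hp2
      exact absurd ((hA p (hB1 hp1)).trans (hB p (hB2 hp2))) (lt_irrefl _)
    refine ⟨B1 ∪ B2, Finset.union_subset_union hB1 hB2, ?_, ?_⟩
    · rw [Finset.card_union_of_disjoint hdis, hc1, hc2]
      omega
    · have h3 := Bsp.cut B1 B2 (min h n) 0 (h - min h n) 0 w (fun p hp => hA p (hB1 hp))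
        (fun p hp => hB p (hB2 hp)) hb1 hb2
      have h4 : min h n + (h - min h n) = h := by omega
      rw [h4] at h3
      convert h3

end Pool.Agent.Lib.MP_d01072_ag.Tf
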