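import Pool.Agent.Lib.MP_d01072_ag.Tf.Spec

/-!
MP_d01072_ag, package Tf, module Trans: generic point of the closure.
-/

set_option autoImplicit false

namespace Pool.Agent.Lib.MP_d01072_ag.Tf

open MvPolynomial

private lemma exists_point (B : Type) [CommRing B] [Algebra ℂ B] (P : Ideal B) (hP : P.IsPrime) :
    ∃ (K : Type) (_ : Field K) (_ : Algebra ℂ K) (_ : IsAlgClosed K) (θ : B →ₐ[ℂ] K),
      ∀ b, θ b = 0 ↔ b ∈ P := by
  refine ⟨AlgebraicClosure (FractionRing (B ⧸ P)), inferInstance, inferInstance, inferInstance,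
    (IsScalarTower.toAlgHom ℂ (FractionRing (B ⧸ P)) (AlgebraicClosure (FractionRing (B ⧸ P)))).comp
      ((IsScalarTower.toAlgHom ℂ (B ⧸ P) (FractionRing (B ⧸ P))).comp (Ideal.Quotient.mkₐ ℂ P)),
    fun b => ?_⟩
  have h1 : ((IsScalarTower.toAlgHom ℂ (FractionRing (B ⧸ P))
      (AlgebraicClosure (FractionRing (B ⧸ P)))).comp
      ((IsScalarTower.toAlgHom ℂ (B ⧸ P) (FractionRing (B ⧸ P))).comp
        (Ideal.Quotient.mkₐ ℂ P))) b =
      algebraMap (FractionRing (B ⧸ P)) (AlgebraicClosure (FractionRing (B ⧸ P)))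
        (algebraMap (B ⧸ P) (FractionRing (B ⧸ P)) (Ideal.Quotient.mk P b)) := rfl
  rw [h1, map_eq_zero_iff _ (algebraMap (FractionRing (B ⧸ P))
    (AlgebraicClosure (FractionRing (B ⧸ P)))).injective,
    map_eq_zero_iff _ (IsFractionRing.injective (B ⧸ P) (FractionRing (B ⧸ P))),
    Ideal.Quotient.eq_zero_iff_mem]

/-- the tensor of the array `y` -/
private def TT {d p r : ℕ} (c : Fin d → Fin p) (y : Fin r × Fin p × Fin 3 → ℂ) : Tens 2 d :=
  ∑ j, pt (n := 2) c (fun k x => y (j, k, x))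

/-- the generic sum -/
private noncomputable def gn {d p : ℕ} (r : ℕ) (c : Fin d → Fin p) (i : Fin d → Fin 3) :
    MvPolynomial (Fin r × Fin p × Fin 3) ℂ := ∑ j, ∏ t, X (j, c t, i t)

private lemma eval_gn {d p r : ℕ} (c : Fin d → Fin p) (y : Fin r × Fin p × Fin 3 → ℂ)
    (Q : MvPolynomial (Fin d → Fin 3) ℂ) :
    eval y (aeval (gn r c) Q) = eval (TT c y) Q := by
  rw [eval_aeval']
  congr 2
  funext i
  simp only [gn, TT, map_sum, map_prod, eval_X, Finset.sum_apply, pt]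

private lemma par_symm {d h : ℕ} (σ : Equiv.Perm (Fin d)) (i : Fin d → Fin 3) :
    par 2 d h (fun t => i (σ t)) = par 2 d h i := by
  unfold par
  refine Finset.sum_congr rfl fun j _ => ?_
  exact Equiv.prod_comp σ fun t => (X (j, i t) : MvPolynomial (Fin h × Fin (2 + 1)) ℂ)

theorem t_Trans (h1 : S_Dec) (h2 : S_Stz) : S_Trans := by
  intro d p c κ r h m J hd hκ hr hm hJ
  by_contra hcon
  push Not at hcon
  -- hcon : ∀ Q, aeval Q ≠ 0 → ∃ T, ...
  let ψ : MvPolynomial (Fin d → Fin 3) ℂ →ₐ[ℂ] MvPolynomial (Fin h × Fin 3) ℂ :=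
    aeval (par 2 d h)
  let φ : MvPolynomial (Fin d → Fin 3) ℂ →ₐ[ℂ] MvPolynomial (Fin r × Fin p × Fin 3) ℂ :=
    aeval (gn r c)
  let 𝔮 : Ideal (MvPolynomial (Fin d → Fin 3) ℂ) := RingHom.ker ψ
  have hq : 𝔮.IsPrime := RingHom.ker_isPrime ψ
  let 𝔞 : Ideal (MvPolynomial (Fin r × Fin p × Fin 3) ℂ) :=
    ⨅ y : {y : Fin r × Fin p × Fin 3 → ℂ // TT c y ∈ sec 2 d h}, RingHom.ker (eval y.1)
  have hmem𝔞 : ∀ b, b ∈ 𝔞 ↔ ∀ y : Fin r × Fin p × Fin 3 → ℂ, TT c y ∈ sec 2 d h →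
      eval y b = 0 := by
    intro b
    rw [Ideal.mem_iInf]
    constructor
    · intro hb y hy
      exact hb ⟨y, hy⟩
    · intro hb y
      exact hb y.1 y.2
  have hcomap : 𝔞.comap φ = 𝔮 := by
    ext Q
    rw [Ideal.mem_comap, hmem𝔞]
    constructor
    · intro hQ
      by_contra hQ'
      obtain ⟨T, hT1, hT2, hT3⟩ := hcon Q hQ'
      obtain ⟨l, hl⟩ := hT1
      apply hT3
      have hTT : T = TT c (fun q => l q.1 q.2.1 q.2.2) := hl
      rw [hTT] at hT2 ⊢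
      rw [← eval_gn]
      exact hQ _ hT2
    · intro hQ y hy
      have h3 : eval y (φ Q) = eval (TT c y) Q := eval_gn c y Q
      rw [h3]
      exact hy Q fun S hS => aeval_par_eq_zero h Q hQ S hS
  obtain ⟨𝔓, hP, hle, hPc⟩ := Ideal.exists_comap_eq_of_mem_minimalPrimes (I := 𝔞)
    (f := (φ : MvPolynomial (Fin d → Fin 3) ℂ →+* MvPolynomial (Fin r × Fin p × Fin 3) ℂ)) 𝔮 (by
      have h3 : 𝔞.comap (φ : MvPolynomial (Fin d → Fin 3) ℂ →+*
          MvPolynomial (Fin r × Fin p × Fin 3) ℂ) = 𝔮 := hcomap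
      rw [h3, Ideal.minimalPrimes_eq_subsingleton_self]
      rfl)
  obtain ⟨K, _, _, _, θ, hθ⟩ := exists_point _ 𝔓 hP
  let l : Fin r → Fin p → Fin 3 → K := fun j k x => θ (X (j, k, x))
  let τ : (Fin d → Fin 3) → K := fun i => ∑ j, ∏ t, l j (c t) (i t)
  have hτ : ∀ Q : MvPolynomial (Fin d → Fin 3) ℂ, aeval τ Q = θ (φ Q) := by
    intro Q
    have h3 : (aeval τ : MvPolynomial (Fin d → Fin 3) ℂ →ₐ[ℂ] K) = θ.comp φ := by
      apply MvPolynomial.algHom_ext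
      intro i
      simp only [aeval_X, AlgHom.comp_apply, φ, τ, l, gn, map_sum, map_prod]
    rw [h3, AlgHom.comp_apply]
  have hτ0 : ∀ Q : MvPolynomial (Fin d → Fin 3) ℂ, aeval τ Q = 0 ↔
      aeval (par 2 d h) Q = 0 := by
    intro Q
    rw [hτ, hθ]
    have h3 : φ Q ∈ 𝔓 ↔ Q ∈ 𝔮 := by
      rw [← hPc, Ideal.mem_comap]
      rfl
    rw [h3]
    rfl
  obtain ⟨G, hG1, hG2⟩ := h1 K d p c κ r l hd hκ hr (by
    intro σ i
    have h3 : aeval τ (X (fun t => i (σ t)) - X i : MvPolynomial (Fin d → Fin 3) ℂ) = 0 := by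
      rw [hτ0, map_sub, aeval_X, aeval_X, par_symm, sub_self]
    rw [map_sub, aeval_X, aeval_X, sub_eq_zero] at h3
    exact h3)
  have hind : AlgebraicIndependent ℂ (fun j => τ (J j)) := by
    rw [algebraicIndependent_iff]
    intro P hP
    rw [algebraicIndependent_iff] at hJ
    apply hJ P
    have h3 := (hτ0 (rename J P)).1 (by rw [aeval_rename]; exact hP)
    rw [aeval_rename] at h3
    exact h3
  have h4 := h2 ℂ K m (fun j => τ (J j)) G hind (fun j => hG2 (J j))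
  omega

end Pool.Agent.Lib.MP_d01072_ag.Tf
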