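import Pool.Agent.Lib.MP_d01072_ag.Tf.Spec

/-!
# `S_Tri`: induction over the triangles
-/

set_option autoImplicit false

namespace Pool.Agent.Lib.MP_d01072_ag.Tf

namespace TriX

private theorem card_bsp {A : Finset (ℤ × ℤ)} {n s : ℕ} (h : Bsp A n s) : A.card = 3 * n + s := by
  induction h with
  | nil => rfl
  | sing p => simp
  | tri p q r h =>
    have h1 : p ≠ q := by
      rintro rfl
      apply h
      simp [dt]
    have h2 : p ≠ r := by
      rintro rfl
      apply h
      simp [dt]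
    have h3 : q ≠ r := by
      rintro rfl
      apply h
      simp only [dt]
      ring
    rw [Finset.card_insert_of_notMem (by simp [h1, h2]),
      Finset.card_insert_of_notMem (by simp [h3]), Finset.card_singleton]
  | cut A B n s n' s' w hA hB _ _ ih1 ih2 =>
    rw [Finset.card_union_of_disjoint, ih1, ih2]
    · omega
    · rw [Finset.disjoint_left]
      intro p hp hp'
      have h1 := hA p hp
      have h2 := hB p hp'
      omega

private theorem mem_Rw {d k : ℕ} {p : ℤ × ℤ} :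
    p ∈ Rw d k ↔ (0 ≤ p.1 ∧ 0 ≤ p.2 ∧ p.1 + p.2 ≤ d) ∧ p.2 < k := by
  unfold Rw
  rw [Finset.mem_filter, mem_Td]

private theorem step (h1 : S_Str) {e k n s n' s' : ℕ} (h : Bsp (Rw (e + k) k) n s)
    (h' : Bsp (Td e) n' s') : Bsp (Td (e + k)) (n + n') (s + s') := by
  have e1 : Td (e + k) = Rw (e + k) k ∪ (Td e).image fun p => p + (0, (k : ℤ)) := by
    ext p
    rw [Finset.mem_union, mem_Td, mem_Rw, Finset.mem_image]
    constructor
    · intro h1
      by_cases h2 : p.2 < k
      · left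
        exact ⟨h1, h2⟩
      · right
        refine ⟨(p.1, p.2 - k), mem_Td.2 ?_, ?_⟩
        · push_cast at h1
          simp only
          omega
        · ext
          · simp
          · simp
    · rintro (h1 | ⟨q, hq, rfl⟩)
      · exact h1.1
      · have := mem_Td.1 hq
        simp only [Prod.fst_add, Prod.snd_add]
        push_cast
        omega
  rw [e1]
  refine Bsp.cut _ _ _ _ _ _ (0, 2, 1 - 2 * (k : ℤ)) ?_ ?_ h (h1.1 _ _ _ (0, (k : ℤ)) h')
  · intro p hp
    have := mem_Rw.1 hp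
    simp only [af]
    omega
  · intro p hp
    obtain ⟨q, hq, rfl⟩ := Finset.mem_image.1 hp
    have := mem_Td.1 hq
    simp only [af, Prod.fst_add, Prod.snd_add]
    omega

private theorem ch1 (d : ℕ) : (d + 1 + 2).choose 2 = (d + 2).choose 2 + (d + 2) := by
  rw [show d + 1 + 2 = (d + 2) + 1 by ring, Nat.choose_succ_succ' (d + 2) 1, Nat.choose_one_right]
  ring

private theorem ch2 (d : ℕ) : (d + 2 + 2).choose 2 = (d + 2).choose 2 + (2 * d + 5) := by
  have h1 := ch1 d
  have h2 := ch1 (d + 1)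
  rw [show d + 1 + 1 + 2 = d + 2 + 2 by ring] at h2
  omega

private theorem ch4 (d : ℕ) : (d + 4 + 2).choose 2 = (d + 2).choose 2 + (4 * d + 14) := by
  have h1 := ch2 d
  have h2 := ch2 (d + 2)
  rw [show d + 2 + 2 + 2 = d + 4 + 2 by ring] at h2
  omega

private theorem ch_mod (r : ℕ) : ∃ t, (3 * r + 1 + 2).choose 2 = 3 * t := by
  induction r with
  | zero => exact ⟨1, rfl⟩
  | succ r ih =>
    obtain ⟨t, ht⟩ := ih
    have h1 := ch2 (3 * r + 1)
    have h2 := ch1 (3 * r + 1 + 2)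
    rw [show 3 * r + 1 + 2 + 1 + 2 = 3 * (r + 1) + 1 + 2 by ring] at h2
    exact ⟨t + 3 * r + 4, by omega⟩

end TriX

open TriX

theorem t_Tri (h1 : S_Str) (h2 : S_B568) : S_Tri := by
  have key : ∀ d : ℕ, 5 ≤ d →
      ∃ n s : ℕ, Bsp (Td d) n s ∧ 3 * n + s = (d + 2).choose 2 ∧ s ≤ 1 := by
    intro d
    induction d using Nat.strong_induction_on with
    | _ d ih =>
      intro hd
      by_cases h5 : d = 5
      · subst h5
        exact ⟨7, 0, h2.1, rfl, by omega⟩
      by_cases h6 : d = 6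
      · subst h6
        exact ⟨9, 1, h2.2.1, rfl, le_rfl⟩
      by_cases h8 : d = 8
      · subst h8
        exact ⟨15, 0, h2.2.2, rfl, by omega⟩
      have hm : d % 3 = 0 ∨ d % 3 = 1 ∨ d % 3 = 2 := by omega
      rcases hm with hm | hm | hm
      · -- d = 3 q
        obtain ⟨q, rfl⟩ : ∃ q, d = 3 * q := ⟨d / 3, by omega⟩
        obtain ⟨e, he⟩ : ∃ e, 3 * q = e + 2 := ⟨3 * q - 2, by omega⟩
        obtain ⟨n, s, b1, b2, b3⟩ := ih e (by omega) (by omega)
        have c1 := h1.2.2.1 q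
        rw [he] at c1 ⊢
        have c2 := step h1 c1 b1
        obtain ⟨r, rfl⟩ : ∃ r, e = 3 * r + 1 := ⟨q - 1, by omega⟩
        obtain ⟨t, ht⟩ := ch_mod r
        have c3 := ch2 (3 * r + 1)
        refine ⟨_, _, c2, ?_, ?_⟩
        · omega
        · omega
      · -- d = 3 q + 1
        obtain ⟨q, rfl⟩ : ∃ q, d = 3 * q + 1 := ⟨d / 3, by omega⟩
        obtain ⟨e, he⟩ : ∃ e, 3 * q + 1 = e + 2 := ⟨3 * q - 1, by omega⟩
        obtain ⟨n, s, b1, b2, b3⟩ := ih e (by omega) (by omega)
        have c1 := h1.2.1 q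
        rw [he] at c1 ⊢
        have c2 := step h1 c1 b1
        have c3 := ch2 e
        refine ⟨_, _, c2, ?_, ?_⟩
        · omega
        · omega
      · -- d = 3 q + 5
        obtain ⟨q, rfl⟩ : ∃ q, d = 3 * q + 5 := ⟨(d - 5) / 3, by omega⟩
        obtain ⟨e, he⟩ : ∃ e, 3 * q + 5 = e + 4 := ⟨3 * q + 1, by omega⟩
        obtain ⟨n, s, b1, b2, b3⟩ := ih e (by omega) (by omega)
        have c1 := h1.2.2.2 q
        rw [he] at c1 ⊢
        have c2 := step h1 c1 b1
        have c3 := ch4 e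
        refine ⟨_, _, c2, ?_, ?_⟩
        · omega
        · omega
  intro d hd
  obtain ⟨n, s, b1, b2, b3⟩ := key d hd
  exact ⟨by rw [card_bsp b1, b2], n, s, b1, b2, b3⟩

end Pool.Agent.Lib.MP_d01072_ag.Tf
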