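import Pool.Agent.Lib.MP_d01072_ag.Tf.Acl
import Pool.Agent.Lib.MP_d01072_ag.Tf.Stz
import Pool.Agent.Lib.MP_d01072_ag.Tf.KerP
import Pool.Agent.Lib.MP_d01072_ag.Tf.BcP
import Pool.Agent.Lib.MP_d01072_ag.Tf.Bin
import Pool.Agent.Lib.MP_d01072_ag.Tf.HFac
import Pool.Agent.Lib.MP_d01072_ag.Tf.Cop
import Pool.Agent.Lib.MP_d01072_ag.Tf.Elim
import Pool.Agent.Lib.MP_d01072_ag.Tf.Base
import Pool.Agent.Lib.MP_d01072_ag.Tf.Line
import Pool.Agent.Lib.MP_d01072_ag.Tf.Res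
import Pool.Agent.Lib.MP_d01072_ag.Tf.Hil
import Pool.Agent.Lib.MP_d01072_ag.Tf.Exc
import Pool.Agent.Lib.MP_d01072_ag.Tf.Gcd
import Pool.Agent.Lib.MP_d01072_ag.Tf.Ind
import Pool.Agent.Lib.MP_d01072_ag.Tf.Crv
import Pool.Agent.Lib.MP_d01072_ag.Tf.CoefF
import Pool.Agent.Lib.MP_d01072_ag.Tf.Par
import Pool.Agent.Lib.MP_d01072_ag.Tf.FinNum
import Pool.Agent.Lib.MP_d01072_ag.Tf.PeelNum
import Pool.Agent.Lib.MP_d01072_ag.Tf.Fin
import Pool.Agent.Lib.MP_d01072_ag.Tf.Peel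
import Pool.Agent.Lib.MP_d01072_ag.Tf.Main
import Pool.Agent.Lib.MP_d01072_ag.Tf.Dec
import Pool.Agent.Lib.MP_d01072_ag.Tf.Trans
import Pool.Agent.Lib.MP_d01072_ag.Tf.BAdm
import Pool.Agent.Lib.MP_d01072_ag.Tf.AdmI
import Pool.Agent.Lib.MP_d01072_ag.Tf.Sub
import Pool.Agent.Lib.MP_d01072_ag.Tf.Str
import Pool.Agent.Lib.MP_d01072_ag.Tf.B568
import Pool.Agent.Lib.MP_d01072_ag.Tf.Tri
import Pool.Agent.Lib.MP_d01072_ag.Tf.AH
import Pool.Agent.Lib.MP_d01072_ag.Tf.Final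

/-!
MP_d01072_ag, package Tf: assembly of the modules.
-/

set_option autoImplicit false

namespace Pool.Agent.Lib.MP_d01072_ag.Tf

theorem all_Cop : S_Cop := t_Cop t_HFac

theorem all_Base : S_Base := t_Base t_Acl t_KerP all_Cop t_Elim

theorem all_Line : S_Line := t_Line all_Cop t_Elim

theorem all_Hil : S_Hil := t_Hil t_Res t_Bin

theorem all_Exc : S_Exc := t_Exc all_Line t_Res t_Bin all_Hil

theorem all_Gcd : S_Gcd := t_Gcd t_HFac

theorem all_Par : S_Par := t_Par t_Acl (t_CoefF t_Acl) (t_Crv t_Acl) t_Ind all_Base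

theorem all_Fin : S_Fin := t_Fin t_Acl t_KerP t_BcP all_Hil all_Exc all_Gcd t_Ind all_Par t_FinNum

theorem all_Peel : S_Peel :=
  t_Peel t_Acl t_BcP all_Hil all_Gcd t_Ind (t_CoefF t_Acl) t_PeelNum all_Fin

theorem all_Main : S_Main := t_Main t_Ind all_Peel

theorem all_Trans : S_Trans := t_Trans (t_Dec t_Acl all_Main) t_Stz

theorem all_AH : S_AH := t_AH t_BAdm t_AdmI t_Sub (t_Tri t_Str t_B568)

/-- the theorem -/
theorem all_Final : S_Final := t_Final all_Trans all_AH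

end Pool.Agent.Lib.MP_d01072_ag.Tf
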