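import Pool.Agent.Lib.MP_d01072_ag.Tf.Spec

/-!
MP_d01072_ag, package Tf, module Final: the theorem.
-/

set_option autoImplicit false

namespace Pool.Agent.Lib.MP_d01072_ag.Tf

open MvPolynomial

/-- from a polynomial to a homogeneous polynomial -/
private theorem fin_homog {n d p : ℕ} (hd : 0 < d) (c : Fin d → Fin p) (h v : ℕ)
    (H : ∃ Q : MvPolynomial (Fin d → Fin (n + 1)) ℂ, (∃ T ∈ sec n d h, eval T Q ≠ 0) ∧
      ∀ T ∈ sec n d h, eval T Q ≠ 0 → rk c T = v ∧ srk T = v) :
    ∃ (e : ℕ) (Q : MvPolynomial (Fin d → Fin (n + 1)) ℂ), Q.IsHomogeneous e ∧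
      (∃ T ∈ sec n d h, eval T Q ≠ 0) ∧
      ∀ T ∈ sec n d h, eval T Q ≠ 0 → rk c T = v ∧ srk T = v := by
  obtain ⟨Q, ⟨T0, hT0, hT0Q⟩, hQ⟩ := H
  have h1 : ∃ k, eval T0 (homogeneousComponent k Q) ≠ 0 := by
    by_contra hcon
    push Not at hcon
    apply hT0Q
    rw [← sum_homogeneousComponent Q, map_sum]
    exact Finset.sum_eq_zero fun k _ => hcon k
  obtain ⟨k, hk⟩ := h1
  refine ⟨k, homogeneousComponent k Q, homogeneousComponent_isHomogeneous k Q, ⟨T0, hT0, hk⟩, ?_⟩
  intro T hT hTk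
  set q : Polynomial ℂ :=
    aeval (fun i => Polynomial.C (T i) * Polynomial.X :
      (Fin d → Fin (n + 1)) → Polynomial ℂ) Q with hq
  have hq0 : Polynomial.X * q ≠ 0 := by
    refine mul_ne_zero Polynomial.X_ne_zero fun h0 => hTk ?_
    rw [← coeff_line, ← hq, h0, Polynomial.coeff_zero]
  obtain ⟨z, hz⟩ : ∃ z, (Polynomial.X * q).eval z ≠ 0 := by
    by_contra hcon
    push Not at hcon
    exact hq0 (Polynomial.funext fun z => by rw [hcon, Polynomial.eval_zero])
  rw [Polynomial.eval_mul, Polynomial.eval_X, hq, eval_line] at hz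
  have hz0 := left_ne_zero_of_mul hz
  obtain ⟨h2, h3⟩ := hQ (z • T) (smul_mem_sec hd hT z) (right_ne_zero_of_mul hz)
  rw [rk_smul hd c T hz0] at h2
  rw [srk, rk_smul hd (one d) T hz0] at h3
  exact ⟨h2, h3⟩

/-- a polynomial which vanishes on the sums vanishes on the parametrisation -/
private theorem fin_par {n d h : ℕ} (P : MvPolynomial (Fin d → Fin (n + 1)) ℂ)
    (hP : ∀ S : Tens n d, SumOf (one d) h S → eval S P = 0) : aeval (par n d h) P = 0 := by
  refine MvPolynomial.funext fun y => ?_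
  rw [eval_aeval_par, map_zero]
  exact hP _ ⟨fun j _ a => y (j, a), rfl⟩

/-- the elements of the secant variety are symmetric -/
private theorem fin_symm {n d h : ℕ} {T : Tens n d} (hT : T ∈ sec n d h)
    (σ : Equiv.Perm (Fin d)) (i : Fin d → Fin (n + 1)) : T (fun t => i (σ t)) = T i := by
  have h1 := hT (X (fun t => i (σ t)) - X i) ?_
  · rw [map_sub, eval_X, eval_X] at h1
    exact sub_eq_zero.1 h1
  · rintro S ⟨l, rfl⟩
    rw [map_sub, eval_X, eval_X, sub_eq_zero]
    simp only [Finset.sum_apply]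
    refine Finset.sum_congr rfl fun j _ => ?_
    exact Equiv.prod_comp σ (fun t => l j 0 (i t))

theorem t_Final (h1 : S_Trans) (h2 : S_AH) : S_Final := by
  intro d p c κ h hd hc hh
  have hd0 : 0 < d := by omega
  have hN : (d + 2).choose 2 * 2 = (d + 1) * (d + 2) := by
    rw [Nat.choose_two_right, Nat.div_mul_cancel]
    · have : d + 2 - 1 = d + 1 := rfl
      rw [this, mul_comm]
    · have := Nat.even_mul_pred_self (d + 2)
      exact this.two_dvd
  set N := (d + 2).choose 2 with hNd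
  have hN1 : 1 ≤ N := by
    by_contra hcon
    have h0 : N = 0 := by omega
    rw [h0] at hN
    have : 0 < (d + 1) * (d + 2) := by positivity
    omega
  -- the affine statement
  have key : ∀ h' : ℕ, 1 ≤ h' → 3 * (h' - 1) < N →
      ∃ Q : MvPolynomial (Fin d → Fin 3) ℂ, (∃ T ∈ sec 2 d h', eval T Q ≠ 0) ∧
        ∀ T ∈ sec 2 d h', eval T Q ≠ 0 → rk c T = h' ∧ srk T = h' := by
    intro h' hh' hlt
    obtain ⟨⟨m, J, hm, hJ⟩, -⟩ := h2 d h' hd hh' hlt
    obtain ⟨Q1, hQ10, hQ1⟩ := h1 d p c κ (h' - 1) h' m J (by omega) hc (by omega) hm hJ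
    obtain ⟨Q2, hQ2, hopen⟩ := exists_open_image (par 2 d h')
    refine ⟨Q1 * Q2, ?_, ?_⟩
    · have h3 : aeval (par 2 d h') (Q1 * Q2) ≠ 0 := by
        rw [map_mul]
        exact mul_ne_zero hQ10 hQ2
      have h4 : ∃ y, eval y (aeval (par 2 d h') (Q1 * Q2)) ≠ 0 := by
        by_contra hcon
        push Not at hcon
        exact h3 (MvPolynomial.funext fun y => by rw [hcon, map_zero])
      obtain ⟨y, hy⟩ := h4
      rw [eval_aeval_par] at hy
      exact ⟨_, sumOf_mem_sec ⟨fun j _ a => y (j, a), rfl⟩, hy⟩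
    · intro T hT hTQ
      rw [map_mul] at hTQ
      have hT1 := left_ne_zero_of_mul hTQ
      have hT2 := right_ne_zero_of_mul hTQ
      obtain ⟨y, hy⟩ := hopen T (fun P hP => hT P fun S hS => aeval_par_eq_zero _ P hP S hS) hT2
      have hsum : SumOf (one d) h' T := by
        refine ⟨fun j _ a => y (j, a), ?_⟩
        funext i
        rw [hy i]
        simp only [par, map_sum, map_prod, eval_X, Finset.sum_apply, pt]
      have hnot : ∀ r', r' + 1 ≤ h' → ¬ SumOf c r' T := fun r' hr' hcon =>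
        hT1 (hQ1 T (hcon.mono hd0 (by omega)) hT)
      exact ⟨rk_eq hsum.of_one hnot, rk_eq hsum fun r' hr' hcon => hnot r' hr' hcon.of_one⟩
  rcases le_or_gt h ((N + 2) / 3) with hle | hgt
  · rw [min_eq_left hle]
    exact fin_homog hd0 c h h (key h hh (by omega))
  · rw [min_eq_right hgt.le]
    set g := (N + 2) / 3 with hg
    have hg1 : 1 ≤ g := by omega
    have hg2 : 3 * (g - 1) < N := by omega
    have hg3 : N ≤ 3 * g := by omega
    have hsec : sec 2 d h = sec 2 d g := by
      ext T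
      constructor
      · intro hT P hP
        exact (h2 d g hd hg1 hg2).2 hg3 P (fin_par P hP) T fun σ i => fin_symm hT σ i
      · intro hT P hP
        exact hT P fun S hS => hP S (hS.mono hd0 hgt.le)
    rw [hsec]
    exact fin_homog hd0 c g g (key g hg1 hg2)

end Pool.Agent.Lib.MP_d01072_ag.Tf
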