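import Pool.Agent.Lib.MP_d01072_ag.Tf.Spec

/-!
MP_d01072_ag, package Tf, module **Peel**: splitting off the fixed part of the curves of degree `δ`
through the points.
-/

set_option autoImplicit false

namespace Pool.Agent.Lib.MP_d01072_ag.Tf

open MvPolynomial

private theorem nrm_ne {K : Type} [Field K] {a : Fin 3 → K} (h : Nrm a) : a ≠ 0 := by
  obtain ⟨l, hl⟩ := h
  rintro rfl
  exact zero_ne_one hl

private theorem Fm_span (K : Type) [Field K] (e : ℕ) :
    Submodule.span K {g : R K | ∃ b : Fin 3 →₀ ℕ, b.degree = e ∧ g = monomial b 1} = Fm K e := by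
  apply le_antisymm
  · refine Submodule.span_le.2 ?_
    rintro g ⟨b, hb, rfl⟩
    exact isHomogeneous_monomial 1 hb
  · intro f hf
    have hf' : f.IsHomogeneous e := hf
    rw [← support_sum_monomial_coeff f]
    refine Submodule.sum_mem _ fun b hb => ?_
    have h1 : monomial b (coeff b f) = coeff b f • (monomial b 1 : R K) := by
      rw [smul_monomial, smul_eq_mul, mul_one]
    rw [h1]
    refine Submodule.smul_mem _ _ (Submodule.subset_span ⟨b, ?_, rfl⟩)
    by_contra h
    exact (mem_support_iff.1 hb) (hf'.coeff_eq_zero h)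

/-- the dimension of the space of forms -/
private theorem finrank_Fm (h3 : S_Hil) (K : Type) [Field K] [IsAlgClosed K] (m : ℕ) :
    Module.finrank K (Fm K m) = (m + 2).choose 2 := by
  have h := ((h3 K ∅ (by simp)).1 m)
  have e1 : Hf (∅ : Finset (Fin 3 → K)) m = 0 := by
    have := h.2
    simpa using this
  have e2 : Vn (∅ : Finset (Fin 3 → K)) m = Fm K m := by
    ext f
    constructor
    · intro hf
      exact hf.1
    · intro hf
      exact ⟨hf, by simp⟩
  rw [← e2]
  omega

private theorem off_smul {K : Type} [Field K] (A : Finset (Fin 3 → K)) (u : K) (hu : u ≠ 0)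
    (F : R K) : off A (C u * F) = off A F := by
  unfold off
  ext a
  simp only [Finset.mem_filter, map_mul, eval_C, ne_eq, mul_eq_zero, hu, false_or]

theorem t_Peel (h1 : S_Acl) (h2 : S_BcP) (h3 : S_Hil) (h4 : S_Gcd) (h5 : S_Ind) (h6 : S_CoefF)
    (h7 : S_PeelNum) (h8 : S_Fin) : S_Peel := by
  intro k K _ _ _ _ A d δ L hA hr hdδ hδd hcard hL
  classical
  obtain ⟨p1, p2⟩ := h7 d δ A.card hdδ hδd hcard
  obtain ⟨g1, -⟩ := h3 K A (fun a ha => nrm_ne (hA a ha))
  have hV : Vn A δ ≠ ⊥ := by
    intro hb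
    have e1 := (g1 δ).1
    rw [hb, finrank_bot, add_zero] at e1
    omega
  obtain ⟨t, F0, ht, hFh0, hF00, -, hNC0, hmul0, hHf0⟩ := h4 K A δ hV
  obtain ⟨u, G1, hu, hG1, hGc⟩ := h6 k K t F0 hFh0 hF00
  set F : R K := C u * F0 with hF
  have hoff : off A F = off A F0 := off_smul A u hu F0
  have hFh : F.IsHomogeneous t := by
    have := (isHomogeneous_C (Fin 3) u).mul hFh0
    rwa [zero_add] at this
  have hF0 : F ≠ 0 := mul_ne_zero (by rwa [ne_eq, C_eq_zero]) hF00
  have hmul : ∀ g ∈ Vn (off A F0) (δ - t), F * g ∈ Vn A δ := by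
    intro g hg
    have := (Vn A δ).smul_mem u (hmul0 g hg)
    rwa [← C_mul', ← mul_assoc] at this
  obtain ⟨B, hBo, hVB, hHB⟩ := (h5 K (off A F0) (δ - t)).1
  have hBA : B ⊆ A := hBo.trans (by unfold off; exact Finset.filter_subset _ _)
  have hHfB : Hf (off A F0) (δ - t) = B.card := by
    rw [← hHB]
    unfold Hf
    rw [hVB]
  have hHf : A.card + (δ - t + 2).choose 2 = B.card + (δ + 2).choose 2 := by
    rw [hr, hHfB] at hHf0
    exact hHf0
  set e := d - δ with he
  have hmul2 : ∀ f ∈ (Vn B (δ - t) * Fm K e : Submodule K (R K)),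
      F * f ∈ (Vn A δ * Fm K e : Submodule K (R K)) := by
    intro f hf
    refine Submodule.mul_induction_on hf ?_ ?_
    · intro g hg w hw
      rw [← mul_assoc]
      refine Submodule.mul_mem_mul (hmul g ?_) hw
      rw [← hVB]
      exact hg
    · intro x y hx hy
      rw [mul_add]
      exact add_mem hx hy
  set L' : R K →ₗ[K] K := L ∘ₗ LinearMap.mulLeft K F with hL'
  obtain ⟨G2, hG2, hG2L⟩ := h8 k K B (δ - t) e L' (fun a ha => hA a (hBA ha)) hHB
    (by rw [hVB]; exact hNC0) ((p2 t ht).2 B.card hHf) (fun f hf => hL _ (hmul2 f hf))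
  set P : Set (R K) := (fun g => F * g) '' {g : R K | ∃ b : Fin 3 →₀ ℕ, b.degree = d - t ∧
    g = monomial b 1} with hP
  have hPh : ∀ f ∈ P, f.IsHomogeneous d ∧ ∀ s, coeff s f ∈ Cl k (G1 : Set K) := by
    rintro f ⟨g, ⟨b, hb, rfl⟩, rfl⟩
    refine ⟨?_, fun s => ?_⟩
    · have := hFh.mul (isHomogeneous_monomial (1 : K) hb)
      rwa [Nat.add_sub_cancel' (by omega)] at this
    · simp only
      rw [coeff_mul_monomial']
      split_ifs with h
      · rw [mul_one]
        exact hGc _
      · exact zero_mem _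
  have hspan : Submodule.span K P = (Fm K (d - t)).map (LinearMap.mulLeft K F) := by
    rw [← Fm_span K (d - t), Submodule.map_span]
    rfl
  have hinj : Function.Injective (LinearMap.mulLeft K F) := fun x y hxy =>
    mul_left_cancel₀ hF0 hxy
  have hrkP : Module.finrank K (Submodule.span K P) = (d - t + 2).choose 2 := by
    rw [hspan, ← finrank_Fm h3 K (d - t)]
    exact (LinearEquiv.finrank_eq (Submodule.equivMapOfInjective _ hinj _)).symm
  have hle : (d - t + 2).choose 2 ≤ (d + 2).choose 2 := Nat.choose_le_choose 2 (by omega)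
  obtain ⟨M, hM, hM2⟩ := h2 K (Cl k (G1 : Set K)) d ((d + 2).choose 2 - (d - t + 2).choose 2) P hPh
    (by rw [hrkP]; omega)
  set G : Finset K := G1 ∪ G2 ∪ M.image (fun s => L (monomial s 1)) with hG
  have hGs : (G : Set K) ⊆ (Cl k (G : Set K) : Set K) := (h1 k K (G : Set K) ∅).1
  have hcl : ∀ H : Finset K, H ⊆ G → Cl k (H : Set K) ≤ Cl k (G : Set K) := fun H hH =>
    (h1 k K (H : Set K) (G : Set K)).2.1 (Set.Subset.trans (by exact_mod_cast hH) hGs)
  refine ⟨G, ?_, fun s hs => hM2 L (Cl k (G : Set K)) (hcl G1 ?_) ?_ ?_ s hs⟩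
  · have c1 : G.card ≤ (G1.card + G2.card) + M.card :=
      (Finset.card_union_le _ _).trans (add_le_add (Finset.card_union_le _ _)
        Finset.card_image_le)
    have c2 := (p2 t ht).1
    omega
  · exact Finset.subset_union_left.trans Finset.subset_union_left
  · rintro f ⟨g, ⟨b, hb, rfl⟩, rfl⟩
    refine hcl G2 (Finset.subset_union_right.trans Finset.subset_union_left) ?_
    exact hG2L b (by rw [hb, he]; omega)
  · intro s hs
    refine hGs ?_
    exact Finset.mem_coe.2 (Finset.mem_union_right _ (Finset.mem_image_of_mem _ hs))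

end Pool.Agent.Lib.MP_d01072_ag.Tf
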