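import Pool.Agent.Lib.MP_d01072_ag.Tf.Spec

/-!
MP_d01072_ag, package Tf, module Res: restriction to a line.
-/

set_option autoImplicit false

namespace Pool.Agent.Lib.MP_d01072_ag.Tf

open MvPolynomial

/-- the linear form of the line `s` -/
private noncomputable def lam {K : Type} [Field K] (s : K) : R K := X 0 + C s * X 1 + C (s ^ 2) * X 2

private theorem lam_hom {K : Type} [Field K] (s : K) : (lam s).IsHomogeneous 1 :=
  ((isHomogeneous_X K 0).add (isHomogeneous_C_mul_X s 1)).add (isHomogeneous_C_mul_X (s ^ 2) 2)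

private theorem lam_eval {K : Type} [Field K] (s : K) (a : Fin 3 → K) :
    eval a (lam s) = a 0 + s * a 1 + s ^ 2 * a 2 := by
  simp [lam]

private theorem lam_ne {K : Type} [Field K] (s : K) : lam s ≠ 0 := by
  intro h
  have := lam_eval s ![1, 0, 0]
  rw [h] at this
  simp at this

private theorem rs_lam {K : Type} [Field K] (s : K) : rs s (lam s) = 0 := by
  simp only [lam, rs, map_add, map_mul, aeval_X, algHom_C, Matrix.cons_val_zero,
    Matrix.cons_val_one, Matrix.cons_val, Polynomial.algebraMap_eq]
  ring

private theorem rs_eval {K : Type} [Field K] (s x : K) (f : R K) :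
    (rs s f).eval x = eval ![-(s * x) - s ^ 2, x, 1] f := by
  have : (Polynomial.aeval x).comp (rs s) =
      (aeval ![-(s * x) - s ^ 2, x, 1] : R K →ₐ[K] K) := by
    apply MvPolynomial.algHom_ext
    intro i
    fin_cases i <;> simp [rs]
  have h2 := DFunLike.congr_fun this f
  rw [AlgHom.comp_apply, Polynomial.coe_aeval_eq_eval, MvPolynomial.aeval_eq_eval] at h2
  exact h2

private theorem rs_deg {K : Type} [Field K] (s : K) (m : ℕ) (f : R K) (hf : f.IsHomogeneous m) :
    rs s f ∈ Polynomial.degreeLE K m := by
  rw [rs, aeval_def, eval₂_eq']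
  refine Submodule.sum_mem _ fun d hd => ?_
  rw [Polynomial.mem_degreeLE]
  have hdeg : d.degree = m := by
    have := hf (mem_support_iff.mp hd)
    rw [Finsupp.degree_eq_weight_one]
    exact this
  rw [Fin.prod_univ_three]
  have h3 : d 0 + d 1 + d 2 = m := by
    rw [← hdeg, Finsupp.degree_eq_sum, Fin.sum_univ_three]
  refine Polynomial.natDegree_le_iff_degree_le.mp ?_
  have e0 : (-(Polynomial.C s * Polynomial.X) - Polynomial.C (s ^ 2) : Polynomial K).natDegree ≤
      1 := by compute_degree
  simp only [Matrix.cons_val_zero, Matrix.cons_val_one, Matrix.cons_val, one_pow, mul_one,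
    Polynomial.algebraMap_eq]
  calc (Polynomial.C (coeff d f) * ((-(Polynomial.C s * Polynomial.X) - Polynomial.C (s ^ 2)) ^ d 0
        * Polynomial.X ^ d 1)).natDegree
      ≤ ((-(Polynomial.C s * Polynomial.X) - Polynomial.C (s ^ 2)) ^ d 0
        * Polynomial.X ^ d 1 : Polynomial K).natDegree := Polynomial.natDegree_C_mul_le _ _
    _ ≤ d 0 * 1 + d 1 := by
        refine Polynomial.natDegree_mul_le_of_le ?_ (Polynomial.natDegree_X_pow_le _)
        exact Polynomial.natDegree_pow_le_of_le _ e0
    _ ≤ m := by omega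

/-- elimination of the first variable -/
private noncomputable def phi {K : Type} [Field K] (s : K) : R K →ₐ[K] R K :=
  aeval ![-(C s * X 1) - C (s ^ 2) * X 2, X 1, X 2]

private theorem phi_eval {K : Type} [Field K] (s : K) (a : Fin 3 → K) (f : R K) :
    eval a (phi s f) = eval ![-(s * a 1) - s ^ 2 * a 2, a 1, a 2] f := by
  have : (aeval a : R K →ₐ[K] K).comp (phi s) =
      (aeval ![-(s * a 1) - s ^ 2 * a 2, a 1, a 2] : R K →ₐ[K] K) := by
    apply MvPolynomial.algHom_ext
    intro i
    fin_cases i <;> simp [phi]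
  have h2 := DFunLike.congr_fun this f
  rw [AlgHom.comp_apply, MvPolynomial.aeval_eq_eval, MvPolynomial.aeval_eq_eval] at h2
  exact h2

private theorem lam_dvd_sub {K : Type} [Field K] (s : K) (f : R K) : lam s ∣ f - phi s f := by
  rw [← Ideal.mem_span_singleton, ← Ideal.Quotient.eq]
  have : (Ideal.Quotient.mkₐ K (Ideal.span {lam s})) =
      (Ideal.Quotient.mkₐ K (Ideal.span {lam s})).comp (phi s) := by
    apply MvPolynomial.algHom_ext
    intro i
    simp only [AlgHom.comp_apply, Ideal.Quotient.mkₐ_eq_mk]
    rw [Ideal.Quotient.eq, Ideal.mem_span_singleton]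
    fin_cases i
    · refine ⟨1, ?_⟩
      simp only [phi, lam, aeval_X, Fin.zero_eta, Matrix.cons_val_zero]
      ring
    · simp [phi]
    · simp [phi]
  exact DFunLike.congr_fun this f

private theorem hom_smul {K : Type} [Field K] (m : ℕ) (f : R K) (hf : f.IsHomogeneous m) (c : K)
    (a : Fin 3 → K) : eval (fun i => c * a i) f = c ^ m * eval a f := by
  rw [eval_eq', eval_eq', Finset.mul_sum]
  refine Finset.sum_congr rfl fun d hd => ?_
  have hdeg : d.degree = m := by
    have := hf (mem_support_iff.mp hd)
    rw [Finsupp.degree_eq_weight_one]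
    exact this
  rw [Finsupp.degree_eq_sum, Fin.sum_univ_three] at hdeg
  rw [Fin.prod_univ_three, Fin.prod_univ_three, ← hdeg]
  ring

private theorem lam_dvd {K : Type} [Field K] [Infinite K] (s : K) (m : ℕ) (f : R K)
    (hf : f.IsHomogeneous m) (h : rs s f = 0) : lam s ∣ f := by
  have h0 : phi s f * X 2 = 0 := by
    apply MvPolynomial.funext
    intro a
    rw [map_mul, eval_X, map_zero]
    by_cases ha : a 2 = 0
    · rw [ha, mul_zero]
    · rw [phi_eval]
      have e : (![-(s * a 1) - s ^ 2 * a 2, a 1, a 2] : Fin 3 → K) =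
          fun i => a 2 * (![-(s * (a 1 / a 2)) - s ^ 2, a 1 / a 2, 1] : Fin 3 → K) i := by
        funext i
        fin_cases i
        · simp only [Fin.zero_eta, Matrix.cons_val_zero]
          field_simp
        · simp only [Fin.mk_one, Matrix.cons_val_one, Matrix.cons_val_zero]
          field_simp
        · simp
      rw [e, hom_smul m f hf, ← rs_eval, h, Polynomial.eval_zero, mul_zero, zero_mul]
  have h1 : phi s f = 0 := by
    rcases mul_eq_zero.mp h0 with h1 | h1
    · exact h1
    · exact absurd h1 (X_ne_zero 2)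
  have := lam_dvd_sub s f
  rwa [h1, sub_zero] at this

attribute [local instance] MvPolynomial.gradedAlgebra

private theorem lam_fac {K : Type} [Field K] [Infinite K] (s : K) (m : ℕ) (f : R K)
    (hf : f.IsHomogeneous (m + 1)) (h : rs s f = 0) : ∃ g : R K, g.IsHomogeneous m ∧
      f = lam s * g := by
  obtain ⟨g, hg⟩ := lam_dvd s (m + 1) f hf h
  refine ⟨(DirectSum.decompose (homogeneousSubmodule (Fin 3) K) g m : R K),
    (DirectSum.decompose (homogeneousSubmodule (Fin 3) K) g m).2, ?_⟩
  have e1 := DirectSum.coe_decompose_mul_add_of_left_mem (homogeneousSubmodule (Fin 3) K)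
    (i := 1) (j := m) (a := lam s) (b := g) (lam_hom s)
  rw [← hg] at e1
  have e2 : (DirectSum.decompose (homogeneousSubmodule (Fin 3) K) f (1 + m) : R K) = f := by
    rw [add_comm 1 m]
    exact DirectSum.decompose_of_mem_same _ hf
  rw [e2] at e1
  exact e1

private instance fm_fin {K : Type} [Field K] (m : ℕ) : Module.Finite K (Fm K m) :=
  Module.Finite.iff_fg.mpr (homogeneousSubmodule_fg (Fin 3) K m)

private theorem fin_of_le {K : Type} [Field K] {m : ℕ} {V : Submodule K (R K)} (h : V ≤ Fm K m) :
    Module.Finite K V :=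
  Submodule.finiteDimensional_of_le h

private theorem fr_ker {K E F : Type} [Field K] [AddCommGroup E] [Module K E] [AddCommGroup F]
    [Module K F] (f : E →ₗ[K] F) (W : Submodule K E) [Module.Finite K W] :
    Module.finrank K (W.map f) + Module.finrank K (W ⊓ LinearMap.ker f : Submodule K E) =
      Module.finrank K W := by
  have h := LinearMap.finrank_range_add_finrank_ker (f.domRestrict W)
  have e1 : LinearMap.range (f.domRestrict W) = W.map f := by
    rw [LinearMap.domRestrict, LinearMap.range_comp, Submodule.range_subtype]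
  have e2 : Module.finrank K (LinearMap.ker (f.domRestrict W)) =
      Module.finrank K (W ⊓ LinearMap.ker f : Submodule K E) := by
    rw [LinearMap.ker_domRestrict, ← Submodule.map_comap_subtype, Submodule.finrank_map_subtype_eq]
  rw [e1, e2] at h
  exact h

private theorem fr_inj {K E F : Type} [Field K] [AddCommGroup E] [Module K E] [AddCommGroup F]
    [Module K F] (f : E →ₗ[K] F) (hf : Function.Injective f) (W : Submodule K E) :
    Module.finrank K (W.map f) = Module.finrank K W :=
  (Submodule.equivMapOfInjective f hf W).finrank_eq.symm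

private theorem mul_inj {K : Type} [Field K] (s : K) :
    Function.Injective (LinearMap.mulLeft K (lam s) : R K →ₗ[K] R K) := by
  intro a b h
  simp only [LinearMap.mulLeft_apply] at h
  exact mul_left_cancel₀ (lam_ne s) h

private theorem fm_one {K : Type} [Field K] (s : K) :
    (Fm K 1).map (rs s).toLinearMap = Submodule.span K {1, Polynomial.X} := by
  rw [show Fm K 1 = homogeneousSubmodule (Fin 3) K 1 from rfl, homogeneousSubmodule_one_eq_span_X,
    Submodule.map_span]
  have e0 : rs s (X 0) = -(Polynomial.C s * Polynomial.X) - Polynomial.C (s ^ 2) := by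
    simp [rs]
  have e1 : rs s (X 1) = Polynomial.X := by simp [rs]
  have e2 : rs s (X 2) = 1 := by simp [rs]
  apply le_antisymm
  · rw [Submodule.span_le]
    rintro _ ⟨_, ⟨i, rfl⟩, rfl⟩
    simp only [AlgHom.toLinearMap_apply, SetLike.mem_coe]
    fin_cases i
    · simp only [Fin.zero_eta]
      rw [e0, Submodule.mem_span_pair]
      refine ⟨-(s ^ 2), -s, ?_⟩
      rw [Polynomial.smul_eq_C_mul, Polynomial.smul_eq_C_mul, map_neg, map_neg]
      ring
    · simp only [Fin.mk_one]
      rw [e1]
      exact Submodule.subset_span (by simp)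
    · rw [show ((⟨2, by norm_num⟩ : Fin 3)) = 2 from rfl, e2]
      exact Submodule.subset_span (by simp)
  · rw [Submodule.span_le]
    intro p hp
    rcases hp with rfl | hp
    · exact Submodule.subset_span ⟨X 2, ⟨2, rfl⟩, e2⟩
    · rw [Set.mem_singleton_iff] at hp
      rw [hp]
      exact Submodule.subset_span ⟨X 1, ⟨1, rfl⟩, e1⟩

theorem t_Res : S_Res := by
  intro K _ _ A s hA
  refine ⟨fun m f hf => rs_deg s m f hf, ?_, ?_, ?_, ?_⟩
  · have hle : Vn A 0 ≤ Fm K 0 := fun f hf => hf.1
    have := fin_of_le hle
    have h := fr_ker (rs s).toLinearMap (Vn A 0)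
    have hb : Vn A 0 ⊓ LinearMap.ker (rs s).toLinearMap = ⊥ := by
      rw [eq_bot_iff]
      rintro f ⟨hf, hk⟩
      have h1 : f.totalDegree = 0 := (totalDegree_zero_iff_isHomogeneous _).mpr hf.1
      have hc := totalDegree_eq_zero_iff_eq_C.mp h1
      rw [SetLike.mem_coe, LinearMap.mem_ker, AlgHom.toLinearMap_apply, hc, ← MvPolynomial.algebraMap_eq,
        AlgHom.commutes] at hk
      have h2 : coeff 0 f = 0 := (FaithfulSMul.algebraMap_eq_zero_iff K (Polynomial K)).mp hk
      rw [h2, map_zero] at hc
      exact hc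
    rw [hb, finrank_bot, add_zero] at h
    exact h
  · intro m
    have hle : Vn A (m + 1) ≤ Fm K (m + 1) := fun f hf => hf.1
    have := fin_of_le hle
    have h := fr_ker (rs s).toLinearMap (Vn A (m + 1))
    have e : Vn A (m + 1) ⊓ LinearMap.ker (rs s).toLinearMap =
        (Vn A m).map (LinearMap.mulLeft K (lam s)) := by
      apply le_antisymm
      · rintro f ⟨hf, hk⟩
        obtain ⟨g, hg, hfg⟩ := lam_fac s m f hf.1 hk
        refine ⟨g, ⟨hg, fun a ha => ?_⟩, hfg.symm⟩
        have h1 := hf.2 a ha
        rw [hfg, map_mul, lam_eval] at h1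
        exact (mul_eq_zero.mp h1).resolve_left (hA a ha)
      · rintro _ ⟨g, hg, rfl⟩
        refine ⟨⟨?_, fun a ha => ?_⟩, ?_⟩
        · have := (lam_hom s).mul hg.1
          rw [add_comm] at this
          exact this
        · rw [LinearMap.mulLeft_apply, map_mul, hg.2 a ha, mul_zero]
        · rw [SetLike.mem_coe, LinearMap.mem_ker, AlgHom.toLinearMap_apply,
            LinearMap.mulLeft_apply, map_mul, rs_lam, zero_mul]
    rw [e, fr_inj _ (mul_inj s)] at h
    exact h
  · intro m V hV
    have hle : V * Fm K 1 ≤ Fm K (m + 1) :=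
      (mul_le_mul' hV le_rfl).trans (homogeneousSubmodule_mul m 1)
    have := fin_of_le hle
    have h := fr_ker (rs s).toLinearMap (V * Fm K 1)
    have e : V.map (LinearMap.mulLeft K (lam s)) ≤
        V * Fm K 1 ⊓ LinearMap.ker (rs s).toLinearMap := by
      rintro _ ⟨g, hg, rfl⟩
      refine ⟨?_, ?_⟩
      · rw [LinearMap.mulLeft_apply, mul_comm (lam s) g]
        exact Submodule.mul_mem_mul hg (lam_hom s)
      · rw [SetLike.mem_coe, LinearMap.mem_ker, AlgHom.toLinearMap_apply,
          LinearMap.mulLeft_apply, map_mul, rs_lam, zero_mul]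
    have : Module.Finite K (V * Fm K 1 ⊓ LinearMap.ker (rs s).toLinearMap : Submodule K (R K)) :=
      fin_of_le (inf_le_left.trans hle)
    have h2 := Submodule.finrank_mono e
    rw [fr_inj _ (mul_inj s)] at h2
    omega
  · intro m V hV
    rw [Submodule.map_mul, fm_one]
    apply le_antisymm
    · rw [Submodule.mul_le]
      intro p hp q hq
      rw [Submodule.mem_span_pair] at hq
      obtain ⟨a, b, rfl⟩ := hq
      rw [mul_add]
      refine Submodule.add_mem_sup ?_ ?_
      · rw [mul_smul_comm, mul_one]
        exact Submodule.smul_mem _ _ hp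
      · rw [mul_smul_comm]
        refine Submodule.smul_mem _ _ ⟨p, hp, ?_⟩
        rw [LinearMap.mulLeft_apply, mul_comm]
    · refine sup_le ?_ ?_
      · intro p hp
        rw [← mul_one p]
        exact Submodule.mul_mem_mul hp (Submodule.subset_span (by simp))
      · rintro _ ⟨p, hp, rfl⟩
        rw [LinearMap.mulLeft_apply, mul_comm Polynomial.X p]
        exact Submodule.mul_mem_mul hp (Submodule.subset_span (by simp))

end Pool.Agent.Lib.MP_d01072_ag.Tf
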