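import Pool.Agent.Lib.MP_d01072_ag.Main

/-!
MP_d01072_ag, package Tf: Comon's conjecture for general points of ALL secant varieties of the
Veronese surfaces (ternary forms, `n = 2`, `d ≥ 5`), types `(d_1, …, d_p)` with a part `≥ 2 d / 3`.
Definitions and the statements of all modules, as Props, with complete proofs in the docstrings. The
modules are independent: the module `Xxx` is the file `Tf/Xxx.lean` (imports this file) with
`theorem t_Xxx (h1 : S_Yyy) … : S_Xxx`, where `S_Yyy, …` are the statements named in the docstring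
(`uses …`). Auxiliary lemmas private.

Plan. A decomposition of the symmetric `T` of length `r` gives a finite set `A` of at most `r` points of
the plane and a functional `L` (`T` as a functional on forms of degree `d`) which vanishes on
`Vn A δ * Fm (d - δ)` (`Vn A m` = forms of degree `m` through `A`, `δ ≥ 2 d / 3` the large part). The
entries of `T` are algebraic over at most `3 r` numbers (Main): if the curves of degree `δ` through `A`
have a fixed part, it is split off (Peel); otherwise (Fin) the ideal generated in degree `δ` is big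
enough (Exc), and the points of `A` depend on few parameters (Par). The general `T` has more than
`3 (h - 1)` algebraically independent entries (AH: Alexander-Hirschowitz for the plane, `d ≥ 5`, by a
partition of the lattice triangle in triangles which are separated by lines).
-/

set_option autoImplicit false

namespace Pool.Agent.Lib.MP_d01072_ag.Tf

open MvPolynomial

/-! ## Definitions -/

/-- polynomials in three variables -/
abbrev R (K : Type) [Field K] : Type := MvPolynomial (Fin 3) K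

/-- the forms of degree `m` -/
abbrev Fm (K : Type) [Field K] (m : ℕ) : Submodule K (R K) := homogeneousSubmodule (Fin 3) K m

/-- the forms of degree `m` which vanish on `A` -/
def Vn {K : Type} [Field K] (A : Finset (Fin 3 → K)) (m : ℕ) : Submodule K (R K) where
  carrier := {f | f.IsHomogeneous m ∧ ∀ a ∈ A, eval a f = 0}
  add_mem' {f g} hf hg := ⟨hf.1.add hg.1, fun a ha => by rw [map_add, hf.2 a ha, hg.2 a ha, add_zero]⟩
  zero_mem' := ⟨isHomogeneous_zero _ _ _, fun a _ => map_zero _⟩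
  smul_mem' c f hf := ⟨(homogeneousSubmodule (Fin 3) K m).smul_mem c hf.1, fun a ha => by
    rw [smul_eval, hf.2 a ha, mul_zero]⟩

/-- the Hilbert function of `A` -/
noncomputable def Hf {K : Type} [Field K] (A : Finset (Fin 3 → K)) (m : ℕ) : ℕ :=
  (m + 2).choose 2 - Module.finrank K (Vn A m)

/-- the difference of the Hilbert function -/
noncomputable def Dl {K : Type} [Field K] (A : Finset (Fin 3 → K)) (m : ℕ) : ℕ :=
  if m = 0 then Hf A 0 else Hf A m - Hf A (m - 1)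

/-- no form of positive degree divides all elements of `V` (in particular `V` is not `0`) -/
def NC {K : Type} [Field K] (V : Submodule K (R K)) : Prop :=
  ∀ (t : ℕ) (g : R K), 0 < t → g.IsHomogeneous t → ¬ ∀ f ∈ V, g ∣ f

open Classical in
/-- the points of `A` outside the curve `F` -/
noncomputable def off {K : Type} [Field K] (A : Finset (Fin 3 → K)) (F : R K) :
    Finset (Fin 3 → K) := A.filter fun a => eval a F ≠ 0

/-- one coordinate is `1` -/
def Nrm {K : Type} [Field K] (a : Fin 3 → K) : Prop := ∃ l, a l = 1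

/-- the relative algebraic closure of `k(S)` in `K` -/
noncomputable def Cl (k : Type) {K : Type} [Field k] [Field K] [Algebra k K] (S : Set K) :
    Subfield K := (algebraicClosure (IntermediateField.adjoin k S) K).toSubfield

/-- restriction to the line `x_0 + s x_1 + s² x_2 = 0`: the point `(-s x - s², x, 1)` -/
noncomputable def rs {K : Type} [Field K] (s : K) : R K →ₐ[K] Polynomial K :=
  aeval ![-(Polynomial.C s * Polynomial.X) - Polynomial.C (s ^ 2), Polynomial.X, 1]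

/-- multiplication by the variable -/
noncomputable def xm {K : Type} [Field K] (W : Submodule K (Polynomial K)) :
    Submodule K (Polynomial K) := W.map (LinearMap.mulLeft K (Polynomial.X : Polynomial K))

/-- the line `s` contains no point of `A` -/
def Av {K : Type} [Field K] (A : Finset (Fin 3 → K)) (s : K) : Prop :=
  ∀ a ∈ A, a 0 + s * a 1 + s ^ 2 * a 2 ≠ 0

/-! ## Relative algebraic closures -/

/-- **Acl**. (1) `S ⊆ Cl S`; (2) minimality: `algebraicClosure` of the field `k(S)`; an element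
algebraic over `k(S)`, `S ⊆ Cl T`, is algebraic over the algebraic extension of `k(T)` generated by
`S` and `k(T)`, so algebraic over `k(T)`; (3) contains `k`; (4) closed under roots of nonzero
polynomials with coefficients in `Cl S` (transitivity of algebraicity). -/
def S_Acl : Prop := ∀ (k K : Type) [Field k] [Field K] [Algebra k K] (S T : Set K),
    S ⊆ (Cl k S : Set K) ∧ (S ⊆ (Cl k T : Set K) → Cl k S ≤ Cl k T) ∧
    (∀ z : k, algebraMap k K z ∈ Cl k S) ∧
    ∀ (f : Polynomial K) (x : K), f ≠ 0 → (∀ i, f.coeff i ∈ Cl k S) → f.eval x = 0 → x ∈ Cl k S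

/-- **Stz**. Steinitz. The transcendence degree of `Cl F` (algebraic over `k(F)`) over `k` is at
most `F.card`. For instance with `AlgebraicIndependent.lift_cardinalMk_le_trdeg` and
`Algebra.trdeg` bounds, or the exchange lemma. -/
def S_Stz : Prop := ∀ (k K : Type) [Field k] [Field K] [Algebra k K] (m : ℕ) (v : Fin m → K)
    (F : Finset K), AlgebraicIndependent k v → (∀ i, v i ∈ Cl k (F : Set K)) → m ≤ F.card

/-! ## Linear algebra over a subfield -/

/-- **KerP**. Let `E ⊆ K` be a subfield containing the coordinates of the points. Write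
`f = ∑ ω_s f_s` with `ω_s` from a basis of `K` over `E` and `f_s` with coefficients in `E` (finitely
many `s`). The `f_s` are forms of degree `m`, and `0 = f(a) = ∑ ω_s f_s(a)` with `f_s(a) ∈ E`, so
`f_s(a) = 0`. -/
def S_KerP : Prop := ∀ (K : Type) [Field K] (E : Subfield K) (A : Finset (Fin 3 → K)) (m : ℕ),
    (∀ a ∈ A, ∀ i, a i ∈ E) → ∀ f ∈ Vn A m,
    f ∈ Submodule.span K {g : R K | g ∈ Vn A m ∧ ∀ s, coeff s g ∈ E}

/-- **BcP**. `N = C(m+2,2)` is the number of the monomials of degree `m`. Choose a basis `p_1..p_u` of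
`span P` in `P`, and complete it to a basis of `Fm K m` by monomials `x^s`, `s ∈ M` (exchange
lemma); `M.card = N - u ≤ q`. These `N` vectors have entries in `E` and are linearly independent over
`K`, hence over `E`, hence they are an `E`-basis of the forms with coefficients in `E`. So each
monomial of degree `m` is a combination with coefficients in `E` of the `p_j` and the `x^s`,
`s ∈ M`; apply `L`. -/
def S_BcP : Prop := ∀ (K : Type) [Field K] (E : Subfield K) (m q : ℕ) (P : Set (R K)),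
    (∀ f ∈ P, f.IsHomogeneous m ∧ ∀ s, coeff s f ∈ E) →
    (m + 2).choose 2 ≤ Module.finrank K (Submodule.span K P) + q →
    ∃ M : Finset (Fin 3 →₀ ℕ), M.card ≤ q ∧ ∀ (L : R K →ₗ[K] K) (E' : Subfield K), E ≤ E' →
      (∀ f ∈ P, L f ∈ E') → (∀ s ∈ M, L (monomial s 1) ∈ E') →
      ∀ s : Fin 3 →₀ ℕ, s.degree = m → L (monomial s 1) ∈ E'

/-! ## Growth of spaces of binary forms -/

/-- **Bin**. `w = dim W`. (1) The degrees of the nonzero elements of `W` form a set of `w` numbers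
with maximum `D`; `x W` contains an element of degree `D + 1`, so `dim (W + x W) ≥ w + 1`.
(2) Suppose `dim (W + x W) = w + 1`. The set of degrees of `W + x W` contains `Deg W` and
`Deg W + 1`, so `Deg W` is an interval `[a, a + w - 1]` and `Deg (W + x W) = [a, a + w]`. Let `W_j` be
the subspace of the elements of `W` of degree `≤ a + j` (or `0`), `dim W_j = j + 1`. For
`j ≤ w - 2`: `x W_j` is contained in the elements of `W + x W` of degree `≤ a + j + 1`, a space of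
dimension `j + 2` which contains `W_(j+1)`, so it is `W_(j+1)`. Let `g` span `W_0`. Then
`x^j g ∈ W_j`, so `W = {u g : deg u ≤ w - 1}`. If `deg g > 0` it has a root, a common zero. So `g` is
constant, `W = {deg ≤ w - 1}`, and the coefficient hypothesis gives `w - 1 ≥ m`, so
`w = m + 1` and `dim (W + x W) ≥ w + 1 = m + 2`. -/
def S_Bin : Prop := ∀ (K : Type) [Field K] [IsAlgClosed K] (m : ℕ)
    (W : Submodule K (Polynomial K)), W ≤ Polynomial.degreeLE K m → W ≠ ⊥ →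
    Module.finrank K W + 1 ≤ Module.finrank K (W ⊔ xm W : Submodule K (Polynomial K)) ∧
    ((∀ x : K, ∃ f ∈ W, f.eval x ≠ 0) → (∃ f ∈ W, f.coeff m ≠ 0) →
      min (Module.finrank K W + 2) (m + 2) ≤
        Module.finrank K (W ⊔ xm W : Submodule K (Polynomial K)))

/-! ## Relatively prime forms -/

/-- **HFac**. If `f = g h` is homogeneous and not `0` then the products of the components of lowest
degrees and of highest degrees of `g`, `h` are not `0` (domain), so the lowest and highest degrees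
agree. -/
def S_HFac : Prop := ∀ (K : Type) [Field K] (f g : R K) (m : ℕ), f.IsHomogeneous m → f ≠ 0 →
    g ∣ f → ∃ t, t ≤ m ∧ g.IsHomogeneous t

/-- **Cop** (uses `S_HFac`). `f ∈ V`, `f ≠ 0` (`NC`). Let `p_1..p_u` be the irreducible factors of `f` up
to units (unique factorization); they are forms of positive degree, so by `NC`
`{g ∈ V : p_i ∣ g}` is a proper subspace of `V`. `K` is infinite, so some `g ∈ V` is in none of them
(`Subspace` covering lemma). A common divisor of `f`, `g` which is not a unit would have an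
irreducible factor, associated to some `p_i`. -/
def S_Cop : Prop := ∀ (K : Type) [Field K] [Infinite K] (m : ℕ) (V : Submodule K (R K)),
    V ≤ Fm K m → NC V → ∃ f ∈ V, ∃ g ∈ V, f ≠ 0 ∧ IsRelPrime f g

/-- **Elim**. Elimination. Let `v` be the third variable, `B = K[x_l, x_i]`, `Q` its fraction field,
`f, g ∈ B[v]`. If the gcd of `f`, `g` in `Q[v]` had positive degree in `v`, then by the lemma of Gauss
there would be a primitive element of `B[v]` of positive degree in `v` dividing both in `B[v]`,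
against `IsRelPrime`. So (`f ≠ 0`) they are coprime in `Q[v]`; clear denominators:
`u f + w g = c' ≠ 0`, `c' ∈ B`. Take a nonzero homogeneous component `c` of `c'`; it is in the ideal
since `f`, `g` are homogeneous. -/
def S_Elim : Prop := ∀ (K : Type) [Field K] (m : ℕ) (f g : R K), f.IsHomogeneous m →
    g.IsHomogeneous m → f ≠ 0 → IsRelPrime f g → ∀ l i : Fin 3, l ≠ i →
    ∃ (n : ℕ) (c : R K), c.IsHomogeneous n ∧ c ≠ 0 ∧ c ∈ Ideal.span ({f, g} : Set (R K)) ∧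
      ∀ s ∈ c.support, ∀ j, j ≠ l → j ≠ i → s j = 0

/-- **Base** (uses `S_Acl`, `S_KerP`, `S_Cop`, `S_Elim`). `E = Cl S` is an algebraically closed field,
`B` comes from a finite set `B_E` of points over `E`. By `S_KerP` `Vn B n` is spanned by the forms with
coefficients in `E`, i.e. by the image of `Vn B_E n`. So `NC (Vn B_E n)`: a form over `E` of positive
degree dividing all its elements would divide all elements of `Vn B n`. `S_Cop` and `S_Elim` over `E`:
for `a_l = 1` and `i ≠ l` there is a form `c ≠ 0` over `E`, only in `x_l, x_i`, in the ideal of two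
elements of `Vn B_E n`, so `c(a) = 0`. As `a_l = 1` this is a nonzero polynomial equation over `E`
for `a_i`. -/
def S_Base : Prop := ∀ (k K : Type) [Field k] [Field K] [Algebra k K] [IsAlgClosed K] (S : Set K)
    (B : Finset (Fin 3 → K)) (n : ℕ), (∀ b ∈ B, ∀ i, b i ∈ Cl k S) → NC (Vn B n) →
    ∀ a : Fin 3 → K, Nrm a → (∀ f ∈ Vn B n, eval a f = 0) → ∀ i, a i ∈ Cl k S

/-- **Line** (uses `S_Cop`, `S_Elim`). `f, g ∈ V` from `S_Cop` and the forms `c_12`, `c_01`, `c_02` of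
`S_Elim` for the pairs `(1,2)`, `(0,1)`, `(0,2)`. Only finitely many `s` are bad. For `a ∈ A`: the
polynomial `a_0 + s a_1 + s² a_2` in `s` is not `0`. A common zero on the line `s` is proportional to
`b = (-s x - s² y, x, y)`, `(x, y) = (x, 1)` or `(1, 0)`, and `c_12(x, y) = 0`, so `(x, y)` is in a finite
set independent of `s`. For such `(x, y)` with `x ≠ 0`: `c_01(U, x)` is a nonzero polynomial in `U` (`c_01`
is a nonzero form) and `-s x - s² y` is not constant in `s`, so `c_01(-s x - s² y, x) = 0` only for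
finitely many `s`. For `x = 0`, `y = 1`: `c_02(-s², 1) = 0` only for finitely many `s`. For a good `s`:
`f`, `g` have no common zero on the line. -/
def S_Line : Prop := ∀ (K : Type) [Field K] [IsAlgClosed K] (m : ℕ) (V : Submodule K (R K))
    (A : Finset (Fin 3 → K)), V ≤ Fm K m → NC V → (∀ a ∈ A, a ≠ 0) →
    ∃ s : K, Av A s ∧ (∀ x : K, ∃ f ∈ V, (rs s f).eval x ≠ 0) ∧ ∃ f ∈ V, (rs s f).coeff m ≠ 0

/-! ## Hilbert functions -/

/-- **Res**. Restriction to the line `s`, `λ = x_0 + s x_1 + s² x_2`. (0) `rs s f` has degree `≤ m` for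
`f` homogeneous of degree `m`. (1) `Vn A 0` consists of constants, `rs` is injective on them.
(2) The kernel of `rs s` on `Vn A (m+1)` is `λ Vn A m`: if `rs s f = 0` then the binary form
`f(-s x_1 - s² x_2, x_1, x_2)` is `0`, so `λ ∣ f` (`X_0 - r ∣ f - f(r, X_1, X_2)`), `f = λ g`, and `g`
vanishes on `A` since `λ` does not vanish there. (3) For `V ≤ Fm m` the kernel of `rs s` on
`V * Fm 1` contains `λ V`. (4) `Fm 1` is spanned by the variables, with images `-s X - s²`, `X`, `1`. -/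
def S_Res : Prop := ∀ (K : Type) [Field K] [Infinite K] (A : Finset (Fin 3 → K)) (s : K), Av A s →
    (∀ (m : ℕ) (f : R K), f.IsHomogeneous m → rs s f ∈ Polynomial.degreeLE K m) ∧
    Module.finrank K ((Vn A 0).map (rs s).toLinearMap) = Module.finrank K (Vn A 0) ∧
    (∀ m : ℕ, Module.finrank K ((Vn A (m + 1)).map (rs s).toLinearMap) +
      Module.finrank K (Vn A m) = Module.finrank K (Vn A (m + 1))) ∧
    (∀ (m : ℕ) (V : Submodule K (R K)), V ≤ Fm K m →
      Module.finrank K V + Module.finrank K ((V * Fm K 1).map (rs s).toLinearMap) ≤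
        Module.finrank K (V * Fm K 1 : Submodule K (R K))) ∧
    ∀ (m : ℕ) (V : Submodule K (R K)), V ≤ Fm K m →
      (V * Fm K 1).map (rs s).toLinearMap =
        V.map (rs s).toLinearMap ⊔ xm (V.map (rs s).toLinearMap)

/-- **Hil** (uses `S_Res`, `S_Bin`). Choose `s` with `Av A s` (finitely many `s` are bad). (1) `Fm m` has
dimension `C(m+2,2)`; evaluation at the points. (2), (3): by `S_Res` (2)
`dim Vn A (m+1) - dim Vn A m = dim W_(m+1) ≤ m + 2`, `W_m = rs (Vn A m)`. So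
`Dl A (m+1) = m + 2 - dim W_(m+1)`, `Dl A 0 = 1 - dim W_0`. (5) telescoping. (4) Let `a` be minimal with
`Vn A a ≠ 0`; `W_a ≠ 0` by `S_Res` (2) (as `Vn A (a-1) = 0`), and `W_(m+1) ⊇ W_m + x W_m`
(`Vn A m * Fm 1 ≤ Vn A (m+1)`), so `W_m ≠ 0` for `m ≥ a` and, by `S_Bin` (1), `dim W_(m+1) ≥ dim W_m + 1`. -/
def S_Hil : Prop := ∀ (K : Type) [Field K] [IsAlgClosed K] (A : Finset (Fin 3 → K)),
    (∀ a ∈ A, a ≠ 0) →
    (∀ m, Hf A m + Module.finrank K (Vn A m) = (m + 2).choose 2 ∧ Hf A m ≤ A.card) ∧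
    (∀ m, Hf A m ≤ Hf A (m + 1)) ∧ (∀ m, Dl A m ≤ m + 1) ∧
    (∀ m, Vn A m ≠ ⊥ → Dl A (m + 1) ≤ Dl A m) ∧
    (∀ m, ∑ j ∈ Finset.range (m + 1), Dl A j = Hf A m) ∧
    ∀ m, Vn A m = ⊥ → Dl A m = m + 1

/-- **Exc** (uses `S_Line`, `S_Res`, `S_Bin`, `S_Hil`). The ideal generated in degree `D`. `V = Vn A D`, `s` from
`S_Line`, `V_l = V * Fm l`, so `V_(l+1) = V_l * Fm 1`, `U_l = rs V_l`, `c = Dl A D`. `dim U_0 = D + 1 - c`
(`S_Res` (1), (2)). `U_(l+1) = U_l + x U_l` and `U_l` has no common zero and an element with nonzero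
coefficient of degree `D + l` (`f x_2^l`, `f x_1^l`). By `S_Bin` (2):
`D + l + 1 - dim U_l ≤ c - l` (truncated subtraction), by induction on `l`. By `S_Res` (3)
`dim V_(l+1) ≥ dim V_l + dim U_(l+1)`, so
`C(D+l+3,2) - dim V_(l+1) ≤ C(D+l+2,2) - dim V_l + (c - (l+1))`. -/
def S_Exc : Prop := ∀ (K : Type) [Field K] [IsAlgClosed K] (A : Finset (Fin 3 → K)) (D e : ℕ),
    (∀ a ∈ A, a ≠ 0) → NC (Vn A D) →
    (D + e + 2).choose 2 ≤ Module.finrank K (Vn A D * Fm K e : Submodule K (R K)) + Hf A D +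
      ∑ l ∈ Finset.range e, (Dl A D - (l + 1))

/-- **Gcd** (uses `S_HFac`). Let `t` be the largest number such that a form `F ≠ 0` of degree `t` divides all
elements of `Vn A m` (`t ≤ m` as `Vn A m ≠ 0`). If `f = F g ∈ Vn A m` then `g` is a form of degree
`m - t` (`S_HFac`) which vanishes on `off A F`; conversely `F g ∈ Vn A m` for `g ∈ Vn (off A F) (m - t)`. So
`Vn A m` and `Vn (off A F) (m - t)` have the same dimension. `NC`: if `h` of positive degree divides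
all elements of `Vn (off A F) (m - t)`, then `F h` divides all elements of `Vn A m`, against the choice
of `t`. -/
def S_Gcd : Prop := ∀ (K : Type) [Field K] (A : Finset (Fin 3 → K)) (m : ℕ), Vn A m ≠ ⊥ →
    ∃ (t : ℕ) (F : R K), t ≤ m ∧ F.IsHomogeneous t ∧ F ≠ 0 ∧ (∀ f ∈ Vn A m, F ∣ f) ∧
      NC (Vn (off A F) (m - t)) ∧
      (∀ g ∈ Vn (off A F) (m - t), F * g ∈ Vn A m) ∧
      Hf A m + (m - t + 2).choose 2 = Hf (off A F) (m - t) + (m + 2).choose 2

/-- **Ind**. (1) `B` minimal with `Vn B m = Vn A m`; the evaluations at `B` on `Fm m` are then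
linearly independent (otherwise one point could be omitted), so `Hf B m = B.card`. (2) Subsets of
independent sets. (3) All forms `F g`, `g ∈ Fm (m - t)`, vanish on `A`, so
`Hf A m ≤ C(m+2,2) - C(m-t+2,2)`. (4) Rescaling the points. -/
def S_Ind : Prop := ∀ (K : Type) [Field K] (A : Finset (Fin 3 → K)) (m : ℕ),
    (∃ B ⊆ A, Vn B m = Vn A m ∧ Hf B m = B.card) ∧
    (Hf A m = A.card → ∀ B ⊆ A, Hf B m = B.card) ∧
    (Hf A m = A.card → ∀ (t : ℕ) (F : R K), t ≤ m → F.IsHomogeneous t → F ≠ 0 →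
      (∀ a ∈ A, eval a F = 0) → A.card + (m - t + 2).choose 2 ≤ (m + 2).choose 2) ∧
    ((∀ a ∈ A, a ≠ 0) → ∃ B : Finset (Fin 3 → K), B.card ≤ A.card ∧ (∀ b ∈ B, Nrm b) ∧
      ∀ j, Vn B j = Vn A j)

/-! ## Parameters -/

/-- **Crv** (uses `S_Acl`). A point on a curve needs one parameter. `a_l = 1`, let `i, j` be the other
indices, `E = Cl S`. `F(1, U, V)` (in the right order) is a nonzero polynomial over `E`. If
`F(1, a_i, V) ≠ 0` then `a_j` is algebraic over `E(a_i)`, `w = a_i`. Otherwise the coefficients of the powers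
of `V` in `F(1, U, V)` vanish at `U = a_i` and one of them is not `0`, so `a_i ∈ E`, `w = a_j`. -/
def S_Crv : Prop := ∀ (k K : Type) [Field k] [Field K] [Algebra k K] (S : Set K) (t : ℕ)
    (F : R K) (a : Fin 3 → K), F.IsHomogeneous t → F ≠ 0 → (∀ s, coeff s F ∈ Cl k S) → Nrm a →
    eval a F = 0 → ∃ w : K, ∀ i, a i ∈ Cl k (insert w S)

/-- **CoefF** (uses `S_Acl`). Divide by a nonzero coefficient; there are `C(t+2,2) - 1` other
coefficients. -/
def S_CoefF : Prop := ∀ (k K : Type) [Field k] [Field K] [Algebra k K] (t : ℕ) (F : R K),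
    F.IsHomogeneous t → F ≠ 0 → ∃ (u : K) (G : Finset K), u ≠ 0 ∧ G.card + 1 ≤ (t + 2).choose 2 ∧
      ∀ s, coeff s (C u * F) ∈ Cl k (G : Set K)

/-- **Par** (uses `S_Acl`, `S_CoefF`, `S_Crv`, `S_Ind`, `S_Base`). Replace `F` by `u F`, coefficients in
`Cl G_1`, `G_1.card + 1 ≤ C(t+2,2)`. For each point of `A` on `F` add the number `w` of `S_Crv`. For the
points of `off A F` choose `B ⊆ off A F` with `Vn B n = Vn (off A F) n`, `B.card = Hf B n =
Hf (off A F) n` (`S_Ind` (1)), add the two coordinates different from the one which is `1` for each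
`b ∈ B`; the other points of `off A F` are common zeros of `Vn B n`, so by `S_Base` their coordinates
are in the closure. -/
def S_Par : Prop := ∀ (k K : Type) [Field k] [Field K] [Algebra k K] [IsAlgClosed K]
    (A : Finset (Fin 3 → K)) (t n : ℕ) (F : R K), (∀ a ∈ A, Nrm a) → F.IsHomogeneous t →
    F ≠ 0 → NC (Vn (off A F) n) → ∃ G : Finset K, (∀ a ∈ A, ∀ i, a i ∈ Cl k (G : Set K)) ∧
      G.card + 1 + (off A F).card ≤ (t + 2).choose 2 + A.card + 2 * Hf (off A F) n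

/-! ## Arithmetic -/

/-- **FinNum**. Arithmetic for `S_Fin`. Use `2 C(n+2,2) = (n+1)(n+2)`; `(3D+2)(3D+4) = 9D²+18D+8`.
(1) Suppose `2 c ≥ D + 1`. `∑_{j ≤ D} min (j+1) c = c (2D+3-c)/2`, increasing in `c ≤ D + 1`, so
`24 r ≥ 3 (D+1)(3D+5) = 9D²+24D+15`. (2) `8 i ≤ D + 4`, so
`24 C(D-i+2,2) = 12 (D-i+2)(D-i+1) ≥ 12 (7D+12)(7D+4)/64 = (147/16)D² + 21D + 9 > 9D²+18D+8`.
(3) `D - i - t ≤ i - 1`, so `C(D-i+2,2) - C(D-i-t+2,2) ≥ C(D-i+2,2) - C(i+1,2) = (D+2)(D+1-2i)/2 ≥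
3D(D+2)/8`, and `24 i c ≥ 48`; total `≥ 9D²+18D+48`.
(4) `G0 + 1 ≤ C(t+2,2) + ρ + 2 H'' = C(t+2,2) + ρ + 2 (Hm + C(m-t+2,2) - C(m+2,2))`, `Hm ≤ r - i c`,
`ρ ≤ C(D+2,2) - C(D-t+2,2)`; `C(t+2,2) - 1 + C(D+2,2) - C(D-t+2,2) - 2 C(m+2,2) + 2 C(m-t+2,2) =
t (D - 2m + t) = - t (D - 2i - t) ≤ 0` (`m = D - i`). So `G0 ≤ 2r - 2 i c` and
`2 k ≤ c (c-1) ≤ 4 i c`. -/
def S_FinNum : Prop :=
  (∀ (D c r : ℕ) (Δ : ℕ → ℕ), ∑ j ∈ Finset.range (D + 1), Δ j = r →
    (∀ j ≤ D, min (j + 1) c ≤ Δ j) → c ≤ D + 1 → 24 * r < (3 * D + 2) * (3 * D + 4) →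
    2 * c ≤ D) ∧
  (∀ D c r : ℕ, 2 * c ≤ D → 24 * r < (3 * D + 2) * (3 * D + 4) →
    r < (D - (c + 2) / 4 + 2).choose 2) ∧
  (∀ D c r t : ℕ, 2 ≤ c → 2 * c ≤ D → t ≤ D - (c + 2) / 4 → D + 1 ≤ t + 2 * ((c + 2) / 4) →
    (c + 2) / 4 * c + (D - (c + 2) / 4 + 2).choose 2 ≤ r + (D - (c + 2) / 4 - t + 2).choose 2 →
    (3 * D + 2) * (3 * D + 4) ≤ 24 * r) ∧
  ∀ D c r t i m G0 ρ H2 Hm k : ℕ, m + i = D → t ≤ m → (t = 0 ∨ t + 2 * i ≤ D) → c ≤ 4 * i + 1 →
    G0 + 1 ≤ (t + 2).choose 2 + ρ + 2 * H2 →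
    Hm + (m - t + 2).choose 2 = H2 + (m + 2).choose 2 → Hm + i * c ≤ r →
    ρ + (D - t + 2).choose 2 ≤ (D + 2).choose 2 → 2 * k ≤ c * (c - 1) → G0 + (r + k) ≤ 3 * r

/-- **PeelNum**. Arithmetic for `S_Peel`. (1) `24 r < 4 (d+1)(d+2) ≤ (3δ+2)(3δ+4)` and
`24 C(δ+2,2) = 12 (δ+1)(δ+2)`. (2) `C(t+2,2) - 1 + C(d+2,2) - C(d-t+2,2) = t (d+3)` and
`C(δ+2,2) - C(δ-t+2,2) = t (2δ+3-t)/2 =: κ`; `2 t (d+3) ≤ 3 t (2δ+3-t)` as
`3 t ≤ 3 δ + 3 ≤ 6 δ - 2 d + 3`. (3) `H = r - κ`; with `δ = D + t`: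
`24 H < 9δ²+18δ+8 - 12 t (2D+3+t) = 9D²+18D+8 - 6Dt - 18t - 3t²`. -/
def S_PeelNum : Prop := ∀ d δ r : ℕ, 2 * d ≤ 3 * δ → δ ≤ d → 6 * r < (d + 1) * (d + 2) →
    r < (δ + 2).choose 2 ∧ ∀ t ≤ δ,
      ((t + 2).choose 2 + (d + 2).choose 2 + 3 * (δ - t + 2).choose 2 ≤
        (d - t + 2).choose 2 + 3 * (δ + 2).choose 2 + 1) ∧
      ∀ H : ℕ, r + (δ - t + 2).choose 2 = H + (δ + 2).choose 2 →
        24 * H < (3 * (δ - t) + 2) * (3 * (δ - t) + 4)

/-! ## The main lemma -/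

/-- **Fin** (uses `S_Acl`, `S_KerP`, `S_BcP`, `S_Hil`, `S_Exc`, `S_Gcd`, `S_Ind`, `S_Par`, `S_FinNum`). No fixed
part. `r = A.card = Hf A D`, `c = Dl A D`, `k = ∑ l ∈ range e, (c - (l+1))`, `2 k ≤ c (c - 1)`.
(a) Let `G0` be a finite set with all `a i ∈ E := Cl G0`. The set `P` of all `f * monomial b 1`,
`f ∈ Vn A D` with coefficients in `E`, `b.degree = e`, spans `Vn A D * Fm e` (`S_KerP`). By `S_Exc`
and `S_BcP` (with `q = r + k`) there is `M`, `M.card ≤ r + k`; `L` vanishes on `P`. So all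
`L (monomial s 1)` are in `Cl G`, `G = G0 ∪ {L (monomial s 1) : s ∈ M}`; it is enough that
`G0.card + (r + k) ≤ 3 r`.
(b) `c ≤ 1`: `k = 0`, `G0` = two coordinates of each point.
(c) `c ≥ 2`, `i = (c + 2) / 4`, so `c ≤ 4 i + 1`. `Dl A j ≥ min (j+1) c` for `j ≤ D` (`S_Hil`: if
`Vn A j = ⊥` then `Dl A j = j + 1`, otherwise `Dl` is non-increasing from `j` to `D`), `c ≤ D + 1`, so `2 c ≤ D`
by `S_FinNum` (1). `m = D - i`. `Vn A m ≠ ⊥`, otherwise `r ≥ Hf A m = C(m+2,2)`, against `S_FinNum` (2).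
So `Dl A j ≥ c` for `m ≤ j ≤ D` and `Hf A m + i c ≤ r`. `t`, `F` from `S_Gcd` for `m`. If
`t ≠ 0` and `t + 2 i > D`: `Hf A m ≥ C(m+2,2) - C(m-t+2,2)`, against `S_FinNum` (3). `G0` from `S_Par` with
`n = m - t`; `ρ = A.card - (off A F).card`; the points of `A` on `F` are independent in degree `D`
(`S_Ind` (2), (3)), so `ρ + C(D-t+2,2) ≤ C(D+2,2)`. `S_FinNum` (4). -/
def S_Fin : Prop := ∀ (k K : Type) [Field k] [Field K] [Algebra k K] [IsAlgClosed K]
    (A : Finset (Fin 3 → K)) (D e : ℕ) (L : R K →ₗ[K] K), (∀ a ∈ A, Nrm a) →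
    Hf A D = A.card → NC (Vn A D) → 24 * A.card < (3 * D + 2) * (3 * D + 4) →
    (∀ f ∈ (Vn A D * Fm K e : Submodule K (R K)), L f = 0) →
    ∃ G : Finset K, G.card ≤ 3 * A.card ∧
      ∀ s : Fin 3 →₀ ℕ, s.degree = D + e → L (monomial s 1) ∈ Cl k (G : Set K)

/-- **Peel** (uses `S_Acl`, `S_BcP`, `S_Hil`, `S_Gcd`, `S_Ind`, `S_CoefF`, `S_PeelNum`, `S_Fin`). Splitting off the
fixed part. `r = A.card = Hf A δ`. `Vn A δ ≠ ⊥` by `S_PeelNum` (1). `t`, `F` from `S_Gcd` for `m = δ`,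
`D = δ - t`, `e = d - δ`, scale `F` so that its coefficients are in `Cl G1`, `G1.card + 1 ≤ C(t+2,2)`
(`S_CoefF`; the hypotheses on `F` do not change). `B ⊆ off A F` with `Vn B D = Vn (off A F) D`,
`Hf B D = B.card` (`S_Ind` (1)), so `NC (Vn B D)` and `r + C(D+2,2) = B.card + C(δ+2,2)`. Let
`L' f = L (F f)`. `L'` vanishes on `Vn B D * Fm e` (`F g ∈ Vn A δ`). By `S_PeelNum` (3) and `S_Fin`:
`G2`, `G2.card ≤ 3 B.card`, `L' (monomial b 1) ∈ Cl G2` for `b.degree = D + e = d - t`. `S_BcP` for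
`P = {F * monomial b 1 : b.degree = d - t}`, of rank `C(d-t+2,2)`, `q = C(d+2,2) - C(d-t+2,2)`,
`E = Cl G1`: all `L (monomial s 1)`, `s.degree = d`, are in `Cl G`, `G = G1 ∪ G2 ∪ {L (monomial s 1) : s ∈ M}`.
`G.card ≤ 3 r` by `S_PeelNum` (2). -/
def S_Peel : Prop := ∀ (k K : Type) [Field k] [Field K] [Algebra k K] [IsAlgClosed K]
    (A : Finset (Fin 3 → K)) (d δ : ℕ) (L : R K →ₗ[K] K), (∀ a ∈ A, Nrm a) → Hf A δ = A.card →
    2 * d ≤ 3 * δ → δ ≤ d → 6 * A.card < (d + 1) * (d + 2) →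
    (∀ f ∈ (Vn A δ * Fm K (d - δ) : Submodule K (R K)), L f = 0) →
    ∃ G : Finset K, G.card ≤ 3 * A.card ∧
      ∀ s : Fin 3 →₀ ℕ, s.degree = d → L (monomial s 1) ∈ Cl k (G : Set K)

/-- **Main** (uses `S_Ind`, `S_Peel`). `S_Ind` (4) and (1): a set `B` of normalised points with at most
`A.card` elements, `Vn B δ = Vn A δ`, `Hf B δ = B.card`. -/
def S_Main : Prop := ∀ (k K : Type) [Field k] [Field K] [Algebra k K] [IsAlgClosed K]
    (A : Finset (Fin 3 → K)) (d δ : ℕ) (L : R K →ₗ[K] K), (∀ a ∈ A, a ≠ 0) →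
    2 * d ≤ 3 * δ → δ ≤ d → 6 * A.card < (d + 1) * (d + 2) →
    (∀ f ∈ (Vn A δ * Fm K (d - δ) : Submodule K (R K)), L f = 0) →
    ∃ G : Finset K, G.card ≤ 3 * A.card ∧
      ∀ s : Fin 3 →₀ ℕ, s.degree = d → L (monomial s 1) ∈ Cl k (G : Set K)

/-- **Dec** (uses `S_Acl`, `S_Main`). `T i = ∑ j, ∏ t, l j (c t) (i t)`, `δ = size c κ > 0`. Let
`A = {l j κ : j} \ {0}`. For a monomial `s` of degree `d` let `L (monomial s 1) = T (i_s)`, where `i_s` takes
the value `x` exactly `s x` times (`L = 0` on other monomials); by symmetry `T i = L (monomial s 1)`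
for every `i` with content `s`. `L` vanishes on `Vn A δ * Fm (d - δ)`: for a fixed monomial `b` of
degree `d - δ` choose an arrangement of `b` in the slots outside the group `κ`; for `a` of
degree `δ` fill the slots of `κ` with `a`: `L (x^a x^b) = ∑ j, (l j κ)^a w_j` with `w_j` independent of
`a`. So `L (g x^b) = ∑ j, g (l j κ) w_j = 0` for `g ∈ Vn A δ` (`g 0 = 0` as `δ > 0`). `S_Main`. -/
def S_Dec : Prop := ∀ (K : Type) [Field K] [Algebra ℂ K] [IsAlgClosed K] (d p : ℕ)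
    (c : Fin d → Fin p) (κ : Fin p) (r : ℕ) (l : Fin r → Fin p → Fin 3 → K), 1 ≤ d →
    2 * d ≤ 3 * size c κ → 6 * r < (d + 1) * (d + 2) →
    (∀ (σ : Equiv.Perm (Fin d)) (i : Fin d → Fin 3),
      ∑ j, ∏ t, l j (c t) (i (σ t)) = ∑ j, ∏ t, l j (c t) (i t)) →
    ∃ G : Finset K, G.card ≤ 3 * r ∧
      ∀ i : Fin d → Fin 3, ∑ j, ∏ t, l j (c t) (i t) ∈ Cl ℂ (G : Set K)

/-- **Trans** (uses `S_Dec`, `S_Stz`). Suppose that every `Q` which vanishes on all
`T ∈ sec 2 d h` with `SumOf c r T` satisfies `aeval (par 2 d h) Q = 0`. Let `C = MvPolynomial (Fin d → Fin 3) ℂ`,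
`𝔮 = ker (aeval (par 2 d h))`, a prime ideal, `B = MvPolynomial (Fin r × Fin p × Fin 3) ℂ`,
`φ : C → B`, `X i ↦ ∑ j, ∏ t, X (j, c t, i t)`, `𝔞 ⊆ B` the ideal of the polynomials vanishing at all
`a` with `T(a) = ∑ j, pt c (a j) ∈ sec 2 d h`. Then `φ⁻¹ 𝔞 = 𝔮`: `φ Q ∈ 𝔞` iff `Q` vanishes on the
`T ∈ sec` with `SumOf c r T`, and elements of `𝔮` vanish on `sec` (`aeval_par_eq_zero`). So
there is a prime `𝔓 ⊇ 𝔞` of `B` with `φ⁻¹ 𝔓 = 𝔮` (`Ideal.exists_comap_eq_of_mem_minimalPrimes` for `I = 𝔞`,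
`𝔮 = 𝔞.comap φ` is prime). Let `K` be an
algebraic closure of the fraction field of `B / 𝔓`, `l j k x` the image of `X (j, k, x)`,
`τ i = ∑ j, ∏ t, l j (c t) (i t)`, the image of `φ (X i)`. For `Q ∈ C`: `Q(τ) = 0` iff `Q ∈ 𝔮`. So `τ` is
symmetric and the `τ (J j)` are algebraically independent; `S_Dec` and `S_Stz` give `m ≤ 3 r`. -/
def S_Trans : Prop := ∀ (d p : ℕ) (c : Fin d → Fin p) (κ : Fin p) (r h m : ℕ)
    (J : Fin m → (Fin d → Fin 3)), 1 ≤ d → 2 * d ≤ 3 * size c κ → 6 * r < (d + 1) * (d + 2) →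
    3 * r < m → AlgebraicIndependent ℂ (fun j => par 2 d h (J j)) →
    ∃ Q : MvPolynomial (Fin d → Fin 3) ℂ, aeval (par 2 d h) Q ≠ 0 ∧
      ∀ T : Tens 2 d, SumOf c r T → T ∈ sec 2 d h → eval T Q = 0

/-! ## Alexander-Hirschowitz for the plane -/

/-- an affine function -/
def af (w : ℤ × ℤ × ℤ) (p : ℤ × ℤ) : ℤ := w.1 * p.1 + w.2.1 * p.2 + w.2.2

/-- the determinant of three points of the plane -/
def dt (p q r : ℤ × ℤ) : ℤ := (q.1 - p.1) * (r.2 - p.2) - (r.1 - p.1) * (q.2 - p.2)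

/-- `Bsp A n s`: `A` can be cut by lines successively into `n` triangles and `s` single points -/
inductive Bsp : Finset (ℤ × ℤ) → ℕ → ℕ → Prop
  | nil : Bsp ∅ 0 0
  | sing (p : ℤ × ℤ) : Bsp {p} 0 1
  | tri (p q r : ℤ × ℤ) (h : dt p q r ≠ 0) : Bsp {p, q, r} 1 0
  | cut (A B : Finset (ℤ × ℤ)) (n s n' s' : ℕ) (w : ℤ × ℤ × ℤ) (hA : ∀ p ∈ A, af w p < 0)
      (hB : ∀ p ∈ B, 0 < af w p) (h : Bsp A n s) (h' : Bsp B n' s') :
      Bsp (A ∪ B) (n + n') (s + s')

/-- a triangle or a single point -/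
def Cell (A : Finset (ℤ × ℤ)) : Prop := (∃ p, A = {p}) ∨ ∃ p q r, dt p q r ≠ 0 ∧ A = {p, q, r}

/-- `A` is the union of `N` cells, and the affine function of each cell is the smallest on it -/
def Adm (A : Finset (ℤ × ℤ)) (N : ℕ) : Prop :=
  ∃ (Z : Fin N → Finset (ℤ × ℤ)) (w : Fin N → ℤ × ℤ × ℤ), (∀ i, Cell (Z i)) ∧
    (∀ p, p ∈ A ↔ ∃ i, p ∈ Z i) ∧ ∀ i j, i ≠ j → ∀ p ∈ Z i, af (w i) p < af (w j) p

/-- **BAdm**. Induction. `cut`: keep the functions of `A` and replace those of `B` by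
`w_j - N w`, `N` large: on `B` (`w > 0`) they become smaller than those of `A`, on `A` (`w < 0`) larger
(finitely many points and functions; the order among the functions of `B` does not change). -/
def S_BAdm : Prop := ∀ (A : Finset (ℤ × ℤ)) (n s : ℕ), Bsp A n s → Adm A (n + s)

/-- the triangle of the lattice points with `x, y ≥ 0`, `x + y ≤ d` -/
def Td (d : ℕ) : Finset (ℤ × ℤ) :=
  ((Finset.range (d + 1) ×ˢ Finset.range (d + 1)).filter fun p => p.1 + p.2 ≤ d).image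
    fun p => ((p.1 : ℤ), (p.2 : ℤ))

theorem mem_Td {d : ℕ} {p : ℤ × ℤ} : p ∈ Td d ↔ 0 ≤ p.1 ∧ 0 ≤ p.2 ∧ p.1 + p.2 ≤ d := by
  unfold Td
  simp only [Finset.mem_image, Finset.mem_filter, Finset.mem_product, Finset.mem_range]
  constructor
  · rintro ⟨q, ⟨_, hq⟩, rfl⟩
    refine ⟨by simp only; positivity, by simp only; positivity, ?_⟩
    simp only
    exact_mod_cast hq
  · rintro ⟨h1, h2, h3⟩
    refine ⟨(p.1.toNat, p.2.toNat), ⟨⟨by simp only; omega, by simp only; omega⟩, by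
      simp only; omega⟩, ?_⟩
    ext
    · simp only; omega
    · simp only; omega

/-- the sum of the monomials with exponents `(x, y, d - x - y)` in `N` triples of variables -/
noncomputable def pw (d N : ℕ) (p : ℤ × ℤ) : MvPolynomial (Fin N × Fin 3) ℂ :=
  ∑ i : Fin N, X (i, 0) ^ p.1.toNat * X (i, 1) ^ p.2.toNat * X (i, 2) ^ (d - p.1 - p.2).toNat

/-- **AdmI**. `A ⊆ Td d`, `d ≥ 1`. Multiply all functions by `d` and add a constant to make the
weights nonnegative: there are weights `u_(i,0), u_(i,1), u_(i,2) ∈ ℕ` with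
`φ_i(p) := u_(i,0) x + u_(i,1) y + u_(i,2) (d - x - y)` equal to `d (w_i)(p) + const` (the same constant for
all `i`): `u_(i,2) = const/d + c_i`, `u_(i,0) = d a_i + u_(i,2)`, `u_(i,1) = d b_i + u_(i,2)`,
`w_i = (a_i, b_i, c_i)`.
Let `g_p = X(i,0)^x X(i,1)^y X(i,2)^(d-x-y)` for `p ∈ Z i` (the cells are disjoint). Substitute
`X(i,x) ↦ T^(u_(i,x)) X(i,x)` (polynomials in a further variable `T`): `pw p ↦ T^(v_p) (g_p + T h_p)`,
`v_p = φ_i(p)`. Suppose `∑ c_m ∏ (pw p)^(m_p) = 0` with some `c_m ≠ 0`; let `v` be the smallest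
`∑ v_p m_p` with `c_m ≠ 0`; divide by `T^v` and put `T = 0`: `∑ c_m ∏ g_p^(m_p) = 0` (sum over the `m` with
`∑ v_p m_p = v`). But the `g_p` are monomials with linearly independent exponents (for a triangle the
determinant of the three vectors `(x, y, d - x - y)` is `d dt p q r ≠ 0`, up to sign; different cells
have different variables; for a single point `(x, y, d-x-y) ≠ 0`), so the products `∏ g_p^(m_p)` are
different monomials. -/
def S_AdmI : Prop := ∀ (d N : ℕ) (A : Finset (ℤ × ℤ)), 1 ≤ d → A ⊆ Td d → Adm A N →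
    AlgebraicIndependent ℂ (fun p : {p // p ∈ A} => pw d N p.1)

/-- **Sub**. Part of the triangles. Induction on `Bsp`; `cut`: `h = h1 + h2` with `h1 ≤ n`, `h2 ≤ n'`.
For `h = 0` take `∅`. -/
def S_Sub : Prop := ∀ (A : Finset (ℤ × ℤ)) (n s h : ℕ), Bsp A n s → h ≤ n →
    ∃ B ⊆ A, B.card = 3 * h ∧ Bsp B h 0

/-- the rows `y = 0 .. k - 1` of the triangle `Td d` -/
def Rw (d k : ℕ) : Finset (ℤ × ℤ) := (Td d).filter fun p => p.2 < k

/-- **Str**. Strips and translations. (0) Translation of a `Bsp` (induction; translate the affine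
functions). (1) `d = 3 q + 1`: the two rows are `q` blocks of `3 × 2` points (columns `3j, 3j+1, 3j+2`; each
is cut by `2x + y` (relative coordinates) into `(0,0), (1,0), (0,1)` and `(2,0), (1,1), (2,1)`) and the triangle
`(3q,0), (3q+1,0), (3q,1)`; cut by vertical lines. (2) `d = 3 q`: `q` blocks and the point `(3q, 0)`.
(3) `d = 3 q + 5`: the four rows are `q` blocks of `3 × 4` points and the block of `6, 5, 4, 3` points.
The block `3 × 4`: cut `-x + y ≤ -1`: triangle `(1,0),(2,0),(2,1)`; cut `-2x + y ≤ -1`: `(1,1),(2,2),(2,3)`; cut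
`-x + y ≤ 1`: `(0,0),(0,1),(1,2)`; rest `(0,2),(0,3),(1,3)`.
The block `6, 5, 4, 3` (rows `y = 0..3`, `x = 0..5-y`): cut `-2x+y ≤ -7`: `(4,0),(5,0),(4,1)`; cut `-x+y ≤ -2`:
`(2,0),(3,0),(3,1)`; cut `-x+y > 1`: `(0,2),(0,3),(1,3)`; cut `-2x+y > -1`: `(0,0),(0,1),(1,2)`; cut `y ≤ 1`:
`(1,0),(1,1),(2,1)`; rest `(2,2),(3,2),(2,3)`. -/
def S_Str : Prop :=
  (∀ (A : Finset (ℤ × ℤ)) (n s : ℕ) (v : ℤ × ℤ), Bsp A n s →
    Bsp (A.image fun p => p + v) n s) ∧
  (∀ q : ℕ, Bsp (Rw (3 * q + 1) 2) (2 * q + 1) 0) ∧ (∀ q : ℕ, Bsp (Rw (3 * q) 2) (2 * q) 1) ∧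
  ∀ q : ℕ, Bsp (Rw (3 * q + 5) 4) (4 * q + 6) 0

/-- **B568**. Three explicit partitions (cuts `a x + b y ≤ v` are listed with the part that is cut off).
`Td 5`: the rows `0..3` as in `S_Str` and the triangle `(0,4),(1,4),(0,5)`.
`Td 6`: `(6,0)` [`-2x+y ≤ -12`]; `(4,0),(5,0),(5,1)` [`-2x+y ≤ -8`]; `(3,0),(4,1),(4,2)` [`-2x+y ≤ -6`];
`(2,0),(3,1),(3,2)` [`-2x+y ≤ -4`]; `(0,0),(1,0),(2,1)` [`-x+2y ≤ 0`]; `(0,1),(1,1),(2,2)` [`-x+2y ≤ 2`];
`(0,5),(1,5),(0,6)` [`-x+2y > 8`]; `(0,3),(0,4),(1,4)` [`-x+y > 2`]; `(0,2),(1,2),(1,3)` [`x ≤ 1`]; rest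
`(2,3),(3,3),(2,4)`.
`Td 8`: `(7,0),(8,0),(7,1)` [`-2x+y ≤ -13`]; `(5,0),(6,0),(6,1)` [`-x+y ≤ -5`]; `(3,0),(4,0),(5,1)`
[`-x+2y ≤ -3`]; `(4,1),(5,2),(6,2)` [`-x+y ≤ -3`]; `(1,0),(2,0),(3,1)` [`-x+2y ≤ -1`];
`(4,2),(4,3),(5,3)` [`-2x+y ≤ -5`]; `(0,7),(1,7),(0,8)` [`-x+2y > 12`]; `(0,5),(0,6),(1,6)` [`-x+y > 4`];
`(0,3),(0,4),(1,5)` [`-2x+y > 2`]; `(1,4),(2,5),(2,6)` [`-x+y > 2`]; `(0,1),(0,2),(1,3)` [`-2x+y > 0`];
`(2,4),(3,4),(3,5)` [`-x+2y > 4`]; `(0,0),(1,1),(2,1)` [`y ≤ 1`]; `(3,2),(3,3),(4,4)` [`-2x+y ≤ -3`]; rest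
`(1,2),(2,2),(2,3)`. -/
def S_B568 : Prop := Bsp (Td 5) 7 0 ∧ Bsp (Td 6) 9 1 ∧ Bsp (Td 8) 15 0

/-- **Tri** (uses `S_Str`, `S_B568`). Strong induction: `Td 5`, `Td 6`, `Td 8`; `d ≡ 1` (mod 3), `d ≥ 7`: two rows
and `Td (d - 2)` (translated by `(0, 2)`), `d - 2 ≡ 2`; `d ≡ 0`, `d ≥ 9`: two rows and `Td (d - 2)`, `d - 2 ≡ 1`;
`d ≡ 2`, `d ≥ 11`: four rows and `Td (d - 4)`, `d - 4 ≡ 1`. Cut by horizontal lines. `(Td d).card = C(d+2,2)`
is `0` or `1` modulo `3`. -/
def S_Tri : Prop := ∀ d : ℕ, 5 ≤ d → (Td d).card = (d + 2).choose 2 ∧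
    ∃ n s : ℕ, Bsp (Td d) n s ∧ 3 * n + s = (d + 2).choose 2 ∧ s ≤ 1

/-- **AH** (uses `S_BAdm`, `S_AdmI`, `S_Sub`, `S_Tri`). For `p ∈ Td d` let `i_p : Fin d → Fin 3` have the content
`(x, y, d - x - y)`; then `par 2 d h (i_p) = pw d h p`. `n`, `s` from `S_Tri`. If `h ≤ n`: `B` from `S_Sub`, `m = 3 h`,
`J` an enumeration of the `i_p`, `p ∈ B`. Otherwise `3 (h-1) < C(d+2,2) = 3 n + s` gives `h = n + 1`, `s = 1`:
take all of `Td d`, `m = 3 n + 1 > 3 (h - 1)`. Last claim: `C(d+2,2) ≤ 3 h` and `3 (h-1) < C(d+2,2)` give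
`h = n + s`; all `pw d h p`, `p ∈ Td d`, are algebraically independent; for symmetric `T`, `eval T P` is the
value of `P₁` (the polynomial obtained from `P` by `X i ↦ X p`, `p` the content of `i`) at
`(T i_p)_p`, and `P₁ (pw d h p) = aeval (par 2 d h) P = 0`, so `P₁ = 0`. -/
def S_AH : Prop := ∀ d h : ℕ, 5 ≤ d → 1 ≤ h → 3 * (h - 1) < (d + 2).choose 2 →
    (∃ (m : ℕ) (J : Fin m → (Fin d → Fin 3)), 3 * (h - 1) < m ∧
      AlgebraicIndependent ℂ (fun j => par 2 d h (J j))) ∧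
    ((d + 2).choose 2 ≤ 3 * h → ∀ P : MvPolynomial (Fin d → Fin 3) ℂ,
      aeval (par 2 d h) P = 0 → ∀ T : Tens 2 d,
      (∀ (σ : Equiv.Perm (Fin d)) (i : Fin d → Fin 3), T (fun t => i (σ t)) = T i) →
      eval T P = 0)

/-- **Final** (uses `S_Trans`, `S_AH`). `g = (C(d+2,2) + 2) / 3`, so `3 (g-1) < C(d+2,2) ≤ 3 g`. (1) `h ≤ g`:
`r = h - 1`, `6 r < (d+1)(d+2)`; `Q1` from `S_Trans` (with `m`, `J` of `S_AH`), `Q2` from `exists_open_image`; as in
`main_affine` and `comon_general` (Main.lean) `Q1 Q2` has the property and a homogeneous component of it too: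
for `T ∈ sec` with `Q1 Q2 (T) ≠ 0`: `SumOf (one d) h T`, and `SumOf c r' T` is false for `r' ≤ r` (`SumOf.mono`;
`Q1` vanishes on the `T ∈ sec` with `SumOf c r T`); `SumOf (one d) r' T` implies `SumOf c r' T`.
(2) `h > g`: `sec 2 d h = sec 2 d g`: `⊇` by `SumOf.mono`; `⊆`: elements of `sec 2 d h` are symmetric (the
polynomials `X i - X (i ∘ σ)`), and a `P` vanishing on the `SumOf (one d) g` satisfies `aeval (par 2 d g) P = 0`,
so it vanishes on symmetric tensors by `S_AH`. -/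
def S_Final : Prop := ∀ (d p : ℕ) (c : Fin d → Fin p) (κ : Fin p) (h : ℕ), 5 ≤ d →
    2 * d ≤ 3 * size c κ → 1 ≤ h →
    ∃ (e : ℕ) (Q : MvPolynomial (Fin d → Fin 3) ℂ), Q.IsHomogeneous e ∧
      (∃ T ∈ sec 2 d h, eval T Q ≠ 0) ∧ ∀ T ∈ sec 2 d h, eval T Q ≠ 0 →
        rk c T = (min h (((d + 2).choose 2 + 2) / 3) : ℕ) ∧
        srk T = (min h (((d + 2).choose 2 + 2) / 3) : ℕ)

end Pool.Agent.Lib.MP_d01072_ag.Tf
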